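import Mathlib
import Pool.Agent.TH551.SU.Sui

/-!
# Integers close to sums of S-unit germs

If an integer germ `a` and a sum of independent `S`-unit germs with negligible coefficients add up
to something exponentially small, then `a` is a rational combination of the terms of the sum.
-/

set_option autoImplicit false

namespace Pool.Agent.TH507.ZS

open Filter Topology Pool.Agent.TH932.Germs Pool.Agent.TH551.SU Pool.Agent.TH461.SST

/-- `x` is, up to sign, a product of powers of the `b v` with exponents at most `c` in absolute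
value -/
def HB {s : ℕ} (b : Fin s → ℕ) (c : ℝ) (x : ℚ) : Prop :=
  ∃ (σ : ℤ) (e : Fin s → ℤ), (σ = 1 ∨ σ = -1) ∧ x = σ * ∏ v, (b v : ℚ) ^ (e v) ∧
    ∀ v, |(e v : ℝ)| ≤ c

lemma HB.isSU {s : ℕ} {b : Fin s → ℕ} {c : ℝ} {x : ℚ} (h : HB b c x) : IsSU b x := by
  obtain ⟨σ, e, hσ, hx, -⟩ := h
  exact ⟨σ, e, hσ, hx⟩

lemma HB.mono {s : ℕ} {b : Fin s → ℕ} {c c' : ℝ} {x : ℚ} (h : HB b c x) (hc : c ≤ c') :
    HB b c' x := by
  obtain ⟨σ, e, hσ, hx, he⟩ := h
  exact ⟨σ, e, hσ, hx, fun v => (he v).trans hc⟩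

lemma HB.mul {s : ℕ} {b : Fin s → ℕ} (hb : ∀ v, (b v : ℚ) ≠ 0) {c c' : ℝ} {x y : ℚ}
    (h : HB b c x) (h' : HB b c' y) : HB b (c + c') (x * y) := by
  obtain ⟨σ, e, hσ, hx, he⟩ := h
  obtain ⟨σ', e', hσ', hy, he'⟩ := h'
  refine ⟨σ * σ', fun v => e v + e' v, ?_, ?_, ?_⟩
  · rcases hσ with h | h <;> rcases hσ' with h' | h' <;> simp [h, h']
  · rw [hx, hy]
    push_cast
    simp only [zpow_add₀ (hb _)]
    rw [Finset.prod_mul_distrib]
    ring
  · intro v
    push_cast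
    exact (abs_add_le _ _).trans (add_le_add (he v) (he' v))

lemma HB.inv {s : ℕ} {b : Fin s → ℕ} {c : ℝ} {x : ℚ} (h : HB b c x) : HB b c x⁻¹ := by
  obtain ⟨σ, e, hσ, hx, he⟩ := h
  refine ⟨σ, fun v => - e v, hσ, ?_, ?_⟩
  · rw [hx, mul_inv, ← Finset.prod_inv_distrib]
    congr 1
    · rcases hσ with h | h <;> simp [h]
    · exact Finset.prod_congr rfl fun v _ => (zpow_neg _ _).symm
  · intro v
    push_cast
    rw [abs_neg]
    exact he v

lemma HB.pow {s : ℕ} {b : Fin s → ℕ} (hb : ∀ v, (b v : ℚ) ≠ 0) {c : ℝ} {x : ℚ}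
    (h : HB b c x) (n : ℕ) : HB b (n * c) (x ^ n) := by
  induction n with
  | zero =>
    refine ⟨1, fun _ => 0, Or.inl rfl, by simp, fun v => by simp⟩
  | succ n ih =>
    rw [pow_succ]
    refine (ih.mul hb h).mono ?_
    push_cast
    linarith

lemma HB.ne_zero {s : ℕ} {b : Fin s → ℕ} (hb : ∀ v, (b v : ℚ) ≠ 0) {c : ℝ} {x : ℚ}
    (h : HB b c x) : x ≠ 0 := by
  obtain ⟨σ, e, hσ, hx, -⟩ := h
  rw [hx]
  refine mul_ne_zero ?_ (Finset.prod_ne_zero_iff.mpr fun v _ => zpow_ne_zero _ (hb v))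
  rcases hσ with rfl | rfl <;> norm_num

/-- a natural number all of whose prime factors are among the `b v` -/
lemma HB.nat {s : ℕ} (b : Fin s → ℕ) (hbi : Function.Injective b) (x : ℕ) (hx : x ≠ 0)
    (h : ∀ p, p.Prime → p ∣ x → ∃ v, b v = p) : HB b (Real.log x / Real.log 2) (x : ℚ) := by
  refine ⟨1, fun v => (x.factorization (b v) : ℤ), Or.inl rfl, ?_, ?_⟩
  · have h1 := Nat.prod_factorization_pow_eq_self hx
    rw [Finsupp.prod] at h1
    have h2 : ∏ v, (b v) ^ (x.factorization (b v)) = x := by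
      conv_rhs => rw [← h1]
      rw [← Finset.prod_image (s := Finset.univ) (g := b)
        (f := fun p => p ^ x.factorization p) (fun i _ j _ hij => hbi hij)]
      symm
      refine Finset.prod_subset ?_ ?_
      · intro p hp
        rw [Nat.support_factorization, Nat.mem_primeFactors] at hp
        obtain ⟨v, hv⟩ := h p hp.1 hp.2.1
        exact Finset.mem_image.2 ⟨v, Finset.mem_univ _, hv⟩
      · intro p _ hp
        rw [Finsupp.notMem_support_iff] at hp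
        rw [hp, pow_zero]
    rw [Int.cast_one, one_mul]
    conv_lhs => rw [← h2]
    push_cast
    rfl
  · intro v
    rw [Int.cast_natCast, Nat.abs_cast, le_div_iff₀ (Real.log_pos (by norm_num))]
    have h1 : 2 ^ (x.factorization (b v)) ≤ x := by
      by_cases hp : (b v).Prime
      · refine (Nat.pow_le_pow_left hp.two_le _).trans ?_
        exact Nat.ordProj_le _ hx
      · rw [Nat.factorization_eq_zero_of_not_prime _ hp, pow_zero]
        omega
    have h2 : (2 : ℝ) ^ (x.factorization (b v)) ≤ x := by exact_mod_cast h1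
    have h3 := Real.log_le_log (by positivity) h2
    rwa [Real.log_pow] at h3

/-- germs of sequences of units of height `O(L)` -/
def HSU {s : ℕ} (b : Fin s → ℕ) (L : ℕ → ℝ) (g : GG) : Prop :=
  ∃ (a : ℕ → ℚ) (c : ℝ), g = gm a ∧ (∀ n, IsSU b (a n)) ∧
    ∀ᶠ n in (UU : Filter ℕ), HB b (c * L n) (a n)

lemma HSU.gsu {s : ℕ} {b : Fin s → ℕ} {L : ℕ → ℝ} {g : GG} (h : HSU b L g) : GSU b g := by
  obtain ⟨a, c, hg, ha, -⟩ := h
  exact ⟨a, hg, ha⟩

lemma HSU.ne_zero {s : ℕ} {b : Fin s → ℕ} (hb : ∀ v, (b v).Prime) {L : ℕ → ℝ} {g : GG}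
    (h : HSU b L g) : g ≠ 0 := by
  obtain ⟨a, c, hg, -, ha⟩ := h
  rw [hg, gm_ne_zero]
  filter_upwards [ha] with n hn
  exact hn.ne_zero fun v => by exact_mod_cast (hb v).ne_zero

/-- the subspace theorem along the ultrafilter -/
lemma exists_rel {s n : ℕ} (hn : 1 ≤ n) (M0 : Matrix (Fin n) (Fin n) ℤ)
    (M : Fin s → Matrix (Fin n) (Fin n) ℤ) (b : Fin s → ℕ) (hP : Places M0 M b) (c γ : ℝ)
    (hc : 1 ≤ c) (hγ : 0 < γ) (L : ℕ → ℝ) (hL : Tendsto L atTop atTop)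
    (e : ℕ → Fin s → Fin n → ℕ) (A : ℕ → Fin n → ℝ) (X : ℕ → Fin n → ℤ)
    (h : ∀ᶠ t in (UU : Filter ℕ), Size b c γ (L t) (e t) (A t) ∧ X t ≠ 0 ∧
      Sol M0 M b (e t) (A t) (X t)) :
    ∃ y : Fin n → ℤ, y ≠ 0 ∧ ∀ᶠ t in (UU : Filter ℕ), ∑ l, y l * X t l = 0 := by
  by_contra hcon
  push Not at hcon
  have hno : ∀ y : Fin n → ℤ, y ≠ 0 → ∀ᶠ t in (UU : Filter ℕ), ∑ l, y l * X t l ≠ 0 := hcon
  obtain ⟨f, hf⟩ := exists_surjective_nat (Fin n → ℤ)
  have hex : ∀ t : ℕ, ∃ k, t ≤ k ∧ (Size b c γ (L k) (e k) (A k) ∧ X k ≠ 0 ∧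
      Sol M0 M b (e k) (A k) (X k)) ∧ ∀ q ≤ t, f q ≠ 0 → ∑ l, f q l * X k l ≠ 0 := by
    intro t
    have h1 : ∀ᶠ n in (UU : Filter ℕ), ∀ q ∈ Finset.range (t + 1), f q ≠ 0 →
        ∑ l, f q l * X n l ≠ 0 := by
      rw [Finset.eventually_all]
      intro q _
      by_cases h2 : f q = 0
      · exact Eventually.of_forall fun n h3 => absurd h2 h3
      · filter_upwards [hno _ h2] with n hn _ using hn
    have h2 : ∀ᶠ n in (UU : Filter ℕ), t ≤ n := ev_of_atTop (eventually_ge_atTop t)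
    obtain ⟨k, h3, h4, h5⟩ := (h2.and (h.and h1)).exists
    exact ⟨k, h3, h4, fun q hq => h5 q (Finset.mem_range_succ_iff.2 hq)⟩
  choose ν hν1 hν2 hν3 using hex
  have hνt : Tendsto ν atTop atTop := tendsto_atTop_mono hν1 tendsto_id
  obtain ⟨y, hy, hfr⟩ := sst n s hn M0 M b hP c γ hc hγ (fun t => L (ν t)) (hL.comp hνt)
    (fun t => e (ν t)) (fun t => A (ν t)) (fun t => (hν2 t).1) (fun t => X (ν t))
    (fun t => (hν2 t).2.1) (fun t => (hν2 t).2.2)
  obtain ⟨q, rfl⟩ := hf y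
  obtain ⟨t, h1, h2⟩ := (hfr.and_eventually (eventually_ge_atTop q)).exists
  exact hν3 t q h2 hy h1

/-- the linear forms at the real place -/
def MR (M : ℕ) : Matrix (Fin (M + 1)) (Fin (M + 1)) ℤ :=
  fun l j => Fin.cases 1 (fun i => if j = i.succ then 1 else 0) l

lemma MR_zero {M : ℕ} (x : Fin (M + 1) → ℤ) : ∑ j, MR M 0 j * x j = ∑ j, x j := by
  refine Finset.sum_congr rfl fun j _ => ?_
  show (Fin.cases 1 _ (0 : Fin (M + 1)) : ℤ) * _ = _
  rw [Fin.cases_zero, one_mul]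

lemma MR_succ {M : ℕ} (x : Fin (M + 1) → ℤ) (i : Fin M) :
    ∑ j, MR M i.succ j * x j = x i.succ := by
  have h : ∀ j, MR M i.succ j * x j = if j = i.succ then x j else 0 := by
    intro j
    show (Fin.cases 1 _ (i.succ) : ℤ) * _ = _
    rw [Fin.cases_succ]
    split_ifs <;> simp
  rw [Finset.sum_congr rfl fun j _ => h j]
  simp

lemma MR_det (M : ℕ) : (MR M).det ≠ 0 := by
  intro h
  obtain ⟨x, hx, h1⟩ := Matrix.exists_mulVec_eq_zero_iff.2 h
  apply hx
  have h2 : ∀ i : Fin M, x i.succ = 0 := by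
    intro i
    exact (MR_succ x i).symm.trans (congrFun h1 i.succ)
  have h3 : ∑ j, x j = 0 := by
    exact (MR_zero x).symm.trans (congrFun h1 0)
  rw [Fin.sum_univ_succ, Finset.sum_eq_zero fun i _ => h2 i, add_zero] at h3
  funext l
  induction l using Fin.cases with
  | zero => exact h3
  | succ i => exact h2 i

end Pool.Agent.TH507.ZS
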