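import Mathlib
import Pool.Agent.TH507.ZS.KL

/-!
# Integers close to sums of S-unit germs
-/

set_option autoImplicit false

namespace Pool.Agent.TH507.ZS

open Filter Topology Pool.Agent.TH932.Germs Pool.Agent.TH551.SU Pool.Agent.TH461.SST
open Pool.Agent.TH551.SU.SUI (Negl.prod)

/-- logarithm of a negligible nonzero integer -/
lemma log_negl {L : ℕ → ℝ} {m : ℕ → ℤ} (h : Negl L m) {ε : ℝ} (hε : 0 < ε) :
    ∀ᶠ n in (UU : Filter ℕ), m n ≠ 0 → 0 ≤ Real.log |(m n : ℝ)| ∧
      Real.log |(m n : ℝ)| ≤ ε * L n := by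
  filter_upwards [h ε hε] with n hn h0
  have h1 : (1 : ℝ) ≤ |(m n : ℝ)| := by exact_mod_cast Int.one_le_abs h0
  refine ⟨Real.log_nonneg h1, ?_⟩
  rw [← Real.log_exp (ε * L n)]
  exact Real.log_le_log (by linarith) hn

/-- germ of a finite sum -/
lemma gm_sum {ι : Type*} (A : Finset ι) (f : ι → ℕ → ℚ) :
    gm (fun n => ∑ i ∈ A, f i n) = ∑ i ∈ A, gm (f i) := by
  classical
  induction A using Finset.induction_on with
  | empty => simp [gm_zero]
  | insert x A hx ih =>
    rw [Finset.sum_insert hx, ← ih, gm_add]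
    congr 1
    funext n
    rw [Finset.sum_insert hx]

theorem kl {s M : ℕ} (hM : 1 ≤ M) (b : Fin s → ℕ) (hb : ∀ v, (b v).Prime)
    (hbi : Function.Injective b) (L : ℕ → ℝ) (hL : Tendsto L atTop atTop)
    (U : Fin M → GG) (hU : ∀ i, HSU b L (U i))
    (hne : ∀ i j, i ≠ j → U i / U j ∉ KK L hL) (c : Fin M → KK L hL) (hc : ∀ i, c i ≠ 0)
    (x : Fin M → ℕ → ℚ) (hx : ∀ i, gm (x i) = (c i : GG) * U i) (a : ℕ → ℤ) (η : ℝ) (hη : 0 < η)
    (hsm : ∀ᶠ n in (UU : Filter ℕ), |(a n : ℝ) + ∑ i, (x i n : ℝ)| ≤ Real.exp (-(η * L n))) :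
    ∃ μ : Fin M → ℚ, gm (fun n => (a n : ℚ)) = ∑ i, gm (fun _ => μ i) * gm (x i) := by
  classical
  have hb2 : ∀ v, 2 ≤ b v := fun v => (hb v).two_le
  have hb0 : ∀ v, (b v : ℚ) ≠ 0 := fun v => by exact_mod_cast (hb v).ne_zero
  have hlb : ∀ v, 0 < Real.log (b v) := fun v => Real.log_pos (by exact_mod_cast hb2 v)
  have hsui := SUI.sui s b hb hbi L hL M U (fun i => (hU i).gsu) hne
  choose ua cc hUa hSU hHB using hU
  have h0 : ∀ i, ∃ m d : ℕ → ℤ, Negl L m ∧ Negl L d ∧ (∀ᶠ n in (UU : Filter ℕ), d n ≠ 0) ∧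
    (c i : GG) = gm fun n => (m n : ℚ) / d n := fun i => (c i).2
  choose Mi d hMi hd hd0 hg using h0
  have hd1 : ∀ᶠ n in (UU : Filter ℕ), ∀ i, d i n ≠ 0 := eventually_all.2 hd0
  have hM0 : ∀ᶠ n in (UU : Filter ℕ), ∀ i, Mi i n ≠ 0 := by
    refine eventually_all.2 fun i => ?_
    have h1 : (c i : GG) ≠ 0 := fun h2 => hc i (Subtype.ext h2)
    rw [hg, gm_ne_zero] at h1
    filter_upwards [h1] with n hn h2
    apply hn
    rw [h2]
    simp
  have hxe : ∀ᶠ n in (UU : Filter ℕ), ∀ i, x i n = (Mi i n : ℚ) / d i n * ua i n := by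
    refine eventually_all.2 fun i => ?_
    have h1 := hx i
    rw [hg, hUa, gm_mul, gm_eq] at h1
    exact h1
  have hHB' : ∀ᶠ n in (UU : Filter ℕ), ∀ i, HB b (cc i * L n) (ua i n) := eventually_all.2 hHB
  have hex : ∀ i n, ∃ (σ : ℤ) (E : Fin s → ℤ), HB b (cc i * L n) (ua i n) →
      ((σ = 1 ∨ σ = -1) ∧ ua i n = σ * ∏ v, (b v : ℚ) ^ (E v) ∧
        ∀ v, |(E v : ℝ)| ≤ cc i * L n) := by
    intro i n
    by_cases h : HB b (cc i * L n) (ua i n)
    · obtain ⟨σ, E, h1, h2, h3⟩ := h
      exact ⟨σ, E, fun _ => ⟨h1, h2, h3⟩⟩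
    · exact ⟨0, 0, fun h' => absurd h' h⟩
  choose σ E hE using hex
  -- the integer data
  set D : ℕ → ℤ := fun n => ∏ j, d j n with hD
  set Cc : Fin M → ℕ → ℤ := fun i n => Mi i n * ∏ j ∈ Finset.univ.erase i, d j n with hCc
  have hDN : Negl L D := Negl.prod hL _ fun j _ => hd j
  have hCN : ∀ i, Negl L (Cc i) := fun i => (hMi i).mul (Negl.prod hL _ fun j _ => hd j)
  set E0 : ℕ → Fin s → ℕ := fun n v => ∑ i, (E i n v).natAbs with hE0
  set T : ℕ → ℤ := fun n => ∏ v, (b v : ℤ) ^ (E0 n v) with hT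
  set e : ℕ → Fin s → Fin (M + 1) → ℕ := fun n v l =>
    Fin.cases (E0 n v) (fun i => ((E0 n v : ℤ) + E i n v).toNat) l with he
  have he0 : ∀ n v, e n v 0 = E0 n v := fun n v => rfl
  have heS : ∀ n v (i : Fin M), e n v i.succ = ((E0 n v : ℤ) + E i n v).toNat := fun n v i => rfl
  have hEle : ∀ n v (i : Fin M), |E i n v| ≤ (E0 n v : ℤ) := by
    intro n v i
    rw [hE0]
    simp only
    rw [Int.abs_eq_natAbs]
    exact_mod_cast Finset.single_le_sum (f := fun i => (E i n v).natAbs)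
      (fun _ _ => Nat.zero_le _) (Finset.mem_univ i)
  have heZ : ∀ n v (i : Fin M), (e n v i.succ : ℤ) = (E0 n v : ℤ) + E i n v := by
    intro n v i
    rw [heS, Int.toNat_of_nonneg]
    have h1 := hEle n v i
    have h2 := neg_abs_le (E i n v)
    linarith
  set X : ℕ → Fin (M + 1) → ℤ := fun n l =>
    Fin.cases (a n * D n * T n) (fun i => Cc i n * (σ i n * ∏ v, (b v : ℤ) ^ (e n v i.succ))) l
    with hX
  have hX0 : ∀ n, X n 0 = a n * D n * T n := fun n => rfl
  have hXS : ∀ n (i : Fin M), X n i.succ = Cc i n * (σ i n * ∏ v, (b v : ℤ) ^ (e n v i.succ)) :=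
    fun n i => rfl
  set A : ℕ → Fin (M + 1) → ℝ := fun n l =>
    Fin.cases (|(D n : ℝ)| * T n * Real.exp (-(η * L n))) (fun i => |(X n i.succ : ℝ)|) l with hA
  have hA0 : ∀ n, A n 0 = |(D n : ℝ)| * T n * Real.exp (-(η * L n)) := fun n => rfl
  have hAS : ∀ n (i : Fin M), A n i.succ = |(X n i.succ : ℝ)| := fun n i => rfl
  -- constants
  set κ : ℝ := ∑ i, |cc i| with hκ
  have hκ0 : 0 ≤ κ := Finset.sum_nonneg fun i _ => abs_nonneg _
  set B0 : ℝ := ∑ v, Real.log (b v) with hB0
  have hB00 : 0 ≤ B0 := Finset.sum_nonneg fun v _ => (hlb v).le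
  have hlbB : ∀ v, Real.log (b v) ≤ B0 := fun v =>
    Finset.single_le_sum (f := fun v => Real.log (b v)) (fun v _ => (hlb v).le) (Finset.mem_univ v)
  set ct : ℝ := 2 + η + 2 * κ * B0 with hct
  have hct1 : 1 ≤ ct := by
    have : 0 ≤ 2 * κ * B0 := by positivity
    linarith
  have hM1 : (0 : ℝ) < 2 * ((M : ℝ) + 1) := by positivity
  have hTpos : ∀ n, (0 : ℝ) < (T n : ℝ) := by
    intro n
    rw [hT]
    push_cast
    exact Finset.prod_pos fun v _ => by
      have := hb2 v
      positivity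
  have hlT : ∀ n, Real.log (T n : ℝ) = ∑ v, (E0 n v : ℝ) * Real.log (b v) := by
    intro n
    rw [hT]
    push_cast
    rw [Real.log_prod]
    · exact Finset.sum_congr rfl fun v _ => Real.log_pow _ _
    · intro v _
      have := hb2 v
      positivity
  have hgood : ∀ᶠ n in (UU : Filter ℕ), Size b ct (η / 2) (L n) (e n) (A n) ∧ X n ≠ 0 ∧
      Sol (MR M) (fun _ => (1 : Matrix (Fin (M + 1)) (Fin (M + 1)) ℤ)) b (e n) (A n) (X n) := by
    have hs1 := log_negl hDN (show (0 : ℝ) < η / (2 * ((M : ℝ) + 1)) by positivity)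
    have hs1' := log_negl hDN (show (0 : ℝ) < 1 by norm_num)
    have hs2 : ∀ᶠ n in (UU : Filter ℕ), ∀ i, Cc i n ≠ 0 → 0 ≤ Real.log |(Cc i n : ℝ)| ∧
        Real.log |(Cc i n : ℝ)| ≤ η / (2 * ((M : ℝ) + 1)) * L n :=
      eventually_all.2 fun i => log_negl (hCN i) (by positivity)
    have hs2' : ∀ᶠ n in (UU : Filter ℕ), ∀ i, Cc i n ≠ 0 → 0 ≤ Real.log |(Cc i n : ℝ)| ∧
        Real.log |(Cc i n : ℝ)| ≤ 1 * L n :=
      eventually_all.2 fun i => log_negl (hCN i) (by norm_num)
    filter_upwards [hd1, hM0, hxe, hHB', hs1, hs1', hs2, hs2', hsm, L_nonneg hL] with n hdn hMn hxn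
      hHn hs1n hs1n' hs2n hs2n' hsmn hLn
    have hDn : D n ≠ 0 := Finset.prod_ne_zero_iff.2 fun j _ => hdn j
    have hCn : ∀ i, Cc i n ≠ 0 := fun i =>
      mul_ne_zero (hMn i) (Finset.prod_ne_zero_iff.2 fun j _ => hdn j)
    have hE' := fun i => hE i n (hHn i)
    have hσ : ∀ i, |(σ i n : ℝ)| = 1 := by
      intro i
      rcases (hE' i).1 with h | h <;> simp [h]
    -- exponents
    have hEb : ∀ i v, |(E i n v : ℝ)| ≤ |cc i| * L n := fun i v =>
      ((hE' i).2.2 v).trans (mul_le_mul_of_nonneg_right (le_abs_self _) hLn)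
    have hE0b : ∀ v, (E0 n v : ℝ) ≤ κ * L n := by
      intro v
      rw [hE0, hκ, Finset.sum_mul]
      push_cast
      refine Finset.sum_le_sum fun i _ => ?_
      rw [Nat.cast_natAbs, Int.cast_abs]
      exact hEb i v
    have heSb : ∀ v (i : Fin M), (e n v i.succ : ℝ) ≤ 2 * κ * L n := by
      intro v i
      have h1 : (e n v i.succ : ℝ) = (E0 n v : ℝ) + E i n v := by exact_mod_cast heZ n v i
      have h2 : |(E i n v : ℝ)| ≤ (E0 n v : ℝ) := by exact_mod_cast hEle n v i
      have h3 := le_abs_self (E i n v : ℝ)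
      have h4 := hE0b v
      linarith
    have hlogprod : ∀ (i : Fin M), Real.log (∏ v, (b v : ℝ) ^ (e n v i.succ)) =
        ∑ v, (e n v i.succ : ℝ) * Real.log (b v) := by
      intro i
      rw [Real.log_prod]
      · exact Finset.sum_congr rfl fun v _ => Real.log_pow _ _
      · intro v _
        have := hb2 v
        positivity
    have hprodpos : ∀ (i : Fin M), (0 : ℝ) < ∏ v, (b v : ℝ) ^ (e n v i.succ) := fun i =>
      Finset.prod_pos fun v _ => by
        have := hb2 v
        positivity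
    have hXabs : ∀ i : Fin M, |(X n i.succ : ℝ)| =
        |(Cc i n : ℝ)| * ∏ v, (b v : ℝ) ^ (e n v i.succ) := by
      intro i
      rw [hXS]
      push_cast
      rw [abs_mul, abs_mul, hσ, one_mul, abs_of_pos (hprodpos i)]
    have hCpos : ∀ i, (0 : ℝ) < |(Cc i n : ℝ)| := fun i => abs_pos.2 (by exact_mod_cast hCn i)
    have hDpos : (0 : ℝ) < |(D n : ℝ)| := abs_pos.2 (by exact_mod_cast hDn)
    have hlAS : ∀ i : Fin M, Real.log (A n i.succ) = Real.log |(Cc i n : ℝ)| +
        ∑ v, (e n v i.succ : ℝ) * Real.log (b v) := by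
      intro i
      rw [hAS, hXabs, Real.log_mul (hCpos i).ne' (hprodpos i).ne', hlogprod]
    have hlA0 : Real.log (A n 0) = Real.log |(D n : ℝ)| + Real.log (T n) - η * L n := by
      rw [hA0, Real.log_mul (mul_pos hDpos (hTpos n)).ne' (Real.exp_pos _).ne',
        Real.log_mul hDpos.ne' (hTpos n).ne', Real.log_exp]
      ring
    have hsumb : ∀ i : Fin M, ∑ v, (e n v i.succ : ℝ) * Real.log (b v) ≤ 2 * κ * B0 * L n := by
      intro i
      calc ∑ v, (e n v i.succ : ℝ) * Real.log (b v) ≤ ∑ v, (2 * κ * L n) * Real.log (b v) :=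
            Finset.sum_le_sum fun v _ => mul_le_mul_of_nonneg_right (heSb v i) (hlb v).le
        _ = 2 * κ * B0 * L n := by rw [← Finset.mul_sum]; ring
    have hsumb0 : ∀ i : Fin M, 0 ≤ ∑ v, (e n v i.succ : ℝ) * Real.log (b v) := fun i =>
      Finset.sum_nonneg fun v _ => mul_nonneg (Nat.cast_nonneg _) (hlb v).le
    have hlTb : Real.log (T n) ≤ κ * B0 * L n := by
      rw [hlT]
      calc ∑ v, (E0 n v : ℝ) * Real.log (b v) ≤ ∑ v, (κ * L n) * Real.log (b v) :=
            Finset.sum_le_sum fun v _ => mul_le_mul_of_nonneg_right (hE0b v) (hlb v).le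
        _ = κ * B0 * L n := by rw [← Finset.mul_sum]; ring
    have hlT0 : 0 ≤ Real.log (T n) := by
      rw [hlT]
      exact Finset.sum_nonneg fun v _ => mul_nonneg (Nat.cast_nonneg _) (hlb v).le
    have hκB : 0 ≤ κ * B0 * L n := by positivity
    -- real identity
    have hXx : ∀ i : Fin M, (X n i.succ : ℝ) = (D n : ℝ) * T n * (x i n : ℝ) := by
      intro i
      have h1 : (Cc i n : ℚ) = (D n : ℚ) * ((Mi i n : ℚ) / d i n) := by
        have h2 : (d i n : ℚ) ≠ 0 := by exact_mod_cast hdn i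
        rw [hCc, hD]
        simp only
        rw [← Finset.mul_prod_erase _ _ (Finset.mem_univ i)]
        push_cast
        field_simp
      have h2 : ((σ i n * ∏ v, (b v : ℤ) ^ (e n v i.succ) : ℤ) : ℚ) = (T n : ℚ) * ua i n := by
        rw [(hE' i).2.1, hT]
        push_cast
        rw [mul_left_comm, ← Finset.prod_mul_distrib]
        congr 1
        refine Finset.prod_congr rfl fun v _ => ?_
        rw [← zpow_natCast, ← zpow_natCast, ← zpow_add₀ (hb0 v), heZ]
      have h3 : (X n i.succ : ℚ) = (D n : ℚ) * T n * x i n := by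
        rw [hXS, Int.cast_mul, h1, h2, hxn i]
        ring
      exact_mod_cast h3
    refine ⟨⟨?_, ?_, ?_, ?_⟩, ?_, ?_, ?_⟩
    · intro v l
      have hbound : ∀ t : ℝ, t ≤ 2 * κ * L n → 0 ≤ t → t * Real.log (b v) ≤ ct * L n := by
        intro t ht ht0
        calc t * Real.log (b v) ≤ (2 * κ * L n) * B0 :=
              mul_le_mul ht (hlbB v) (hlb v).le (by positivity)
          _ ≤ ct * L n := by
            rw [hct]
            nlinarith
      induction l using Fin.cases with
      | zero =>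
        rw [he0]
        refine hbound _ ?_ (Nat.cast_nonneg _)
        have h1 := hE0b v
        have h2 : 0 ≤ κ * L n := by positivity
        linarith
      | succ i => exact hbound _ (heSb v i) (Nat.cast_nonneg _)
    · intro l
      induction l using Fin.cases with
      | zero =>
        rw [hA0]
        have := hTpos n
        positivity
      | succ i =>
        rw [hAS, hXabs]
        exact mul_pos (hCpos i) (hprodpos i)
    · intro l
      induction l using Fin.cases with
      | zero =>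
        rw [hlA0, abs_le]
        have h1 := hs1n' hDn
        have h2 : 0 ≤ η * L n := by positivity
        rw [hct]
        constructor <;> nlinarith
      | succ i =>
        rw [hlAS]
        have h1 := hs2n' i (hCn i)
        have h2 := hsumb i
        have h3 := hsumb0 i
        have h4 : 0 ≤ η * L n := by positivity
        rw [abs_of_nonneg (by linarith [h1.1]), hct]
        nlinarith [h1.2]
    · rw [Fin.sum_univ_succ, hlA0]
      have h1 : ∑ v, ∑ l, (e n v l : ℝ) * Real.log (b v) = Real.log (T n) +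
          ∑ i : Fin M, ∑ v, (e n v i.succ : ℝ) * Real.log (b v) := by
        rw [hlT, Finset.sum_comm (s := (Finset.univ : Finset (Fin M))), ← Finset.sum_add_distrib]
        refine Finset.sum_congr rfl fun v _ => ?_
        rw [Fin.sum_univ_succ, he0]
      rw [h1, Finset.sum_congr rfl fun i _ => hlAS i, Finset.sum_add_distrib]
      have h2 : ∑ i : Fin M, Real.log |(Cc i n : ℝ)| ≤ M * (η / (2 * ((M : ℝ) + 1)) * L n) := by
        calc ∑ i : Fin M, Real.log |(Cc i n : ℝ)| ≤ ∑ _i : Fin M, η / (2 * ((M : ℝ) + 1)) * L n :=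
              Finset.sum_le_sum fun i _ => (hs2n i (hCn i)).2
          _ = M * (η / (2 * ((M : ℝ) + 1)) * L n) := by
            rw [Finset.sum_const, Finset.card_univ, Fintype.card_fin, nsmul_eq_mul]
      have h3 := (hs1n hDn).2
      have h4 : (M : ℝ) * (η / (2 * ((M : ℝ) + 1)) * L n) + η / (2 * ((M : ℝ) + 1)) * L n =
          η / 2 * L n := by
        field_simp
      linarith
    · intro hX00
      have h1 := congrFun hX00 (Fin.succ ⟨0, hM⟩)
      have h2 := hXabs ⟨0, hM⟩
      rw [h1] at h2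
      have h3 := mul_pos (hCpos ⟨0, hM⟩) (hprodpos ⟨0, hM⟩)
      rw [← h2] at h3
      simp at h3
    · intro l
      induction l using Fin.cases with
      | zero =>
        rw [MR_zero, hA0]
        have h1 : ((∑ j, X n j : ℤ) : ℝ) = (D n : ℝ) * T n * ((a n : ℝ) + ∑ i, (x i n : ℝ)) := by
          rw [Fin.sum_univ_succ, hX0]
          push_cast
          rw [Finset.sum_congr rfl fun i _ => hXx i, ← Finset.mul_sum]
          ring
        rw [h1, abs_mul, abs_mul, abs_of_pos (hTpos n)]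
        exact mul_le_mul_of_nonneg_left hsmn (mul_nonneg (abs_nonneg _) (hTpos n).le)
      | succ i =>
        rw [MR_succ, hAS]
    · intro v l
      have h1 : ∑ j, (1 : Matrix (Fin (M + 1)) (Fin (M + 1)) ℤ) l j * X n j = X n l := by
        simp [Matrix.one_apply]
      rw [h1]
      induction l using Fin.cases with
      | zero =>
        rw [hX0, he0]
        exact Dvd.dvd.mul_left (Finset.dvd_prod_of_mem _ (Finset.mem_univ v)) _
      | succ i =>
        rw [hXS]
        exact Dvd.dvd.mul_left (Dvd.dvd.mul_left (Finset.dvd_prod_of_mem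
          (fun v => (b v : ℤ) ^ (e n v i.succ)) (Finset.mem_univ v)) _) _
  obtain ⟨y, hy, hrel⟩ := exists_rel (by omega : 1 ≤ M + 1) (MR M) (fun _ => 1) b
    ⟨MR_det M, fun v => by simp, hb2, fun v v' hv => (Nat.coprime_primes (hb v) (hb v')).2
      fun h => hv (hbi h)⟩ ct (η / 2) hct1 (by positivity) L hL e A X hgood
  -- the relation of germs
  have hrelx : ∀ᶠ n in (UU : Filter ℕ), (y 0 : ℚ) * a n + ∑ i : Fin M, (y i.succ : ℚ) * x i n = 0 := by
    filter_upwards [hrel, hd1, hxe, hHB'] with n hn hdn hxn hHn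
    have hDn : D n ≠ 0 := Finset.prod_ne_zero_iff.2 fun j _ => hdn j
    have hE' := fun i => hE i n (hHn i)
    have hXx : ∀ i : Fin M, (X n i.succ : ℚ) = (D n : ℚ) * T n * (x i n : ℚ) := by
      intro i
      have h1 : (Cc i n : ℚ) = (D n : ℚ) * ((Mi i n : ℚ) / d i n) := by
        have h2 : (d i n : ℚ) ≠ 0 := by exact_mod_cast hdn i
        rw [hCc, hD]
        simp only
        rw [← Finset.mul_prod_erase _ _ (Finset.mem_univ i)]
        push_cast
        field_simp
      have h2 : ((σ i n * ∏ v, (b v : ℤ) ^ (e n v i.succ) : ℤ) : ℚ) = (T n : ℚ) * ua i n := by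
        rw [(hE' i).2.1, hT]
        push_cast
        rw [mul_left_comm, ← Finset.prod_mul_distrib]
        congr 1
        refine Finset.prod_congr rfl fun v _ => ?_
        rw [← zpow_natCast, ← zpow_natCast, ← zpow_add₀ (hb0 v), heZ]
      rw [hXS, Int.cast_mul, h1, h2, hxn i]
      ring
    have hDT : (D n : ℚ) * T n ≠ 0 := by
      refine mul_ne_zero (by exact_mod_cast hDn) ?_
      have := hTpos n
      have h2 : (T n : ℝ) ≠ 0 := this.ne'
      exact_mod_cast h2
    have h1 : ((∑ l, y l * X n l : ℤ) : ℚ) = 0 := by rw [hn]; simp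
    rw [Fin.sum_univ_succ, hX0] at h1
    push_cast at h1
    rw [Finset.sum_congr rfl fun i _ => by rw [hXx i]] at h1
    have h2 : (D n : ℚ) * T n * ((y 0 : ℚ) * a n + ∑ i : Fin M, (y i.succ : ℚ) * x i n) = 0 := by
      rw [← h1, mul_add, Finset.mul_sum]
      congr 1
      · ring
      · exact Finset.sum_congr rfl fun i _ => by ring
    exact (mul_eq_zero.1 h2).resolve_left hDT
  have hrelg : gm (fun _ => (y 0 : ℚ)) * gm (fun n => (a n : ℚ)) +
      ∑ i : Fin M, gm (fun _ => (y i.succ : ℚ)) * gm (x i) = 0 := by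
    rw [gm_mul, Finset.sum_congr rfl fun i _ => gm_mul _ _, ← gm_sum, gm_add, ← gm_zero, gm_eq]
    exact hrelx
  have hy0 : y 0 ≠ 0 := by
    intro h0
    rw [h0] at hrelg
    simp only [Int.cast_zero, gm_zero, zero_mul, zero_add] at hrelg
    apply hy
    have h1 := hsui (fun i => ((y i.succ : ℤ) : KK L hL) * c i) (by
      rw [← hrelg]
      refine Finset.sum_congr rfl fun i _ => ?_
      have h8 : (((y i.succ : ℤ) : KK L hL) : GG) = gm (fun _ => (y i.succ : ℚ)) := by
        rw [SubringClass.coe_intCast]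
        rfl
      rw [Subfield.coe_mul, h8, hx i, mul_assoc])
    funext l
    induction l using Fin.cases with
    | zero => exact h0
    | succ i =>
      have h5 := (mul_eq_zero.1 (h1 i)).resolve_right (hc _)
      exact_mod_cast h5
  refine ⟨fun i => - (y i.succ : ℚ) / y 0, ?_⟩
  have hyg : gm (fun _ => (y 0 : ℚ)) ≠ 0 := by
    rw [gm_ne_zero]
    exact Eventually.of_forall fun _ => by exact_mod_cast hy0
  apply mul_left_cancel₀ hyg
  rw [eq_neg_of_add_eq_zero_left hrelg, Finset.mul_sum, ← Finset.sum_neg_distrib]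
  refine Finset.sum_congr rfl fun i _ => ?_
  have h9 : (y 0 : ℚ) ≠ 0 := by exact_mod_cast hy0
  show gm (fun n => -((y i.succ : ℚ) * x i n)) =
    gm (fun n => (y 0 : ℚ) * ((-(y i.succ : ℚ) / y 0) * x i n))
  congr 1
  funext n
  field_simp

end Pool.Agent.TH507.ZS
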