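import Mathlib
import Pool.Agent.TH507.ZS.KL2
import Pool.Agent.TH551.SU.CS

/-!
# Grouping into classes modulo the negligible field
-/

set_option autoImplicit false

namespace Pool.Agent.TH507.ZS

open Filter Topology Pool.Agent.TH932.Germs Pool.Agent.TH551.SU Pool.Agent.TH461.SST

lemma gm_const_mem {L : ℕ → ℝ} (hL : Tendsto L atTop atTop) (q : ℚ) :
    gm (fun _ => q) ∈ KK L hL := by
  have h1 : gm (fun _ => q) =
      (((q.num : ℤ) : KK L hL) : GG) / ((((q.den : ℕ) : ℤ) : KK L hL) : GG) := by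
    rw [SubringClass.coe_intCast, SubringClass.coe_intCast]
    show _ = gm (fun _ => (q.num : ℚ)) / gm (fun _ => (((q.den : ℕ) : ℤ) : ℚ))
    rw [gm_div]
    congr 1
    funext n
    exact_mod_cast (Rat.num_div_den q).symm
  rw [h1]
  exact (KK L hL).div_mem (SetLike.coe_mem _) (SetLike.coe_mem _)

/-- `kl` for a family of units that need not be independent -/
theorem kl3 {s : ℕ} (b : Fin s → ℕ) (hb : ∀ v, (b v).Prime)
    (hbi : Function.Injective b) (L : ℕ → ℝ) (hL : Tendsto L atTop atTop) {ι : Type}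
    (A : Finset ι) (U : ι → GG) (hU : ∀ i ∈ A, HSU b L (U i)) (c : ι → KK L hL)
    (x : ι → ℕ → ℚ) (hx : ∀ i ∈ A, gm (x i) = (c i : GG) * U i) (a : ℕ → ℤ) (η : ℝ) (hη : 0 < η)
    (hsm : ∀ᶠ n in (UU : Filter ℕ), |(a n : ℝ) + ∑ i ∈ A, (x i n : ℝ)| ≤ Real.exp (-(η * L n))) :
    ∃ ν : ι → ℚ, gm (fun n => (a n : ℚ)) = ∑ i ∈ A, gm (fun _ => ν i) * gm (x i) := by
  classical
  have hg : ∀ i ∈ A, U i ≠ 0 := fun i hi => (hU i hi).ne_zero hb
  let s : Setoid ↥A := ⟨fun i j => U i / U j ∈ KK L hL,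
    ⟨fun i => by rw [div_self (hg i i.2)]; exact (KK L hL).one_mem,
     fun {i j} h => by rw [← inv_div]; exact (KK L hL).inv_mem h,
     fun {i j k} h1 h2 => by
      rw [← div_mul_div_cancel₀ (hg j j.2)]; exact (KK L hL).mul_mem h1 h2⟩⟩
  have hs : ∀ i j : ↥A, (Quotient.mk s i = Quotient.mk s j) ↔ U i / U j ∈ KK L hL := fun i j => Quotient.eq
  have hfin : Finite (Quotient s) := inferInstance
  have hft : Fintype (Quotient s) := Fintype.ofFinite _
  have hrp : ∀ i : ↥A, U i / U (Quotient.mk s i).out ∈ KK L hL := by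
    intro i
    rw [← hs, Quotient.out_eq]
  set cq : Quotient s → KK L hL := fun q => ∑ i : ↥A with Quotient.mk s i = q,
    c i * ⟨U i / U (Quotient.mk s i).out, hrp i⟩ with hc
  have hcq : ∀ q : Quotient s, (cq q : GG) * U q.out =
      ∑ i : ↥A with Quotient.mk s i = q, gm (x i) := by
    intro q
    rw [hc]
    simp only
    rw [AddSubmonoidClass.coe_finsetSum, Finset.sum_mul]
    refine Finset.sum_congr rfl fun i hi => ?_
    rw [Finset.mem_filter] at hi
    obtain ⟨-, rfl⟩ := hi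
    rw [MulMemClass.coe_mul, mul_assoc, hx i i.2]
    congr 1
    exact div_mul_cancel₀ _ (hg _ (Quotient.mk s i).out.2)
  set xq : Quotient s → ℕ → ℚ := fun q n => ∑ i : ↥A with Quotient.mk s i = q, x i n with hxq
  have hxqg : ∀ q, gm (xq q) = (cq q : GG) * U q.out := by
    intro q
    rw [hcq, hxq]
    exact gm_sum _ _
  -- the classes with nonzero sum
  set Q' : Finset (Quotient s) := Finset.univ.filter fun q => cq q ≠ 0 with hQ'
  have hsum : ∀ n, ∑ i ∈ A, x i n = ∑ q, xq q n := by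
    intro n
    rw [hxq]
    simp only
    rw [Finset.sum_fiberwise]
    exact (Finset.sum_coe_sort A (fun i => x i n)).symm
  have hzero : ∀ᶠ n in (UU : Filter ℕ), ∀ q ∈ (Finset.univ : Finset (Quotient s)), q ∉ Q' →
      xq q n = 0 := by
    rw [Finset.eventually_all]
    intro q _
    by_cases hq : q ∈ Q'
    · exact Eventually.of_forall fun n h => absurd hq h
    · have h1 : cq q = 0 := by
        by_contra h
        exact hq (Finset.mem_filter.2 ⟨Finset.mem_univ _, h⟩)
      have h2 := hxqg q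
      rw [h1, ZeroMemClass.coe_zero, zero_mul, ← gm_zero, gm_eq] at h2
      filter_upwards [h2] with n hn _ using hn
  have hsum' : ∀ᶠ n in (UU : Filter ℕ), ∑ i ∈ A, x i n = ∑ q ∈ Q', xq q n := by
    filter_upwards [hzero] with n hn
    rw [hsum]
    symm
    exact Finset.sum_subset (Finset.subset_univ _) hn
  -- apply `kl`
  have hmain : ∃ μ : Quotient s → ℚ, gm (fun n => (a n : ℚ)) =
      ∑ q ∈ Q', gm (fun _ => μ q) * gm (xq q) := by
    rcases Finset.eq_empty_or_nonempty Q' with he | hne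
    · refine ⟨fun _ => 0, ?_⟩
      rw [he, Finset.sum_empty, ← gm_zero, gm_eq]
      have h1 : ∀ᶠ n in (UU : Filter ℕ), Real.exp (-(η * L n)) < 1 := by
        apply ev_of_atTop
        filter_upwards [hL.eventually_gt_atTop 0] with n hn
        rw [Real.exp_lt_one_iff]
        have : 0 < η * L n := by positivity
        linarith
      filter_upwards [hsm, hsum', h1] with n h2 h3 h4
      rw [he, Finset.sum_empty] at h3
      have h5 : ∑ i ∈ A, (x i n : ℝ) = 0 := by exact_mod_cast h3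
      rw [h5, add_zero] at h2
      have h6 : |(a n : ℝ)| < 1 := lt_of_le_of_lt h2 h4
      have h7 : |a n| < 1 := by exact_mod_cast h6
      rw [Int.abs_lt_one_iff] at h7
      rw [h7]
      simp
    · let e := Q'.equivFin
      have hM : 1 ≤ Q'.card := hne.card_pos
      obtain ⟨μ, hμ⟩ := kl hM b hb hbi L hL (fun k => U (e.symm k).1.out)
        (fun k => hU _ (e.symm k).1.out.2) (by
          intro i j hij h
          apply hij
          have h1 := (hs _ _).2 h
          rw [Quotient.out_eq, Quotient.out_eq] at h1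
          exact e.symm.injective (Subtype.ext h1)) (fun k => cq (e.symm k).1) (by
          intro k
          exact (Finset.mem_filter.1 (e.symm k).2).2) (fun k => xq (e.symm k).1)
        (fun k => hxqg _) a η hη (by
          filter_upwards [hsm, hsum'] with n h1 h2
          have h3 : ∑ k, (xq (e.symm k).1 n : ℝ) = ∑ i ∈ A, (x i n : ℝ) := by
            rw [Equiv.sum_comp e.symm (fun q => (xq q.1 n : ℝ)),
              Finset.sum_coe_sort Q' (fun q => (xq q n : ℝ))]
            exact_mod_cast h2.symm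
          rw [h3]
          exact h1)
      refine ⟨fun q => if h : q ∈ Q' then μ (e ⟨q, h⟩) else 0, ?_⟩
      rw [hμ]
      rw [← Finset.sum_coe_sort Q', ← Equiv.sum_comp e.symm]
      refine Finset.sum_congr rfl fun k _ => ?_
      have h4 : (e.symm k).1 ∈ Q' := (e.symm k).2
      simp only [h4, dite_true]
      simp
  obtain ⟨μ, hμ⟩ := hmain
  refine ⟨fun i => if h : i ∈ A then (if Quotient.mk s ⟨i, h⟩ ∈ Q' then
    μ (Quotient.mk s ⟨i, h⟩) else 0) else 0, ?_⟩
  rw [hμ, ← Finset.sum_coe_sort A, ← Finset.sum_fiberwise (s := Finset.univ) (g := Quotient.mk s)]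
  symm
  rw [← Finset.sum_subset (Finset.subset_univ Q')]
  · refine Finset.sum_congr rfl fun q hq => ?_
    have h1 : gm (xq q) = ∑ i : ↥A with Quotient.mk s i = q, gm (x i) := gm_sum _ _
    rw [h1, Finset.mul_sum]
    refine Finset.sum_congr rfl fun i hi => ?_
    rw [Finset.mem_filter] at hi
    obtain ⟨-, rfl⟩ := hi
    simp only [i.2, dite_true, hq, if_true]
  · intro q _ hq
    refine Finset.sum_eq_zero fun i hi => ?_
    rw [Finset.mem_filter] at hi
    obtain ⟨-, rfl⟩ := hi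
    simp only [i.2, dite_true, hq, if_false]
    rw [gm_zero, zero_mul]

/-- the class sum of a vanishing combination vanishes -/
lemma class_zero {s : ℕ} (b : Fin s → ℕ) (hb : ∀ v, (b v).Prime)
    (hbi : Function.Injective b) (L : ℕ → ℝ) (hL : Tendsto L atTop atTop) {ι : Type}
    (A : Finset ι) (U : ι → GG) (hU : ∀ i ∈ A, HSU b L (U i)) (c : ι → KK L hL)
    (i0 : ι) (h0 : i0 ∈ A) (hsum : ∑ i ∈ A, (c i : GG) * U i = 0) (P : ι → Prop)
    [DecidablePred P] (hP : ∀ i ∈ A, P i ↔ U i / U i0 ∈ KK L hL) :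
    ∑ i ∈ A with P i, (c i : GG) * U i = 0 := by
  have h := CS.cs SUI.sui s b hb hbi L hL ι A c U (fun i => if P i then 1 else 0)
    (fun i hi => (hU i hi).gsu) ?_ hsum
  · have h1 := congrArg (fun p => Polynomial.coeff p 1) h
    simp only [Polynomial.finsetSum_coeff, Polynomial.coeff_C_mul, Polynomial.coeff_X_pow,
      Polynomial.coeff_zero] at h1
    rw [Finset.sum_filter]
    refine Eq.trans (Finset.sum_congr rfl fun i _ => ?_) h1
    by_cases hi : P i
    · simp [hi]
    · simp [hi]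
  · intro i hi j hj hij
    have hj0 : U j ≠ 0 := (hU j hj).ne_zero hb
    have hi0 : U i ≠ 0 := (hU i hi).ne_zero hb
    have h1 : P i ↔ P j := by
      rw [hP i hi, hP j hj]
      constructor
      · intro h2
        have h3 := (KK L hL).mul_mem ((KK L hL).inv_mem hij) h2
        rwa [inv_div, div_mul_div_cancel₀ hi0] at h3
      · intro h2
        have h3 := (KK L hL).mul_mem hij h2
        rwa [div_mul_div_cancel₀ hj0] at h3
    simp only [h1]

/-- a nonzero element of the negligible field is at least `exp (-ε L)` in absolute value -/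
lemma KK_lower {L : ℕ → ℝ} (hL : Tendsto L atTop atTop) (κ : ℕ → ℚ) (h : gm κ ∈ KK L hL)
    (h0 : gm κ ≠ 0) {ε : ℝ} (hε : 0 < ε) :
    ∀ᶠ n in (UU : Filter ℕ), Real.exp (-(ε * L n)) ≤ |(κ n : ℝ)| := by
  have h1 := (mem_KK_iff hL κ).1 h
  rw [gm_ne_zero] at h0
  filter_upwards [h1.2 ε hε, h0] with n h2 h3
  have h4 : (1 : ℝ) ≤ |((κ n).num : ℝ)| := by
    exact_mod_cast Int.one_le_abs (Rat.num_ne_zero.2 h3)
  have h5 : (0 : ℝ) < ((κ n).den : ℝ) := by exact_mod_cast (κ n).den_pos
  have h6 : |(κ n : ℝ)| = |((κ n).num : ℝ)| / ((κ n).den : ℝ) := by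
    have h7 : ((κ n : ℚ) : ℝ) = ((κ n).num : ℝ) / ((κ n).den : ℝ) := by
      exact_mod_cast congrArg (fun q : ℚ => (q : ℝ)) (Rat.num_div_den (κ n)).symm
    rw [h7, abs_div, abs_of_pos h5]
  rw [h6, le_div_iff₀ h5, Real.exp_neg]
  have h8 : ((κ n).den : ℝ) ≤ Real.exp (ε * L n) := by
    refine le_trans (le_abs_self _) ?_
    simpa using h2
  calc (Real.exp (ε * L n))⁻¹ * ((κ n).den : ℝ) ≤ (Real.exp (ε * L n))⁻¹ * Real.exp (ε * L n) :=
        mul_le_mul_of_nonneg_left h8 (inv_nonneg.2 (Real.exp_pos _).le)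
    _ = 1 := inv_mul_cancel₀ (Real.exp_pos _).ne'
    _ ≤ _ := h4

/-- if a combination of `S`-unit germs is much smaller than one of the units, then the sum over
the class of this unit vanishes -/
theorem gr2 {s : ℕ} (b : Fin s → ℕ) (hb : ∀ v, (b v).Prime)
    (hbi : Function.Injective b) (L : ℕ → ℝ) (hL : Tendsto L atTop atTop) {ι : Type}
    (A : Finset ι) (U : ι → GG) (hU : ∀ i ∈ A, HSU b L (U i)) (c : ι → KK L hL)
    (x : ι → ℕ → ℚ) (hx : ∀ i ∈ A, gm (x i) = (c i : GG) * U i) (i0 : ι) (h0 : i0 ∈ A)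
    (w : ℕ → ℚ) (hw : gm w = U i0) (η : ℝ) (hη : 0 < η)
    (hsm : ∀ᶠ n in (UU : Filter ℕ), |∑ i ∈ A, (x i n : ℝ)| ≤
      Real.exp (-(η * L n)) * |(w n : ℝ)|) (P : ι → Prop)
    [DecidablePred P] (hP : ∀ i ∈ A, P i ↔ U i / U i0 ∈ KK L hL) :
    ∑ i ∈ A with P i, gm (x i) = 0 := by
  classical
  by_contra hcon
  have hg : ∀ i ∈ A, U i ≠ 0 := fun i hi => (hU i hi).ne_zero hb
  have hU0 : U i0 ≠ 0 := hg _ h0
  -- the class sum
  set x0 : ℕ → ℚ := fun n => ∑ i ∈ A with P i, x i n with hx0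
  have hx0g : gm x0 = ∑ i ∈ A with P i, gm (x i) := gm_sum _ _
  have hx0ne : gm x0 ≠ 0 := by rwa [hx0g]
  have hκ : gm x0 / U i0 ∈ KK L hL := by
    rw [hx0g, Finset.sum_div]
    refine (KK L hL).sum_mem fun i hi => ?_
    rw [Finset.mem_filter] at hi
    rw [hx i hi.1, mul_div_assoc]
    exact (KK L hL).mul_mem (c i).2 ((hP i hi.1).1 hi.2)
  set κ : KK L hL := ⟨gm x0 / U i0, hκ⟩ with hκd
  have hκU : (κ : GG) * U i0 = gm x0 := div_mul_cancel₀ _ hU0
  have hκ0 : κ ≠ 0 := by
    intro h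
    rw [h, ZeroMemClass.coe_zero, zero_mul] at hκU
    exact hx0ne hκU.symm
  -- divide by `x0`
  set A' := A.filter fun i => ¬ P i with hA'
  have h1 : ∀ i ∈ A', HSU b L (U i / U i0) := by
    intro i hi
    obtain ⟨a1, c1, g1, s1, e1⟩ := hU i (Finset.mem_filter.1 hi).1
    obtain ⟨a2, c2, g2, s2, e2⟩ := hU i0 h0
    have hb0 : ∀ v, (b v : ℚ) ≠ 0 := fun v => by exact_mod_cast (hb v).ne_zero
    refine ⟨fun n => a1 n * (a2 n)⁻¹, c1 + c2, ?_, ?_, ?_⟩
    · rw [g1, g2, div_eq_mul_inv, gm_inv, gm_mul]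
    · intro n
      obtain ⟨σ, E, hσ, hE⟩ := s1 n
      obtain ⟨σ', E', hσ', hE'⟩ := s2 n
      refine ⟨σ * σ', fun v => E v - E' v, ?_, ?_⟩
      · rcases hσ with h | h <;> rcases hσ' with h' | h' <;> simp [h, h']
      · show a1 n * (a2 n)⁻¹ = _
        rw [hE, hE', mul_inv]
        simp only [zpow_sub₀ (hb0 _)]
        rw [Finset.prod_div_distrib]
        push_cast
        rcases hσ' with h' | h' <;> simp [h'] <;> ring
    · filter_upwards [e1, e2] with n h1 h2
      rw [add_mul]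
      exact h1.mul hb0 h2.inv
  obtain ⟨ν, hν⟩ := kl3 b hb hbi L hL A' (fun i => U i / U i0) h1 (fun i => c i / κ)
    (fun i n => x i n / x0 n) (by
      intro i hi
      rw [← gm_div, hx i (Finset.mem_filter.1 hi).1, ← hκU, Subfield.coe_div]
      have : (κ : GG) ≠ 0 := fun h => hκ0 (Subtype.ext h)
      field_simp) (fun _ => 1) (η / 2) (by positivity) (by
      obtain ⟨κs, hκs⟩ := gm_surj (κ : GG)
      have hκs0 : gm κs ≠ 0 := by
        rw [hκs]
        exact fun h => hκ0 (Subtype.ext h)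
      have h2 := KK_lower hL κs (by rw [hκs]; exact κ.2) hκs0 (show 0 < η / 2 by positivity)
      have h3 : ∀ᶠ n in (UU : Filter ℕ), κs n * w n = x0 n := by
        rw [← gm_eq, ← gm_mul, hκs, hw, hκU]
      have h4 := gm_ne_zero.1 hx0ne
      filter_upwards [hsm, h2, h3, h4] with n h5 h6 h7 h8
      have h9 : (x0 n : ℝ) ≠ 0 := by exact_mod_cast h8
      have h10 : ∑ i ∈ A, (x i n : ℝ) = (x0 n : ℝ) + ∑ i ∈ A', (x i n : ℝ) := by
        rw [hx0, ← Finset.sum_filter_add_sum_filter_not A P]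
        push_cast
        rfl
      have h11 : ((1 : ℤ) : ℝ) + ∑ i ∈ A', ((x i n / x0 n : ℚ) : ℝ) =
          (∑ i ∈ A, (x i n : ℝ)) / (x0 n : ℝ) := by
        rw [h10, add_div, div_self h9, Finset.sum_div]
        push_cast
        rfl
      rw [h11, abs_div, div_le_iff₀ (abs_pos.2 h9)]
      refine h5.trans ?_
      have h12 : |(x0 n : ℝ)| = |(κs n : ℝ)| * |(w n : ℝ)| := by
        rw [← abs_mul, ← h7]
        push_cast
        rfl
      rw [h12, ← mul_assoc]
      refine mul_le_mul_of_nonneg_right ?_ (abs_nonneg _)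
      calc Real.exp (-(η * L n)) = Real.exp (-(η / 2 * L n)) * Real.exp (-(η / 2 * L n)) := by
            rw [← Real.exp_add]
            ring_nf
        _ ≤ _ := mul_le_mul_of_nonneg_left h6 (Real.exp_pos _).le)
  -- the resulting relation
  have h2 : gm x0 = ∑ i ∈ A', gm (fun _ => ν i) * gm (x i) := by
    have h3 : gm (fun _ => ((1 : ℤ) : ℚ)) = 1 := by
      rw [← gm_one, Int.cast_one]
    rw [h3] at hν
    have h4 : gm x0 * 1 = gm x0 * ∑ i ∈ A', gm (fun _ => ν i) * gm (fun n => x i n / x0 n) := by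
      rw [← hν]
    rw [mul_one, Finset.mul_sum] at h4
    rw [h4]
    refine Finset.sum_congr rfl fun i _ => ?_
    rw [← gm_div]
    field_simp
  have hcc : ∀ i, ∃ d : KK L hL, i ∈ A → (d : GG) * U i = if i = i0 then gm x0 else
      (if P i then 0 else - (gm (fun _ => ν i) * gm (x i))) := by
    intro i
    by_cases hi : i ∈ A
    · by_cases h5 : i = i0
      · refine ⟨κ, fun _ => ?_⟩
        rw [if_pos h5, h5, hκU]
      · by_cases h6 : P i
        · exact ⟨0, fun _ => by simp [h5, h6]⟩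
        · refine ⟨-((⟨gm (fun _ => ν i), gm_const_mem hL _⟩ : KK L hL) * c i), fun _ => ?_⟩
          rw [if_neg h5, if_neg h6, hx i hi, NegMemClass.coe_neg, MulMemClass.coe_mul]
          ring
    · exact ⟨0, fun h => absurd h hi⟩
  choose d hd using hcc
  have hPi0 : P i0 := (hP i0 h0).2 (by rw [div_self hU0]; exact (KK L hL).one_mem)
  have h3 := class_zero b hb hbi L hL A U hU d i0 h0 (by
    rw [Finset.sum_congr rfl fun i hi => hd i hi, ← Finset.sum_filter_add_sum_filter_not A P]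
    rw [Finset.sum_eq_single_of_mem i0 (Finset.mem_filter.2 ⟨h0, hPi0⟩)]
    · rw [if_pos rfl, h2, ← Finset.sum_add_distrib]
      refine Finset.sum_eq_zero fun i hi => ?_
      have h4 := (Finset.mem_filter.1 hi).2
      rw [if_neg (fun h : i = i0 => h4 (by rw [h]; exact hPi0)), if_neg h4]
      ring
    · intro i hi hne
      rw [if_neg hne, if_pos (Finset.mem_filter.1 hi).2]) P hP
  rw [Finset.sum_congr rfl fun i hi => hd i (Finset.mem_filter.1 hi).1,
    Finset.sum_eq_single_of_mem i0 (Finset.mem_filter.2 ⟨h0, hPi0⟩), if_pos rfl] at h3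
  · exact hx0ne h3
  · intro i hi hne
    rw [if_neg hne, if_pos (Finset.mem_filter.1 hi).2]

end Pool.Agent.TH507.ZS
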