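import Mathlib
import Pool.Agent.TH507.ZS.KL3

/-!
# Dirichlet series at integers: truncation, and numerical lemmas
-/

set_option autoImplicit false

namespace Pool.Agent.TH507.ZS

open Filter Topology

/-- the value at `n` of the Dirichlet series with coefficients `g` -/
noncomputable def dser (g : ℕ → ℚ) (n : ℕ) : ℝ :=
  ∑' k : ℕ, (g (k + 1) : ℝ) / ((k + 1 : ℕ) : ℝ) ^ n

/-- `x` is a positive integer whose prime factors lie in `S` -/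
def SFac (S : Finset ℕ) (x : ℕ) : Prop := x ≠ 0 ∧ ∀ p, p.Prime → p ∣ x → p ∈ S

/-- the sum of the `1 / k ^ 2` -/
noncomputable def Z2 : ℝ := ∑' k : ℕ, 1 / ((k + 1 : ℕ) : ℝ) ^ 2

lemma Z2_sum : Summable fun k : ℕ => 1 / ((k + 1 : ℕ) : ℝ) ^ 2 :=
  (summable_nat_add_iff 1).2 (Real.summable_one_div_nat_pow.2 (by norm_num))

lemma Z2_nonneg : 0 ≤ Z2 := tsum_nonneg fun k => by positivity

lemma term_bound {g : ℕ → ℚ} {A : ℕ} (hg : ∀ k, 1 ≤ k → |(g k : ℝ)| ≤ A * (k : ℝ) ^ A) {K n : ℕ}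
    (hK : 1 ≤ K) (hn : A + 2 ≤ n) (i : ℕ) :
    |(g (i + K) : ℝ) / ((i + K : ℕ) : ℝ) ^ n| ≤
      A * ((K : ℝ) ^ (A + 2) / (K : ℝ) ^ n) * (1 / ((i + 1 : ℕ) : ℝ) ^ 2) := by
  obtain ⟨r, rfl⟩ := Nat.exists_eq_add_of_le hn
  have hk : (1 : ℝ) ≤ ((i + K : ℕ) : ℝ) := by
    exact_mod_cast (by omega : 1 ≤ i + K)
  have hK' : (1 : ℝ) ≤ (K : ℝ) := by exact_mod_cast hK
  have hKk : (K : ℝ) ≤ ((i + K : ℕ) : ℝ) := by
    exact_mod_cast (by omega : K ≤ i + K)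
  have hik : ((i + 1 : ℕ) : ℝ) ≤ ((i + K : ℕ) : ℝ) := by
    exact_mod_cast (by omega : i + 1 ≤ i + K)
  have hi1 : (0 : ℝ) < ((i + 1 : ℕ) : ℝ) := by positivity
  have h1 := hg (i + K) (by omega)
  have hkp : (0 : ℝ) < ((i + K : ℕ) : ℝ) := by linarith
  have hKp : (0 : ℝ) < (K : ℝ) := by linarith
  rw [abs_div, abs_of_pos (pow_pos hkp _)]
  calc |(g (i + K) : ℝ)| / ((i + K : ℕ) : ℝ) ^ (A + 2 + r) ≤
        A * ((i + K : ℕ) : ℝ) ^ A / ((i + K : ℕ) : ℝ) ^ (A + 2 + r) := by gcongr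
    _ = A * (1 / ((i + K : ℕ) : ℝ) ^ r) * (1 / ((i + K : ℕ) : ℝ) ^ 2) := by
      rw [pow_add, pow_add]
      field_simp
    _ ≤ A * (1 / (K : ℝ) ^ r) * (1 / ((i + 1 : ℕ) : ℝ) ^ 2) := by
      gcongr
    _ = _ := by
      rw [pow_add (K : ℝ) (A + 2) r]
      field_simp

lemma dser_summable {g : ℕ → ℚ} {A : ℕ} (hg : ∀ k, 1 ≤ k → |(g k : ℝ)| ≤ A * (k : ℝ) ^ A) {n : ℕ}
    (hn : A + 2 ≤ n) : Summable fun k : ℕ => (g (k + 1) : ℝ) / ((k + 1 : ℕ) : ℝ) ^ n := by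
  refine Summable.of_norm_bounded (Z2_sum.mul_left ((A : ℝ) * ((1 : ℕ) : ℝ) ^ (A + 2) / ((1 : ℕ) : ℝ) ^ n)) ?_
  intro k
  have := term_bound hg (le_refl 1) hn k
  rw [Real.norm_eq_abs]
  refine this.trans (le_of_eq ?_)
  ring

/-- truncation of the series -/
lemma tail {g : ℕ → ℚ} {A : ℕ} (hg : ∀ k, 1 ≤ k → |(g k : ℝ)| ≤ A * (k : ℝ) ^ A) {K n : ℕ}
    (hK : 1 ≤ K) (hn : A + 2 ≤ n) :
    |dser g n - ∑ k ∈ Finset.Ico 1 K, (g k : ℝ) / (k : ℝ) ^ n| ≤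
      A * ((K : ℝ) ^ (A + 2) / (K : ℝ) ^ n) * Z2 := by
  have h1 := (dser_summable hg hn).sum_add_tsum_nat_add (K - 1)
  have h2 : ∑ k ∈ Finset.Ico 1 K, (g k : ℝ) / (k : ℝ) ^ n =
      ∑ i ∈ Finset.range (K - 1), (g (i + 1) : ℝ) / ((i + 1 : ℕ) : ℝ) ^ n := by
    rw [Finset.sum_Ico_eq_sum_range]
    refine Finset.sum_congr rfl fun i _ => ?_
    rw [add_comm 1 i]
  rw [h2, dser, ← h1, add_sub_cancel_left]
  have h3 : ∀ i : ℕ, ‖(g (i + (K - 1) + 1) : ℝ) / ((i + (K - 1) + 1 : ℕ) : ℝ) ^ n‖ ≤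
      A * ((K : ℝ) ^ (A + 2) / (K : ℝ) ^ n) * (1 / ((i + 1 : ℕ) : ℝ) ^ 2) := by
    intro i
    have h4 : i + (K - 1) + 1 = i + K := by omega
    rw [h4, Real.norm_eq_abs]
    exact term_bound hg hK hn i
  exact tsum_of_norm_bounded (Z2_sum.hasSum.mul_left _) h3

/-- finitely many conditions suffice -/
lemma fin_ind {J : Type} [Fintype J] (g : J → ℕ → ℚ) (N X : ℕ)
    (hind : ∀ c : J → ℚ, (∀ k, X ≤ k → k.Coprime N → ∑ j, c j * g j k = 0) → c = 0) :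
    ∃ Y : ℕ, ∀ c : J → ℚ, (∀ k, X ≤ k → k ≤ Y → k.Coprime N → ∑ j, c j * g j k = 0) → c = 0 := by
  classical
  let V : ℕ → Submodule ℚ (J → ℚ) := fun Y =>
    { carrier := {c | ∀ k, X ≤ k → k ≤ Y → k.Coprime N → ∑ j, c j * g j k = 0}
      zero_mem' := fun k _ _ _ => by simp
      add_mem' := fun {c d} hc hd k h1 h2 h3 => by
        simp only [Pi.add_apply, add_mul, Finset.sum_add_distrib, hc k h1 h2 h3, hd k h1 h2 h3,
          add_zero]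
      smul_mem' := fun r c hc k h1 h2 h3 => by
        simp only [Pi.smul_apply, smul_eq_mul, mul_assoc, ← Finset.mul_sum, hc k h1 h2 h3,
          mul_zero] }
  have hV : ∀ Y c, c ∈ V Y ↔ ∀ k, X ≤ k → k ≤ Y → k.Coprime N → ∑ j, c j * g j k = 0 :=
    fun Y c => Iff.rfl
  let f : ℕ →o (Submodule ℚ (J → ℚ))ᵒᵈ := ⟨fun Y => OrderDual.toDual (V Y), fun Y Y' h => by
    rw [OrderDual.toDual_le_toDual]
    intro c hc k h1 h2 h3
    exact hc k h1 (h2.trans h) h3⟩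
  obtain ⟨Y, hY⟩ := IsArtinian.monotone_stabilizes f
  refine ⟨Y, fun c hc => hind c fun k h1 h2 => ?_⟩
  rcases le_total k Y with h | h
  · exact hc k h1 h h2
  · have h3 : V Y = V k := OrderDual.toDual.injective (hY k h)
    have h4 : c ∈ V k := by rw [← h3]; exact hc
    exact h4 k h1 le_rfl h2

lemma exp_two_le_sixteen : Real.exp 2 ≤ 16 := by
  have h1 := Real.exp_one_lt_d9
  have h2 : Real.exp 2 = Real.exp 1 * Real.exp 1 := by rw [← Real.exp_add]; norm_num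
  rw [h2]
  have := Real.exp_pos 1
  nlinarith

lemma exp_half_lt_two : Real.exp (1 / 2) < 2 := by
  have h1 := Real.exp_one_lt_d9
  have h2 : Real.exp 1 = Real.exp (1 / 2) * Real.exp (1 / 2) := by rw [← Real.exp_add]; norm_num
  have := Real.exp_pos (1 / 2)
  nlinarith

lemma inv_sixteen_le (n : ℕ) : ((16 : ℝ) ^ n)⁻¹ ≤ Real.exp (-(2 * n)) := by
  rw [Real.exp_neg]
  refine inv_anti₀ (Real.exp_pos _) ?_
  have h1 : Real.exp (2 * n) = (Real.exp 2) ^ n := by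
    rw [← Real.exp_nat_mul]
    ring_nf
  rw [h1]
  exact pow_le_pow_left₀ (Real.exp_pos _).le exp_two_le_sixteen n

end Pool.Agent.TH507.ZS
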