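import Mathlib
import Pool.Agent.TH507.ZS.Ser

/-!
# Combinations of Dirichlet series with S-unit coefficients at large integers
-/

set_option autoImplicit false

namespace Pool.Agent.TH507.ZS

open Filter Topology Pool.Agent.TH932.Germs Pool.Agent.TH551.SU Pool.Agent.TH461.SST
open Pool.Agent.TH551.SU.SUI (const_of_ev)

/-- the unit germs `u_j / k ^ n` have height `O(n)` -/
lemma hsu_unit {s : ℕ} (b : Fin s → ℕ) (hb : ∀ v, (b v).Prime)
    (hbi : Function.Injective b) (n : ℕ → ℕ) (C : ℝ) (u : ℕ → ℕ)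
    (hu : ∀ t, u t ≠ 0 ∧ (∀ p, p.Prime → p ∣ u t → ∃ v, b v = p) ∧ (u t : ℝ) ≤ C ^ (n t))
    (k : ℕ) (hk0 : k ≠ 0) (hk : ∀ p, p.Prime → p ∣ k → ∃ v, b v = p) :
    HSU b (fun t => (n t : ℝ)) (gm fun t => (u t : ℚ) / (k : ℚ) ^ (n t)) := by
  have hb0 : ∀ v, (b v : ℚ) ≠ 0 := fun v => by exact_mod_cast (hb v).ne_zero
  have hl2 : 0 < Real.log 2 := Real.log_pos (by norm_num)
  have key : ∀ t, HB b ((Real.log C / Real.log 2 + Real.log k / Real.log 2) * (n t : ℝ))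
      ((u t : ℚ) / (k : ℚ) ^ (n t)) := by
    intro t
    have h1 := HB.nat b hbi (u t) (hu t).1 (hu t).2.1
    have h2 := ((HB.nat b hbi k hk0 hk).pow hb0 (n t)).inv
    rw [div_eq_mul_inv]
    refine (h1.mul hb0 h2).mono ?_
    have h3 : Real.log (u t) ≤ n t * Real.log C := by
      rw [← Real.log_pow]
      refine Real.log_le_log ?_ (hu t).2.2
      exact_mod_cast Nat.pos_of_ne_zero (hu t).1
    have h4 : Real.log (u t) / Real.log 2 ≤ n t * Real.log C / Real.log 2 :=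
      div_le_div_of_nonneg_right h3 hl2.le
    calc Real.log (u t) / Real.log 2 + n t * (Real.log k / Real.log 2) ≤
        n t * Real.log C / Real.log 2 + n t * (Real.log k / Real.log 2) := by linarith
      _ = _ := by ring
  exact ⟨_, _, rfl, fun t => (key t).isSU, Eventually.of_forall key⟩

/-- an integer at least `2 ^ n` is not negligible -/
lemma not_negl {n : ℕ → ℕ} (hn : ∀ t, t ≤ n t) {f : ℕ → ℤ}
    (h : Negl (fun t => (n t : ℝ)) f) (hf : ∀ᶠ t in (UU : Filter ℕ), (2 : ℝ) ^ (n t) ≤ |(f t : ℝ)|) :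
    False := by
  have h1 : ∀ᶠ t in (UU : Filter ℕ), 1 ≤ t := ev_of_atTop (eventually_ge_atTop 1)
  obtain ⟨t, h2, h3, h4⟩ := ((h (1 / 2) (by norm_num)).and (hf.and h1)).exists
  have h5 : n t ≠ 0 := by have := hn t; omega
  have h6 : Real.exp (1 / 2 * (n t : ℝ)) < (2 : ℝ) ^ (n t) := by
    have h7 : Real.exp (1 / 2 * (n t : ℝ)) = (Real.exp (1 / 2)) ^ (n t) := by
      rw [← Real.exp_nat_mul]
      ring_nf
    rw [h7]
    exact pow_lt_pow_left₀ exp_half_lt_two (Real.exp_pos _).le h5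
  linarith

/-- the units equivalent to the unit with maximal `u` -/
lemma class_eq {n : ℕ → ℕ} (hn : ∀ t, t ≤ n t) (hL : Tendsto (fun t => (n t : ℝ)) atTop atTop)
    (S : Finset ℕ) (u u' : ℕ → ℕ) (hu : ∀ t, SFac S (u t)) (hu' : ∀ t, SFac S (u' t))
    (hle : ∀ᶠ t in (UU : Filter ℕ), u t ≤ u' t) (k P : ℕ) (hk : 1 ≤ k) (hP : 1 ≤ P)
    (hPS : ∀ p, p.Prime → p ∣ P → p ∉ S)
    (h : gm (fun t => (u t : ℚ) / (k : ℚ) ^ (n t)) / gm (fun t => (u' t : ℚ) / (P : ℚ) ^ (n t)) ∈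
      KK (fun t => (n t : ℝ)) hL) : k = P := by
  rw [gm_div] at h
  obtain ⟨h1, h2⟩ := (mem_KK_iff hL _).1 h
  set r : ℕ → ℚ := fun t => (u t : ℚ) / (k : ℚ) ^ (n t) / ((u' t : ℚ) / (P : ℚ) ^ (n t)) with hr
  have hk0 : (k : ℚ) ≠ 0 := by exact_mod_cast (by omega : k ≠ 0)
  have hP0 : (P : ℚ) ≠ 0 := by exact_mod_cast (by omega : P ≠ 0)
  have hu0 : ∀ t, (u t : ℚ) ≠ 0 := fun t => by exact_mod_cast (hu t).1
  have hu0' : ∀ t, (u' t : ℚ) ≠ 0 := fun t => by exact_mod_cast (hu' t).1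
  have hr0 : ∀ t, 0 < r t := by
    intro t
    have a1 : (0 : ℚ) < u t := by exact_mod_cast Nat.pos_of_ne_zero (hu t).1
    have a2 : (0 : ℚ) < u' t := by exact_mod_cast Nat.pos_of_ne_zero (hu' t).1
    have a3 : (0 : ℚ) < k := by exact_mod_cast hk
    have a4 : (0 : ℚ) < P := by exact_mod_cast hP
    rw [hr]
    positivity
  have hid : ∀ t, (r t).num.natAbs * (k ^ (n t) * u' t) = (r t).den * (u t * P ^ (n t)) := by
    intro t
    have a1 : (r t) * ((k : ℚ) ^ (n t) * u' t) = u t * (P : ℚ) ^ (n t) := by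
      have a2 := hu0' t
      rw [hr]
      field_simp
    have a2 : ((r t).den : ℚ) ≠ 0 := by exact_mod_cast (r t).den_ne_zero
    have a3 : (((r t).num.natAbs : ℕ) : ℚ) = ((r t).num : ℚ) := by
      rw [← Int.cast_natCast ((r t).num.natAbs),
        Int.natAbs_of_nonneg (Rat.num_nonneg.2 (hr0 t).le)]
    have a4 : ((r t).num : ℚ) = r t * (r t).den := (Rat.mul_den_eq_num (r t)).symm
    have a5 : (((r t).num.natAbs * (k ^ (n t) * u' t) : ℕ) : ℚ) =
        (((r t).den * (u t * P ^ (n t)) : ℕ) : ℚ) := by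
      rw [Nat.cast_mul, Nat.cast_mul ((r t).den), a3, a4]
      push_cast
      rw [← a1]
      ring
    exact_mod_cast a5
  have hdvd : P ∣ k := by
    by_contra hnd
    rw [← Nat.factorization_prime_le_iff_dvd (by omega) (by omega)] at hnd
    push Not at hnd
    obtain ⟨p, hp, hlt⟩ := hnd
    have hpP : p ∣ P := Nat.dvd_of_factorization_pos (by omega)
    have hpS := hPS p hp hpP
    refine not_negl hn h1 (Eventually.of_forall fun t => ?_)
    have b1 : (u t).factorization p = 0 :=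
      Nat.factorization_eq_zero_of_not_dvd fun hd => hpS ((hu t).2 p hp hd)
    have b2 : (u' t).factorization p = 0 :=
      Nat.factorization_eq_zero_of_not_dvd fun hd => hpS ((hu' t).2 p hp hd)
    have b3 := congrArg (fun x => Nat.factorization x p) (hid t)
    have c1 : (r t).num.natAbs ≠ 0 := by
      rw [Int.natAbs_ne_zero]
      exact Rat.num_ne_zero.2 (hr0 t).ne'
    rw [Nat.factorization_mul c1 (mul_ne_zero (pow_ne_zero _ (by omega)) (hu' t).1),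
      Nat.factorization_mul (pow_ne_zero _ (by omega)) (hu' t).1,
      Nat.factorization_mul (r t).den_ne_zero (mul_ne_zero (hu t).1 (pow_ne_zero _ (by omega))),
      Nat.factorization_mul (hu t).1 (pow_ne_zero _ (by omega)), Nat.factorization_pow,
      Nat.factorization_pow] at b3
    simp only [Finsupp.add_apply, Finsupp.smul_apply, smul_eq_mul, b1, b2, add_zero, zero_add] at b3
    have b4 : n t ≤ (r t).num.natAbs.factorization p := by nlinarith
    have b5 : 2 ^ (n t) ≤ (r t).num.natAbs := by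
      calc 2 ^ (n t) ≤ p ^ (n t) := Nat.pow_le_pow_left hp.two_le _
        _ ≤ p ^ ((r t).num.natAbs.factorization p) := Nat.pow_le_pow_right hp.pos b4
        _ ≤ _ := Nat.ordProj_le _ c1
    have b6 : (2 : ℝ) ^ (n t) ≤ |(((r t).num : ℤ) : ℝ)| := by
      rw [← Int.cast_abs, Int.abs_eq_natAbs]
      exact_mod_cast b5
    exact b6
  by_contra hne
  obtain ⟨q, rfl⟩ := hdvd
  have hq : 2 ≤ q := by
    rcases q with _ | _ | q
    · omega
    · omega
    · omega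
  refine not_negl hn h2 ?_
  filter_upwards [hle] with t ht
  have b1 := hid t
  rw [mul_pow] at b1
  have c1 : 1 ≤ (r t).num.natAbs := by
    rw [Nat.one_le_iff_ne_zero, Int.natAbs_ne_zero]
    exact Rat.num_ne_zero.2 (hr0 t).ne'
  have b2 : 2 ^ (n t) ≤ (r t).den := by
    have b3 : 0 < u' t * P ^ (n t) :=
      Nat.mul_pos (Nat.pos_of_ne_zero (hu' t).1) (pow_pos (by omega) _)
    refine Nat.le_of_mul_le_mul_right ?_ b3
    calc 2 ^ (n t) * (u' t * P ^ (n t)) ≤ q ^ (n t) * (u' t * P ^ (n t)) :=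
          Nat.mul_le_mul_right _ (Nat.pow_le_pow_left hq _)
      _ ≤ (r t).num.natAbs * (q ^ (n t) * (u' t * P ^ (n t))) := Nat.le_mul_of_pos_left _ c1
      _ = (r t).den * (u t * P ^ (n t)) := by rw [← b1]; ring
      _ ≤ (r t).den * (u' t * P ^ (n t)) := by gcongr
  have b4 : (2 : ℝ) ^ (n t) ≤ |(((r t).den : ℤ) : ℝ)| := by
    rw [Int.cast_natCast, Nat.abs_cast]
    exact_mod_cast b2
  exact b4

section core

variable {J : Type} [Fintype J] (g : J → ℕ → ℚ) (A : ℕ)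
  (hg : ∀ j k, 1 ≤ k → |(g j k : ℝ)| ≤ A * (k : ℝ) ^ A)
  (n : ℕ → ℕ) (hn : ∀ t, t ≤ n t) (a : ℕ → ℤ) (u : ℕ → J → ℕ) (m : ℕ → J → ℤ)
  (hm : ∀ t j, |(m t j : ℝ)| ≤ Real.exp (1 / ((t : ℝ) + 1) * n t))

/-- the terms of the truncated combination -/
def xx (i : J × ℕ) (t : ℕ) : ℚ := (u t i.1 : ℚ) * m t i.1 * (g i.1 i.2 / (i.2 : ℚ) ^ (n t))

/-- the combination -/
noncomputable def EE (t : ℕ) : ℝ := (a t : ℝ) + ∑ j, (u t j : ℝ) * m t j * dser (g j) (n t)

include hg hn hm in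
lemma trunc_small (Jp : Finset J) (hJ : ∀ᶠ t in (UU : Filter ℕ), ∀ j ∉ Jp, m t j = 0)
    (K : ℕ) (hK : 1 ≤ K) (w W : ℕ → ℝ) (hw : ∀ t, 0 ≤ w t)
    (hW : ∀ᶠ t in (UU : Filter ℕ), ∀ j ∈ Jp, (u t j : ℝ) ≤ W t)
    (hW0 : ∀ t, 0 ≤ W t)
    (hKw : ∀ᶠ t in (UU : Filter ℕ), W t / (K : ℝ) ^ (n t) ≤ w t * ((16 : ℝ) ^ (n t))⁻¹)
    (hE : ∀ᶠ t in (UU : Filter ℕ), |EE g n a u m t| ≤ w t * ((16 : ℝ) ^ (n t))⁻¹) :
    ∀ᶠ t in (UU : Filter ℕ), |(a t : ℝ) +
      ∑ i ∈ (Finset.univ : Finset J) ×ˢ Finset.Ico 1 K, (xx g n u m i t : ℝ)| ≤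
        Real.exp (-(1 * (n t : ℝ))) * w t := by
  set D : ℝ := Fintype.card J * (A * (K : ℝ) ^ (A + 2) * Z2) with hD
  have hD0 : 0 ≤ D := by
    have := Z2_nonneg
    positivity
  have hnt : Tendsto n atTop atTop := tendsto_atTop_mono hn tendsto_id
  have e1 : ∀ᶠ t in (UU : Filter ℕ), 2 * (1 + D) ≤ (n t : ℝ) :=
    ev_of_atTop ((tendsto_natCast_atTop_atTop.comp hnt).eventually_ge_atTop _)
  have e2 : ∀ᶠ t in (UU : Filter ℕ), A + 2 ≤ n t := ev_of_atTop (hnt.eventually_ge_atTop _)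
  have e3 : ∀ᶠ t in (UU : Filter ℕ), 1 ≤ t := ev_of_atTop (eventually_ge_atTop 1)
  filter_upwards [e1, e2, e3, hJ, hW, hKw, hE] with t h1 h2 h3 h4 h5 h6 h7
  have hsum : ∑ i ∈ (Finset.univ : Finset J) ×ˢ Finset.Ico 1 K, (xx g n u m i t : ℝ) =
      ∑ j, (u t j : ℝ) * m t j * ∑ k ∈ Finset.Ico 1 K, (g j k : ℝ) / (k : ℝ) ^ (n t) := by
    rw [Finset.sum_product]
    refine Finset.sum_congr rfl fun j _ => ?_
    rw [Finset.mul_sum]
    refine Finset.sum_congr rfl fun k _ => ?_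
    simp only [xx]
    push_cast
    ring
  have hdiff : (a t : ℝ) +
      ∑ i ∈ (Finset.univ : Finset J) ×ˢ Finset.Ico 1 K, (xx g n u m i t : ℝ) =
      EE g n a u m t - ∑ j, (u t j : ℝ) * m t j *
        (dser (g j) (n t) - ∑ k ∈ Finset.Ico 1 K, (g j k : ℝ) / (k : ℝ) ^ (n t)) := by
    rw [hsum, EE]
    simp only [mul_sub, Finset.sum_sub_distrib]
    ring
  rw [hdiff]
  have hKp : (0 : ℝ) < (K : ℝ) ^ (n t) := by
    have : (0 : ℝ) < K := by exact_mod_cast hK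
    positivity
  have hmt : ∀ j, |(m t j : ℝ)| ≤ Real.exp ((n t : ℝ) / 2) := by
    intro j
    refine (hm t j).trans (Real.exp_le_exp.2 ?_)
    have h8 : (1 : ℝ) ≤ t := by exact_mod_cast h3
    have h9 : 1 / ((t : ℝ) + 1) ≤ 1 / 2 := by
      apply one_div_le_one_div_of_le <;> linarith
    have h10 : (0 : ℝ) ≤ n t := Nat.cast_nonneg _
    calc 1 / ((t : ℝ) + 1) * (n t : ℝ) ≤ 1 / 2 * (n t : ℝ) := mul_le_mul_of_nonneg_right h9 h10
      _ = _ := by ring
  have hT0 : 0 ≤ A * ((K : ℝ) ^ (A + 2) / (K : ℝ) ^ (n t)) * Z2 := by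
    have := Z2_nonneg
    positivity
  have hterm : ∀ j, |(u t j : ℝ) * m t j *
        (dser (g j) (n t) - ∑ k ∈ Finset.Ico 1 K, (g j k : ℝ) / (k : ℝ) ^ (n t))| ≤
      W t * Real.exp ((n t : ℝ) / 2) * (A * ((K : ℝ) ^ (A + 2) / (K : ℝ) ^ (n t)) * Z2) := by
    intro j
    have h8 := tail (hg j) hK h2
    by_cases hj : j ∈ Jp
    · rw [abs_mul, abs_mul, Nat.abs_cast]
      have h9 := h5 j hj
      have h10 := hmt j
      have h11 := hW0 t
      gcongr
    · rw [h4 j hj]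
      simp only [Int.cast_zero, mul_zero, zero_mul, abs_zero]
      have h11 := hW0 t
      positivity
  calc |EE g n a u m t - ∑ j, (u t j : ℝ) * m t j *
        (dser (g j) (n t) - ∑ k ∈ Finset.Ico 1 K, (g j k : ℝ) / (k : ℝ) ^ (n t))| ≤
      |EE g n a u m t| + |∑ j, (u t j : ℝ) * m t j *
        (dser (g j) (n t) - ∑ k ∈ Finset.Ico 1 K, (g j k : ℝ) / (k : ℝ) ^ (n t))| := abs_sub _ _
    _ ≤ w t * ((16 : ℝ) ^ (n t))⁻¹ + ∑ _j : J, W t * Real.exp ((n t : ℝ) / 2) *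
        (A * ((K : ℝ) ^ (A + 2) / (K : ℝ) ^ (n t)) * Z2) := by
      refine add_le_add h7 ((Finset.abs_sum_le_sum_abs _ _).trans ?_)
      exact Finset.sum_le_sum fun j _ => hterm j
    _ = w t * ((16 : ℝ) ^ (n t))⁻¹ + D * Real.exp ((n t : ℝ) / 2) * (W t / (K : ℝ) ^ (n t)) := by
      rw [Finset.sum_const, Finset.card_univ, nsmul_eq_mul, hD]
      field_simp
    _ ≤ w t * ((16 : ℝ) ^ (n t))⁻¹ + D * Real.exp ((n t : ℝ) / 2) *
        (w t * ((16 : ℝ) ^ (n t))⁻¹) := by gcongr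
    _ = (1 + D * Real.exp ((n t : ℝ) / 2)) * ((16 : ℝ) ^ (n t))⁻¹ * w t := by ring
    _ ≤ Real.exp (-(1 * (n t : ℝ))) * w t := by
      refine mul_le_mul_of_nonneg_right ?_ (hw t)
      have h8 : 1 + D * Real.exp ((n t : ℝ) / 2) ≤ Real.exp (n t) := by
        have h9 : 1 + D ≤ Real.exp ((n t : ℝ) / 2) := by
          have := Real.add_one_le_exp ((n t : ℝ) / 2)
          linarith
        have h10 : 1 ≤ Real.exp ((n t : ℝ) / 2) := by linarith
        calc 1 + D * Real.exp ((n t : ℝ) / 2) ≤ (1 + D) * Real.exp ((n t : ℝ) / 2) := by nlinarith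
          _ ≤ Real.exp ((n t : ℝ) / 2) * Real.exp ((n t : ℝ) / 2) := by gcongr
          _ = Real.exp (n t) := by
            rw [← Real.exp_add]
            ring_nf
      calc (1 + D * Real.exp ((n t : ℝ) / 2)) * ((16 : ℝ) ^ (n t))⁻¹ ≤
          Real.exp (n t) * Real.exp (-(2 * (n t : ℝ))) := by
            gcongr
            exact inv_sixteen_le _
        _ = Real.exp (-(1 * (n t : ℝ))) := by
          rw [← Real.exp_add]
          ring_nf

end core

end Pool.Agent.TH507.ZS
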