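import Mathlib
import Pool.Agent.TH507.ZS.Main

/-!
# Combinations of Dirichlet series with S-unit coefficients at large integers: the theorem
-/

set_option autoImplicit false

namespace Pool.Agent.TH507.ZS

open Filter Topology Pool.Agent.TH932.Germs Pool.Agent.TH551.SU Pool.Agent.TH461.SST
open Pool.Agent.TH551.SU.SUI (const_of_ev)

/-- no sequence of exceptions -/
theorem core {J : Type} [Fintype J] (g : J → ℕ → ℚ) (A : ℕ)
    (hg : ∀ j k, 1 ≤ k → |(g j k : ℝ)| ≤ A * (k : ℝ) ^ A)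
    (hind : ∀ N X : ℕ, 1 ≤ N → ∀ c : J → ℚ,
      (∀ k, X ≤ k → k.Coprime N → ∑ j, c j * g j k = 0) → c = 0)
    (S : Finset ℕ) (C : ℝ) (hC : 1 ≤ C)
    (n : ℕ → ℕ) (hn : ∀ t, t ≤ n t) (a : ℕ → ℤ) (u : ℕ → J → ℕ) (m : ℕ → J → ℤ)
    (hu : ∀ t j, SFac S (u t j)) (huC : ∀ t j, (u t j : ℝ) ≤ C ^ (n t))
    (hm : ∀ t j, |(m t j : ℝ)| ≤ Real.exp (1 / ((t : ℝ) + 1) * n t)) (hm0 : ∀ t, m t ≠ 0)
    (hE : ∀ t, |EE g n a u m t| ≤ (((t : ℝ) + 2) ^ (n t))⁻¹) : False := by
  classical
  have hnt : Tendsto n atTop atTop := tendsto_atTop_mono hn tendsto_id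
  have hL : Tendsto (fun t => (n t : ℝ)) atTop atTop := tendsto_natCast_atTop_atTop.comp hnt
  -- the coefficients `m` are negligible
  have hmN : ∀ j, Negl (fun t => (n t : ℝ)) (fun t => m t j) := by
    intro j ε hε
    have e1 : ∀ᶠ t : ℕ in (UU : Filter ℕ), 1 / ε ≤ (t : ℝ) :=
      ev_of_atTop (tendsto_natCast_atTop_atTop.eventually_ge_atTop _)
    filter_upwards [e1] with t h1
    refine (hm t j).trans (Real.exp_le_exp.2 ?_)
    refine mul_le_mul_of_nonneg_right ?_ (Nat.cast_nonneg _)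
    rw [div_le_iff₀ (by positivity)]
    rw [div_le_iff₀ hε] at h1
    nlinarith
  have hmK : ∀ j, gm (fun t => (m t j : ℚ)) ∈ KK (fun t => (n t : ℝ)) hL := fun j =>
    ⟨fun t => m t j, fun _ => 1, hmN j, Negl.one hL, Eventually.of_forall fun _ => one_ne_zero, by
      congr 1
      funext t
      simp⟩
  -- the indices with nonzero coefficients
  set Jp : Finset J := Finset.univ.filter fun j => gm (fun t => (m t j : ℚ)) ≠ 0 with hJp
  have hJne : Jp.Nonempty := by
    obtain ⟨j, hj⟩ := const_of_ev (ι := J) (p := fun j t => m t j ≠ 0)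
      (Eventually.of_forall fun t => Function.ne_iff.1 (hm0 t))
    refine ⟨j, Finset.mem_filter.2 ⟨Finset.mem_univ _, ?_⟩⟩
    rw [gm_ne_zero]
    filter_upwards [hj] with t ht
    exact_mod_cast ht
  have hJoff : ∀ᶠ t in (UU : Filter ℕ), ∀ j ∉ Jp, m t j = 0 := by
    have h1 : ∀ᶠ t in (UU : Filter ℕ), ∀ j : J, j ∉ Jp → m t j = 0 := by
      refine eventually_all.2 fun j => ?_
      by_cases hj : j ∈ Jp
      · exact Eventually.of_forall fun t h => absurd hj h
      · have h2 : gm (fun t => (m t j : ℚ)) = 0 := by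
          by_contra h
          exact hj (Finset.mem_filter.2 ⟨Finset.mem_univ _, h⟩)
        rw [← gm_zero, gm_eq] at h2
        filter_upwards [h2] with t ht _
        exact_mod_cast ht
    exact h1
  obtain ⟨js, hjs⟩ := const_of_ev (ι := J) (p := fun i t => i ∈ Jp ∧ ∀ j ∈ Jp, u t j ≤ u t i)
    (Eventually.of_forall fun t => by
      obtain ⟨i, hi, h⟩ := Finset.exists_max_image Jp (u t) hJne
      exact ⟨i, hi, h⟩)
  have hjsJ : js ∈ Jp := by
    obtain ⟨t, h, -⟩ := hjs.exists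
    exact h
  have hmax : ∀ᶠ t in (UU : Filter ℕ), ∀ j ∈ Jp, u t j ≤ u t js := by
    filter_upwards [hjs] with t ht using ht.2
  -- the constants
  set N : ℕ := ∏ p ∈ S with p.Prime, p with hN
  have hN1 : 1 ≤ N := by
    rw [hN]
    exact Finset.prod_pos fun p hp => Nat.Prime.pos (Finset.mem_filter.1 hp).2
  obtain ⟨K, hK⟩ := exists_nat_ge (16 * C)
  have hK1 : 1 ≤ K := by
    have h1 : (0 : ℝ) < K := by linarith
    exact_mod_cast h1
  obtain ⟨Y, hY⟩ := fin_ind g N K (hind N K hN1)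
  set K2 : ℕ := 16 * (Y + K) with hK2
  have hKK2 : K ≤ K2 := by omega
  have hK21 : 1 ≤ K2 := by omega
  -- the primes
  set Ps : Finset ℕ := (S ∪ Finset.range K2).filter Nat.Prime with hPs
  set b : Fin Ps.card → ℕ := fun v => (Ps.equivFin.symm v).1 with hb'
  have hb : ∀ v, (b v).Prime := fun v => (Finset.mem_filter.1 (Ps.equivFin.symm v).2).2
  have hbi : Function.Injective b := fun v w h => by
    exact Ps.equivFin.symm.injective (Subtype.ext h)
  have hbs : ∀ p ∈ Ps, ∃ v, b v = p := fun p hp => ⟨Ps.equivFin ⟨p, hp⟩, by simp [hb']⟩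
  set U : J × ℕ → GG := fun i => gm fun t => (u t i.1 : ℚ) / (i.2 : ℚ) ^ (n t) with hU
  have hHSU : ∀ (j : J) (k : ℕ), 1 ≤ k → k < K2 → HSU b (fun t => (n t : ℝ)) (U (j, k)) := by
    intro j k h1 h2
    refine hsu_unit b hb hbi n C (fun t => u t j) (fun t => ⟨(hu t j).1, ?_, huC t j⟩) k
      (by omega) ?_
    · intro p hp hd
      exact hbs p (Finset.mem_filter.2 ⟨Finset.mem_union_left _ ((hu t j).2 p hp hd), hp⟩)
    · intro p hp hd
      refine hbs p (Finset.mem_filter.2 ⟨Finset.mem_union_right _ (Finset.mem_range.2 ?_), hp⟩)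
      exact lt_of_le_of_lt (Nat.le_of_dvd (by omega) hd) h2
  set c : J × ℕ → KK (fun t => (n t : ℝ)) hL := fun i =>
    ⟨gm (fun t => (m t i.1 : ℚ)) * gm (fun _ => g i.1 i.2),
      (KK _ hL).mul_mem (hmK _) (gm_const_mem hL _)⟩ with hc
  have hx : ∀ i, gm (xx g n u m i) = (c i : GG) * U i := by
    intro i
    show gm _ = gm _
    congr 1
    funext t
    simp only [xx]
    ring
  -- truncation at `K`
  have hE1 : ∀ᶠ t in (UU : Filter ℕ), |EE g n a u m t| ≤ (1 : ℝ) * ((16 : ℝ) ^ (n t))⁻¹ := by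
    have e1 : ∀ᶠ t : ℕ in (UU : Filter ℕ), (14 : ℝ) ≤ (t : ℝ) :=
      ev_of_atTop (tendsto_natCast_atTop_atTop.eventually_ge_atTop _)
    filter_upwards [e1] with t h1
    rw [one_mul]
    refine (hE t).trans (inv_anti₀ (by positivity) ?_)
    exact pow_le_pow_left₀ (by norm_num) (by linarith) _
  have hs1 := trunc_small g A hg n hn a u m hm Jp hJoff K hK1 (fun _ => 1) (fun t => C ^ (n t))
    (fun _ => zero_le_one) (Eventually.of_forall fun t j _ => huC t j) (fun t => by positivity)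
    (Eventually.of_forall fun t => by
      have h1 : (0 : ℝ) < K := by exact_mod_cast hK1
      rw [one_mul, ← div_pow, ← inv_pow]
      refine pow_le_pow_left₀ (by positivity) ?_ _
      rw [div_le_iff₀ h1]
      linarith) hE1
  obtain ⟨ν, hν⟩ := kl3 b hb hbi _ hL (Finset.univ ×ˢ Finset.Ico 1 K) U (fun i hi => by
      rw [Finset.mem_product, Finset.mem_Ico] at hi
      exact hHSU i.1 i.2 hi.2.1 (by omega)) c (fun i => xx g n u m i) (fun i _ => hx i) a 1
      one_pos (by
        filter_upwards [hs1] with t ht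
        rw [mul_one] at ht
        exact ht)
  -- the modified coefficients
  set f : J × ℕ → ℚ := fun i => if i.2 < K then 1 + ν i else 1 with hf
  set x2 : J × ℕ → ℕ → ℚ := fun i t => f i * xx g n u m i t with hx2
  set c2 : J × ℕ → KK (fun t => (n t : ℝ)) hL := fun i =>
    (⟨gm (fun _ => f i), gm_const_mem hL _⟩ : KK (fun t => (n t : ℝ)) hL) * c i with hc2
  have hx2c : ∀ i, gm (x2 i) = (c2 i : GG) * U i := by
    intro i
    rw [hc2]
    simp only
    rw [MulMemClass.coe_mul, mul_assoc, ← hx i]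
    rfl
  have hsum2 : ∀ᶠ t in (UU : Filter ℕ), ∑ i ∈ (Finset.univ : Finset J) ×ˢ Finset.Ico 1 K2, (x2 i t : ℝ) =
      (a t : ℝ) + ∑ i ∈ (Finset.univ : Finset J) ×ˢ Finset.Ico 1 K2, (xx g n u m i t : ℝ) := by
    have h1 : gm (fun t => (a t : ℚ)) =
        gm fun t => ∑ i ∈ (Finset.univ : Finset J) ×ˢ Finset.Ico 1 K, ν i * xx g n u m i t := by
      rw [hν, gm_sum]
      rfl
    rw [gm_eq] at h1
    filter_upwards [h1] with t ht
    have h2 : ∑ i ∈ (Finset.univ : Finset J) ×ˢ Finset.Ico 1 K2, x2 i t =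
        (a t : ℚ) + ∑ i ∈ (Finset.univ : Finset J) ×ˢ Finset.Ico 1 K2, xx g n u m i t := by
      rw [ht]
      have h3 : (Finset.univ : Finset J) ×ˢ Finset.Ico 1 K =
          ((Finset.univ : Finset J) ×ˢ Finset.Ico 1 K2).filter fun i => i.2 < K := by
        ext i
        simp only [Finset.mem_product, Finset.mem_univ, true_and, Finset.mem_Ico,
          Finset.mem_filter]
        omega
      rw [h3, Finset.sum_filter, ← Finset.sum_add_distrib]
      refine Finset.sum_congr rfl fun i _ => ?_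
      rw [hx2, hf]
      simp only
      split_ifs <;> ring
    exact_mod_cast h2
  -- the class of `(js, P)`
  have hTm : ∃ T : Finset J, js ∈ T ∧ T ⊆ Jp ∧ ∀ P, K ≤ P → P ≤ Y → P.Coprime N →
      ∀ᶠ t in (UU : Filter ℕ), ∑ j ∈ T, (u t j : ℚ) * m t j * g j P = 0 := by
    refine ⟨Jp.filter fun j => gm (fun t => (u t j : ℚ)) / gm (fun t => (u t js : ℚ)) ∈
      KK (fun t => (n t : ℝ)) hL, ?_, Finset.filter_subset _ _, ?_⟩
    · refine Finset.mem_filter.2 ⟨hjsJ, ?_⟩
      rw [div_self]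
      · exact (KK _ hL).one_mem
      · rw [gm_ne_zero]
        exact Eventually.of_forall fun t => by exact_mod_cast (hu t js).1
    intro P hP1 hP2 hP3
    have hPpos : 1 ≤ P := by omega
    have hP0 : (P : ℚ) ≠ 0 := by exact_mod_cast (by omega : P ≠ 0)
    have hPR : (0 : ℝ) < P := by exact_mod_cast hPpos
    have hPS : ∀ p, p.Prime → p ∣ P → p ∉ S := by
      intro p hp hd hpS
      have h1 : p ∣ N := Finset.dvd_prod_of_mem _ (Finset.mem_filter.2 ⟨hpS, hp⟩)
      have h2 := Nat.dvd_gcd hd h1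
      rw [hP3] at h2
      exact hp.one_lt.ne' (Nat.dvd_one.1 h2)
    have hE2 : ∀ᶠ t in (UU : Filter ℕ), |EE g n a u m t| ≤
        ((u t js : ℝ) / (P : ℝ) ^ (n t)) * ((16 : ℝ) ^ (n t))⁻¹ := by
      have e1 : ∀ᶠ t : ℕ in (UU : Filter ℕ), (16 * P : ℝ) ≤ (t : ℝ) :=
        ev_of_atTop (tendsto_natCast_atTop_atTop.eventually_ge_atTop _)
      filter_upwards [e1] with t h1
      refine (hE t).trans ?_
      have h2 : (((t : ℝ) + 2) ^ (n t))⁻¹ ≤ ((16 * P : ℝ) ^ (n t))⁻¹ :=
        inv_anti₀ (by positivity) (pow_le_pow_left₀ (by positivity) (by linarith) _)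
      refine h2.trans ?_
      have h3 : (1 : ℝ) ≤ u t js := by exact_mod_cast Nat.pos_of_ne_zero (hu t js).1
      have h4 : ((16 * P : ℝ) ^ (n t))⁻¹ = (1 / (P : ℝ) ^ (n t)) * ((16 : ℝ) ^ (n t))⁻¹ := by
        rw [mul_pow]
        field_simp
      rw [h4]
      gcongr
    have hs2 := trunc_small g A hg n hn a u m hm Jp hJoff K2 hK21
      (fun t => (u t js : ℝ) / (P : ℝ) ^ (n t)) (fun t => (u t js : ℝ))
      (fun t => by positivity) (by
        filter_upwards [hmax] with t ht j hj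
        exact_mod_cast ht j hj) (fun t => by positivity)
      (Eventually.of_forall fun t => by
        have h1 : (16 * P : ℝ) ≤ K2 := by
          have : 16 * P ≤ K2 := by omega
          exact_mod_cast this
        have h2 : ((u t js : ℝ) / (P : ℝ) ^ (n t)) * ((16 : ℝ) ^ (n t))⁻¹ =
            (u t js : ℝ) / (16 * P : ℝ) ^ (n t) := by
          rw [mul_pow]
          field_simp
        rw [h2]
        gcongr) hE2
    have hgr := gr2 b hb hbi _ hL (Finset.univ ×ˢ Finset.Ico 1 K2) U (fun i hi => by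
        rw [Finset.mem_product, Finset.mem_Ico] at hi
        exact hHSU i.1 i.2 hi.2.1 hi.2.2) c2 x2 (fun i _ => hx2c i) (js, P) (by
          rw [Finset.mem_product, Finset.mem_Ico]
          exact ⟨Finset.mem_univ _, hPpos, by show P < K2; omega⟩)
        (fun t => (u t js : ℚ) / (P : ℚ) ^ (n t)) rfl 1 one_pos (by
          filter_upwards [hs2, hsum2] with t h1 h2
          rw [h2]
          have h3 : |(((u t js : ℚ) / (P : ℚ) ^ (n t) : ℚ) : ℝ)| =
              (u t js : ℝ) / (P : ℝ) ^ (n t) := by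
            push_cast
            exact abs_of_nonneg (by positivity)
          rw [h3]
          exact h1) (fun i => U i / U (js, P) ∈ KK (fun t => (n t : ℝ)) hL) (fun _ _ => Iff.rfl)
    -- only the terms with `k = P` remain
    have hUq : ∀ j, U (j, P) / U (js, P) =
        gm (fun t => (u t j : ℚ)) / gm (fun t => (u t js : ℚ)) := by
      intro j
      rw [hU]
      simp only
      rw [gm_div, gm_div]
      congr 1
      funext t
      have h1 : (P : ℚ) ^ (n t) ≠ 0 := pow_ne_zero _ hP0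
      have h2 : (u t js : ℚ) ≠ 0 := by exact_mod_cast (hu t js).1
      field_simp
    have hred : ∑ i ∈ (Finset.univ : Finset J) ×ˢ Finset.Ico 1 K2 with
        U i / U (js, P) ∈ KK (fun t => (n t : ℝ)) hL, gm (x2 i) =
        ∑ j ∈ Jp with gm (fun t => (u t j : ℚ)) / gm (fun t => (u t js : ℚ)) ∈
          KK (fun t => (n t : ℝ)) hL, gm (xx g n u m (j, P)) := by
      symm
      refine Finset.sum_of_injOn (fun j => (j, P)) (fun j _ j' _ h => (Prod.mk.inj h).1) ?_ ?_ ?_
      · intro j hj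
        rw [Finset.mem_coe, Finset.mem_filter] at hj
        rw [Finset.mem_coe, Finset.mem_filter, Finset.mem_product, Finset.mem_Ico]
        refine ⟨⟨Finset.mem_univ _, hPpos, by show P < K2; omega⟩, ?_⟩
        rw [hUq]
        exact hj.2
      · rintro ⟨j, k⟩ hi hni
        rw [Finset.mem_filter, Finset.mem_product, Finset.mem_Ico] at hi
        obtain ⟨⟨-, hk1, hk2⟩, hcl⟩ := hi
        by_cases hj : j ∈ Jp
        · exfalso
          have hkP : k = P := class_eq hn hL S (fun t => u t j) (fun t => u t js)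
            (fun t => hu t j) (fun t => hu t js) (by
              filter_upwards [hmax] with t ht using ht j hj) k P hk1 hPpos hPS hcl
          subst hkP
          apply hni
          refine ⟨j, ?_, rfl⟩
          rw [Finset.mem_coe, Finset.mem_filter, ← hUq]
          exact ⟨hj, hcl⟩
        · rw [← gm_zero, gm_eq]
          filter_upwards [hJoff] with t ht
          rw [hx2]
          simp only [xx]
          rw [ht j hj]
          simp
      · intro j _
        congr 1
        funext t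
        rw [hx2, hf]
        simp only
        rw [if_neg (by omega), one_mul]
    rw [hred, ← gm_sum, ← gm_zero, gm_eq] at hgr
    filter_upwards [hgr] with t ht
    have h1 : (P : ℚ) ^ (n t) ≠ 0 := pow_ne_zero _ hP0
    have h2 : ∑ j ∈ Jp with gm (fun t => (u t j : ℚ)) / gm (fun t => (u t js : ℚ)) ∈
          KK (fun t => (n t : ℝ)) hL, (u t j : ℚ) * m t j * g j P =
        (∑ j ∈ Jp with gm (fun t => (u t j : ℚ)) / gm (fun t => (u t js : ℚ)) ∈
          KK (fun t => (n t : ℝ)) hL, xx g n u m (j, P) t) * (P : ℚ) ^ (n t) := by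
      rw [Finset.sum_mul]
      refine Finset.sum_congr rfl fun j _ => ?_
      simp only [xx]
      field_simp
    rw [h2, ht, zero_mul]
  obtain ⟨T, hjsT, hTJ, hT⟩ := hTm
  have hall : ∀ᶠ t in (UU : Filter ℕ), ∀ P ∈ Finset.range (Y + 1), K ≤ P → P.Coprime N →
      ∑ j ∈ T, (u t j : ℚ) * m t j * g j P = 0 := by
    rw [Finset.eventually_all]
    intro P hP
    rw [Finset.mem_range] at hP
    by_cases h1 : K ≤ P ∧ P.Coprime N
    · filter_upwards [hT P h1.1 (by omega) h1.2] with t ht _ _ using ht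
    · exact Eventually.of_forall fun t h2 h3 => absurd ⟨h2, h3⟩ h1
  have hjs0 := gm_ne_zero.1 (Finset.mem_filter.1 hjsJ).2
  obtain ⟨t, h1, h2⟩ := (hall.and hjs0).exists
  have h3 := hY (fun j => if j ∈ T then (u t j : ℚ) * m t j else 0) (by
    intro k hk1 hk2 hk3
    refine Eq.trans ?_ (h1 k (Finset.mem_range.2 (by omega)) hk1 hk3)
    simp only [ite_mul, zero_mul]
    rw [Finset.sum_ite_mem, Finset.univ_inter])
  have h4 := congrFun h3 js
  simp only [hjsT, if_true, Pi.zero_apply] at h4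
  rcases mul_eq_zero.1 h4 with h5 | h5
  · exact (hu t js).1 (by exact_mod_cast h5)
  · exact h2 h5

/-- **Combinations of Dirichlet series with S-unit coefficients at large integers.** -/
theorem main {J : Type} [Fintype J] (g : J → ℕ → ℚ) (A : ℕ)
    (hg : ∀ j k, 1 ≤ k → |(g j k : ℝ)| ≤ A * (k : ℝ) ^ A)
    (hind : ∀ N X : ℕ, 1 ≤ N → ∀ c : J → ℚ,
      (∀ k, X ≤ k → k.Coprime N → ∑ j, c j * g j k = 0) → c = 0)
    (S : Finset ℕ) (C : ℝ) :
    ∃ B : ℝ, 1 < B ∧ ∃ δ : ℝ, 0 < δ ∧ ∃ n0 : ℕ, ∀ n : ℕ, n0 ≤ n → ∀ (a : ℤ) (u : J → ℕ)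
      (m : J → ℤ), (∀ j, SFac S (u j)) → (∀ j, (u j : ℝ) ≤ C ^ n) →
      (∀ j, |(m j : ℝ)| ≤ Real.exp (δ * n)) → m ≠ 0 →
      (B ^ n)⁻¹ < |(a : ℝ) + ∑ j, (u j : ℝ) * m j * dser (g j) n| := by
  by_contra hcon
  push Not at hcon
  have h1 : ∀ t : ℕ, ∃ (n : ℕ) (a : ℤ) (u : J → ℕ) (m : J → ℤ), t ≤ n ∧ (∀ j, SFac S (u j)) ∧
      (∀ j, (u j : ℝ) ≤ C ^ n) ∧ (∀ j, |(m j : ℝ)| ≤ Real.exp (1 / ((t : ℝ) + 1) * n)) ∧ m ≠ 0 ∧
      |(a : ℝ) + ∑ j, (u j : ℝ) * m j * dser (g j) n| ≤ (((t : ℝ) + 2) ^ n)⁻¹ := by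
    intro t
    obtain ⟨n, h2, a, u, m, h3, h4, h5, h6, h7⟩ := hcon ((t : ℝ) + 2)
      (by have : (0 : ℝ) ≤ t := Nat.cast_nonneg t; linarith) (1 / ((t : ℝ) + 1)) (by positivity) t
    exact ⟨n, a, u, m, h2, h3, h4, h5, h6, h7⟩
  choose n a u m hn hu huC hm hm0 hE using h1
  refine core g A hg hind S (max |C| 1) (le_max_right _ _) n hn a u m hu (fun t j => ?_) hm hm0 hE
  refine (huC t j).trans ((le_abs_self _).trans ?_)
  rw [abs_pow]
  exact pow_le_pow_left₀ (abs_nonneg _) (le_max_left _ _) _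

end Pool.Agent.TH507.ZS
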