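import Mathlib
import Pool.Agent.TH507.ZS.Fin

/-!
# Monomials in shifted values of a multiplicative Dirichlet series
-/

set_option autoImplicit false

namespace Pool.Agent.TH507.ZS

open Filter Topology ArithmeticFunction

/-- polynomially bounded -/
def PB (f : ℕ → ℚ) : Prop := ∃ A : ℕ, ∀ k : ℕ, 1 ≤ k → |(f k : ℝ)| ≤ A * (k : ℝ) ^ A

lemma PB.mono_exp {f : ℕ → ℚ} {A B : ℕ} (hAB : A ≤ B)
    (h : ∀ k : ℕ, 1 ≤ k → |(f k : ℝ)| ≤ A * (k : ℝ) ^ A) (k : ℕ) (hk : 1 ≤ k) :
    |(f k : ℝ)| ≤ B * (k : ℝ) ^ B := by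
  refine (h k hk).trans ?_
  have h1 : (1 : ℝ) ≤ k := by exact_mod_cast hk
  have h2 : (A : ℝ) ≤ B := by exact_mod_cast hAB
  exact mul_le_mul h2 (pow_le_pow_right₀ h1 hAB) (by positivity) (Nat.cast_nonneg _)

lemma card_anti (k : ℕ) : k.divisorsAntidiagonal.card ≤ k := by
  refine le_trans ?_ (Nat.card_divisors_le_self k)
  refine Finset.card_le_card_of_injOn Prod.fst ?_ ?_
  · intro x hx
    exact Nat.fst_mem_divisors_of_mem_antidiagonal hx
  · intro x hx y hy hxy
    rw [Finset.mem_coe, Nat.mem_divisorsAntidiagonal] at hx hy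
    have h1 : x.1 * x.2 = x.1 * y.2 := by rw [hx.1, hxy, hy.1]
    have h2 : x.1 ≠ 0 := fun h => hx.2 (by rw [← hx.1, h, zero_mul])
    exact Prod.ext hxy (Nat.eq_of_mul_eq_mul_left (Nat.pos_of_ne_zero h2) h1)

lemma PB.mul {f g : ArithmeticFunction ℚ} (hf : PB f) (hg : PB g) :
    PB (f * g : ArithmeticFunction ℚ) := by
  obtain ⟨A, hA⟩ := hf
  obtain ⟨B, hB⟩ := hg
  refine ⟨A * B + (A + B + 1), fun k hk => ?_⟩
  have hk1 : (1 : ℝ) ≤ k := by exact_mod_cast hk
  rw [mul_apply]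
  push_cast
  have h1 : ∀ x ∈ k.divisorsAntidiagonal, |(f x.1 : ℝ) * (g x.2 : ℝ)| ≤
      A * B * (k : ℝ) ^ (A + B) := by
    intro x hx
    have hx' := Nat.mem_divisorsAntidiagonal.1 hx
    have h2 := Nat.ne_zero_of_mem_divisorsAntidiagonal hx
    have h3 := hA x.1 (Nat.pos_of_ne_zero h2.1)
    have h4 := hB x.2 (Nat.pos_of_ne_zero h2.2)
    have h5 : (x.1 : ℝ) ≤ k := by
      exact_mod_cast Nat.le_of_dvd (by omega) ⟨x.2, hx'.1.symm⟩
    have h6 : (x.2 : ℝ) ≤ k := by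
      exact_mod_cast Nat.le_of_dvd (by omega) (⟨x.1, by rw [mul_comm]; exact hx'.1.symm⟩ : x.2 ∣ k)
    rw [abs_mul]
    calc |(f x.1 : ℝ)| * |(g x.2 : ℝ)| ≤ (A * (x.1 : ℝ) ^ A) * (B * (x.2 : ℝ) ^ B) :=
          mul_le_mul h3 h4 (abs_nonneg _) (by positivity)
      _ ≤ (A * (k : ℝ) ^ A) * (B * (k : ℝ) ^ B) := by gcongr
      _ = _ := by rw [pow_add]; ring
  calc |∑ x ∈ k.divisorsAntidiagonal, (f x.1 : ℝ) * (g x.2 : ℝ)| ≤
      ∑ x ∈ k.divisorsAntidiagonal, |(f x.1 : ℝ) * (g x.2 : ℝ)| := Finset.abs_sum_le_sum_abs _ _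
    _ ≤ ∑ _x ∈ k.divisorsAntidiagonal, A * B * (k : ℝ) ^ (A + B) := Finset.sum_le_sum h1
    _ = k.divisorsAntidiagonal.card * (A * B * (k : ℝ) ^ (A + B)) := by
      rw [Finset.sum_const, nsmul_eq_mul]
    _ ≤ k * (A * B * (k : ℝ) ^ (A + B)) := by
      have h2 : (k.divisorsAntidiagonal.card : ℝ) ≤ k := by exact_mod_cast card_anti k
      gcongr
    _ = (A * B) * (k : ℝ) ^ (A + B + 1) := by rw [pow_succ]; ring
    _ ≤ (A * B + (A + B + 1)) * (k : ℝ) ^ (A * B + (A + B + 1)) := by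
      have h3 : (0 : ℝ) ≤ A * B := by positivity
      refine mul_le_mul ?_ (pow_le_pow_right₀ hk1 (by omega)) (by positivity) (by positivity)
      have : (0 : ℝ) ≤ A + B + 1 := by positivity
      linarith

/-- the series as an `L`-series -/
lemma dser_eq {f : ℕ → ℚ} {A n : ℕ} (hf : ∀ k : ℕ, 1 ≤ k → |(f k : ℝ)| ≤ A * (k : ℝ) ^ A)
    (hn : A + 2 ≤ n) : LSeriesHasSum (fun k => ((f k : ℚ) : ℂ)) (n : ℂ) ((dser f n : ℝ) : ℂ) := by
  have h1 := (dser_summable hf hn).hasSum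
  have h2 : HasSum (fun k : ℕ => (((f (k + 1) : ℝ) / ((k + 1 : ℕ) : ℝ) ^ n : ℝ) : ℂ))
      ((dser f n : ℝ) : ℂ) := Complex.hasSum_ofReal.2 h1
  unfold LSeriesHasSum
  rw [← hasSum_nat_add_iff' 1]
  simp only [Finset.sum_range_one, LSeries.term_zero, sub_zero]
  have h3 : (fun k : ℕ => LSeries.term (fun k => ((f k : ℚ) : ℂ)) (n : ℂ) (k + 1)) =
      fun k : ℕ => (((f (k + 1) : ℝ) / ((k + 1 : ℕ) : ℝ) ^ n : ℝ) : ℂ) := by
    funext k
    rw [LSeries.term_of_ne_zero (by omega), Complex.cpow_natCast]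
    push_cast
    rfl
  rw [h3]
  exact h2

lemma dser_mul {f g : ArithmeticFunction ℚ} (hf : PB f) (hg : PB g) :
    ∃ n1 : ℕ, ∀ n, n1 ≤ n → dser (f * g : ArithmeticFunction ℚ) n = dser f n * dser g n := by
  obtain ⟨C, hC⟩ := hf.mul hg
  obtain ⟨A, hA⟩ := hf
  obtain ⟨B, hB⟩ := hg
  refine ⟨A + B + C + 2, fun n hn => ?_⟩
  have h1 := dser_eq hA (show A + 2 ≤ n by omega)
  have h2 := dser_eq hB (show B + 2 ≤ n by omega)
  have h3 := dser_eq hC (show C + 2 ≤ n by omega)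
  have h4 := LSeriesHasSum.convolution h1 h2
  have h5 : (fun k => (((f * g : ArithmeticFunction ℚ) k : ℚ) : ℂ)) =
      LSeries.convolution (fun k => ((f k : ℚ) : ℂ)) (fun k => ((g k : ℚ) : ℂ)) := by
    rw [LSeries.convolution_def]
    funext k
    rw [mul_apply]
    push_cast
    rfl
  rw [h5] at h3
  have h6 := h3.LSeries_eq.symm.trans h4.LSeries_eq
  exact_mod_cast h6

/-- `f` is multiplicative and polynomially bounded, its series is `F` at large integers, and `D`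
gives its values at the primes -/
structure Rep (f : ArithmeticFunction ℚ) (F : ℕ → ℝ) (D : ℕ → ℚ) : Prop where
  mul : f.IsMultiplicative
  pb : PB f
  ser : ∃ n1 : ℕ, ∀ n, n1 ≤ n → dser f n = F n
  prime : ∀ p : ℕ, p.Prime → f p = D p

lemma dser_one (n : ℕ) : dser (1 : ArithmeticFunction ℚ) n = 1 := by
  rw [dser, tsum_eq_single 0]
  · simp
  · intro k hk
    rw [one_apply_ne (by omega)]
    simp

lemma Rep.one : Rep 1 (fun _ => 1) (fun _ => 0) where
  mul := isMultiplicative_one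
  pb := ⟨1, fun k hk => by
    have h1 : (1 : ℝ) ≤ k := by exact_mod_cast hk
    rw [one_apply]
    split_ifs
    · simpa using h1
    · simp⟩
  ser := ⟨0, fun n _ => dser_one n⟩
  prime := fun p hp => one_apply_ne hp.one_lt.ne'

lemma prime_mul {f g : ArithmeticFunction ℚ} (hf : f 1 = 1) (hg : g 1 = 1) {p : ℕ}
    (hp : p.Prime) : (f * g) p = f p + g p := by
  rw [mul_apply, Nat.sum_divisorsAntidiagonal (fun x y => f x * g y), hp.sum_divisors]
  rw [Nat.div_self hp.pos, Nat.div_one, hf, hg]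
  ring

lemma Rep.mul' {f g : ArithmeticFunction ℚ} {F G : ℕ → ℝ} {D E : ℕ → ℚ} (hf : Rep f F D)
    (hg : Rep g G E) : Rep (f * g) (fun n => F n * G n) (fun p => D p + E p) where
  mul := hf.mul.mul hg.mul
  pb := hf.pb.mul hg.pb
  ser := by
    obtain ⟨a, ha⟩ := hf.ser
    obtain ⟨b, hb⟩ := hg.ser
    obtain ⟨c, hc⟩ := dser_mul hf.pb hg.pb
    refine ⟨a + b + c, fun n hn => ?_⟩
    rw [hc n (by omega), ha n (by omega), hb n (by omega)]
  prime := fun p hp => by
    rw [prime_mul hf.mul.1 hg.mul.1 hp, hf.prime p hp, hg.prime p hp]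

lemma Rep.pow' {f : ArithmeticFunction ℚ} {F : ℕ → ℝ} {D : ℕ → ℚ} (hf : Rep f F D) (e : ℕ) :
    Rep (f ^ e) (fun n => F n ^ e) (fun p => e * D p) := by
  induction e with
  | zero =>
    simp only [pow_zero, Nat.cast_zero, zero_mul]
    exact Rep.one
  | succ e ih =>
    have h := ih.mul' hf
    convert h using 2
    · exact pow_succ _ _
    · exact pow_succ _ _
    · push_cast
      ring

lemma Rep.prod' {ι : Type} (s : Finset ι) (f : ι → ArithmeticFunction ℚ) (F : ι → ℕ → ℝ)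
    (D : ι → ℕ → ℚ) (h : ∀ i ∈ s, Rep (f i) (F i) (D i)) :
    Rep (∏ i ∈ s, f i) (fun n => ∏ i ∈ s, F i n) (fun p => ∑ i ∈ s, D i p) := by
  classical
  induction s using Finset.induction_on with
  | empty => simpa using Rep.one
  | insert a s ha ih =>
    have h1 := (h a (Finset.mem_insert_self _ _)).mul'
      (ih fun i hi => h i (Finset.mem_insert_of_mem hi))
    simpa only [Finset.prod_insert ha, Finset.sum_insert ha] using h1

/-- division by `k ^ i` -/
def sh (φ : ArithmeticFunction ℚ) (i : ℕ) : ArithmeticFunction ℚ :=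
  ⟨fun k => φ k / (k : ℚ) ^ i, by simp⟩

lemma sh_apply (φ : ArithmeticFunction ℚ) (i k : ℕ) : sh φ i k = φ k / (k : ℚ) ^ i := rfl

lemma sh_rep {φ : ArithmeticFunction ℚ} (h1 : φ.IsMultiplicative) (h2 : PB φ) (i : ℕ) :
    Rep (sh φ i) (fun n => dser φ (n + i)) (fun p => φ p / (p : ℚ) ^ i) where
  mul := by
    refine ⟨?_, fun {m n} hmn => ?_⟩
    · rw [sh_apply, h1.1]
      simp
    · rw [sh_apply, sh_apply, sh_apply, h1.2 hmn]
      push_cast
      rw [mul_pow, mul_div_mul_comm]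
  pb := by
    obtain ⟨A, hA⟩ := h2
    refine ⟨A, fun k hk => ?_⟩
    have h3 : (1 : ℝ) ≤ k := by exact_mod_cast hk
    rw [sh_apply]
    push_cast
    rw [abs_div, abs_of_pos (by positivity : (0 : ℝ) < (k : ℝ) ^ i)]
    refine (div_le_self (abs_nonneg _) (one_le_pow₀ h3)).trans (hA k hk)
  ser := by
    refine ⟨0, fun n _ => ?_⟩
    rw [dser, dser]
    refine tsum_congr fun k => ?_
    rw [sh_apply]
    push_cast
    rw [pow_add, div_div, mul_comm (((k : ℝ) + 1) ^ i)]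
  prime := fun p _ => rfl

/-- a nonzero polynomial does not vanish at `1 / p` for all large primes `p` -/
lemma exists_prime_ne {h : ℕ} (d : Fin (h + 1) → ℚ) (hd : d ≠ 0) (Y : ℕ) :
    ∃ p : ℕ, p.Prime ∧ Y ≤ p ∧ ∑ i, d i / (p : ℚ) ^ (i : ℕ) ≠ 0 := by
  by_contra hcon
  push Not at hcon
  apply hd
  set P : Polynomial ℚ := ∑ i, Polynomial.C (d i) * Polynomial.X ^ (i : ℕ) with hP
  have hroot : ∀ p : ℕ, p.Prime → Y ≤ p → P.IsRoot ((p : ℚ)⁻¹) := by
    intro p hp hY
    rw [Polynomial.IsRoot, hP, Polynomial.eval_finsetSum]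
    simp only [Polynomial.eval_mul, Polynomial.eval_C, Polynomial.eval_pow, Polynomial.eval_X]
    rw [← hcon p hp hY]
    refine Finset.sum_congr rfl fun i _ => ?_
    rw [inv_pow, div_eq_mul_inv]
  have hinf : Set.Infinite {x : ℚ | P.IsRoot x} := by
    have h1 : Set.Infinite {p : ℕ | p.Prime ∧ Y ≤ p} := by
      rw [Set.infinite_iff_exists_gt]
      intro a
      obtain ⟨p, h2, h3⟩ := Nat.exists_infinite_primes (a + Y + 1)
      exact ⟨p, ⟨h3, by omega⟩, by omega⟩
    refine (h1.image (f := fun p : ℕ => (p : ℚ)⁻¹) ?_).mono ?_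
    · intro p _ q _ hpq
      simpa using hpq
    · rintro x ⟨p, hp, rfl⟩
      exact hroot p hp.1 hp.2
  have hP0 : P = 0 := Polynomial.eq_zero_of_infinite_isRoot P hinf
  funext i
  have h1 := congrArg (fun Q => Polynomial.coeff Q (i : ℕ)) hP0
  rw [hP] at h1
  simp only [Polynomial.finsetSum_coeff, Polynomial.coeff_C_mul, Polynomial.coeff_X_pow,
    Polynomial.coeff_zero] at h1
  rw [Finset.sum_eq_single i] at h1
  · simpa using h1
  · intro j _ hj
    rw [if_neg, mul_zero]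
    intro h2
    exact hj (Fin.ext h2.symm)
  · intro h2
    exact absurd (Finset.mem_univ _) h2

lemma coprime_of_gt {p N : ℕ} (hp : p.Prime) (hN : 1 ≤ N) (h : N + 1 ≤ p) : p.Coprime N := by
  rw [hp.coprime_iff_not_dvd]
  intro hd
  have := Nat.le_of_dvd hN hd
  omega

/-- independence of multiplicative functions with different values at the primes -/
lemma mult_ind {J : Type} [DecidableEq J] (g : J → ArithmeticFunction ℚ)
    (hg : ∀ j, (g j).IsMultiplicative)
    (hsep : ∀ i j, i ≠ j → ∀ Y : ℕ, ∃ p : ℕ, p.Prime ∧ Y ≤ p ∧ g i p ≠ g j p)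
    (hnz : ∀ j, ∀ Y : ℕ, ∃ p : ℕ, p.Prime ∧ Y ≤ p ∧ g j p ≠ 0) (r : ℕ) :
    ∀ T : Finset J, T.card = r → ∀ N X : ℕ, 1 ≤ N → ∀ c : J → ℚ,
      (∀ k, X ≤ k → k.Coprime N → ∑ j ∈ T, c j * g j k = 0) → ∀ j ∈ T, c j = 0 := by
  induction r with
  | zero =>
    intro T hT N X _ c _ j hj
    rw [Finset.card_eq_zero] at hT
    rw [hT] at hj
    simp at hj
  | succ r ih =>
    intro T hT N X hN c hc j1 hj1
    have hother : ∀ j ∈ T, j ≠ j1 → c j = 0 := by
      intro j hj hne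
      obtain ⟨p, hp, hpY, hpne⟩ := hsep j j1 hne (N + 1)
      have hpN : p.Coprime N := coprime_of_gt hp hN hpY
      have h1 := ih (T.erase j1) (by rw [Finset.card_erase_of_mem hj1, hT]; rfl) (N * p) X
        (Nat.mul_pos hN hp.pos) (fun i => c i * (g i p - g j1 p)) (by
          intro k hk hkc
          have hkN : k.Coprime N := Nat.Coprime.coprime_mul_right_right hkc
          have hkp : k.Coprime p := Nat.Coprime.coprime_mul_left_right hkc
          have h2 := hc k hk hkN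
          have h3 := hc (p * k) (hk.trans (Nat.le_mul_of_pos_left _ hp.pos))
            (Nat.Coprime.mul_left hpN hkN)
          have h4 : ∑ i ∈ T, c i * (g i p - g j1 p) * g i k = 0 := by
            have h5 : ∑ i ∈ T, c i * g i (p * k) = ∑ i ∈ T, c i * (g i p * g i k) :=
              Finset.sum_congr rfl fun i _ => by rw [(hg i).2 hkp.symm]
            rw [h5] at h3
            calc ∑ i ∈ T, c i * (g i p - g j1 p) * g i k =
                ∑ i ∈ T, (c i * (g i p * g i k) - g j1 p * (c i * g i k)) :=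
                  Finset.sum_congr rfl fun i _ => by ring
              _ = 0 := by
                rw [Finset.sum_sub_distrib, h3, ← Finset.mul_sum, h2]
                ring
          rw [← Finset.add_sum_erase T _ hj1] at h4
          rw [sub_self, mul_zero, zero_mul, zero_add] at h4
          exact h4) j (Finset.mem_erase.2 ⟨hne, hj⟩)
      exact (mul_eq_zero.1 h1).resolve_right (sub_ne_zero.2 hpne)
    obtain ⟨p, hp, hpY, hpne⟩ := hnz j1 (X + N + 1)
    have h2 := hc p (by omega) (coprime_of_gt hp hN (by omega))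
    rw [Finset.sum_eq_single_of_mem j1 hj1] at h2
    · exact (mul_eq_zero.1 h2).resolve_right hpne
    · intro j hj hne
      rw [hother j hj hne, zero_mul]

end Pool.Agent.TH507.ZS
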