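import Mathlib

/-!
# Linear independence of iterated sums: the abstract argument

`R` is a commutative ring with an endomorphism `σ`, `K` a subring of `R` in which nonzero elements
are invertible and which is stable under `σ`. `y w`, for words `w`, are elements of `R` with
`σ (y (a :: w)) = y (a :: w) + f a * y w + ` (a combination of shorter words).
-/

set_option autoImplicit false

namespace Pool.Agent.TH507.HS

variable {R : Type*} [CommRing R] (K : Subring R) {ι : Type*} (y : List ι → R)

/-- combinations of words of length less than `t` -/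
def W (t : ℕ) : Submodule K R := Submodule.span K (y '' {w | w.length < t})

variable {K y}

lemma mem_W {t : ℕ} {w : List ι} (h : w.length < t) : y w ∈ W K y t :=
  Submodule.subset_span ⟨w, h, rfl⟩

lemma W_mono {s t : ℕ} (h : s ≤ t) : W K y s ≤ W K y t :=
  Submodule.span_mono (Set.image_mono fun _ hw => lt_of_lt_of_le hw h)

lemma mul_mem_W {t : ℕ} {c x : R} (hc : c ∈ K) (hx : x ∈ W K y t) : c * x ∈ W K y t :=
  (W K y t).smul_mem (⟨c, hc⟩ : K) hx

/-- splitting off the words of length `t` -/
lemma W_succ {t : ℕ} {z : R} (hz : z ∈ W K y (t + 1)) :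
    ∃ (V : Finset (List ι)) (d : List ι → R) (ω : R), (∀ v ∈ V, v.length = t) ∧ (∀ v, d v ∈ K) ∧
      ω ∈ W K y t ∧ z = ∑ v ∈ V, d v * y v + ω := by
  classical
  unfold W at hz
  induction hz using Submodule.span_induction with
  | mem x hx =>
    obtain ⟨w, hw, rfl⟩ := hx
    rcases Nat.lt_succ_iff_lt_or_eq.1 hw with h | h
    · exact ⟨∅, fun _ => 0, y w, by simp, fun _ => K.zero_mem, mem_W h, by simp⟩
    · exact ⟨{w}, fun _ => 1, 0, by simpa using h, fun _ => K.one_mem, (W K y t).zero_mem, by simp⟩
  | zero => exact ⟨∅, fun _ => 0, 0, by simp, fun _ => K.zero_mem, (W K y t).zero_mem, by simp⟩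
  | add x x' _ _ hx hx' =>
    obtain ⟨V, d, ω, h1, h2, h3, rfl⟩ := hx
    obtain ⟨V', d', ω', h1', h2', h3', rfl⟩ := hx'
    refine ⟨V ∪ V', fun v => (if v ∈ V then d v else 0) + (if v ∈ V' then d' v else 0), ω + ω',
      ?_, ?_, (W K y t).add_mem h3 h3', ?_⟩
    · intro v hv
      rcases Finset.mem_union.1 hv with h | h
      · exact h1 v h
      · exact h1' v h
    · intro v
      refine K.add_mem ?_ ?_
      · split_ifs
        · exact h2 v
        · exact K.zero_mem
      · split_ifs
        · exact h2' v
        · exact K.zero_mem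
    · have e1 : ∑ v ∈ V ∪ V', (if v ∈ V then d v else 0) * y v = ∑ v ∈ V, d v * y v := by
        simp only [ite_mul, zero_mul]
        rw [Finset.sum_ite_mem, Finset.union_inter_cancel_left]
      have e2 : ∑ v ∈ V ∪ V', (if v ∈ V' then d' v else 0) * y v = ∑ v ∈ V', d' v * y v := by
        simp only [ite_mul, zero_mul]
        rw [Finset.sum_ite_mem, Finset.union_inter_cancel_right]
      simp only [add_mul, Finset.sum_add_distrib]
      rw [e1, e2]
      ring
  | smul c x _ hx =>
    obtain ⟨V, d, ω, h1, h2, h3, rfl⟩ := hx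
    refine ⟨V, fun v => c * d v, c * ω, h1, fun v => K.mul_mem c.2 (h2 v), mul_mem_W c.2 h3, ?_⟩
    rw [Subring.smul_def, smul_eq_mul, mul_add, Finset.mul_sum]
    congr 1
    exact Finset.sum_congr rfl fun v _ => by ring

/-- the hypotheses of the independence theorem -/
structure Hyp (K : Subring R) (y : List ι → R) (σ : R →+* R) (f : ι → R) (k : ℚ →+* R) : Prop where
  inv : ∀ x ∈ K, x ≠ 0 → ∃ x' ∈ K, x * x' = 1
  nontriv : (1 : R) ≠ 0
  stable : ∀ x ∈ K, σ x ∈ K
  fK : ∀ a, f a ∈ K
  const : ∀ x ∈ K, σ x = x → ∃ q, x = k q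
  nil : y [] = 1
  recu : ∀ a w, σ (y (a :: w)) - y (a :: w) - f a * y w ∈ W K y w.length
  tel : ∀ (A : Finset ι) (c : ι → ℚ), (∃ a ∈ A, c a ≠ 0) → ∀ r ∈ K, σ r - r ≠ ∑ a ∈ A, k (c a) * f a

variable {σ : R →+* R} {f : ι → R} {k : ℚ →+* R}

lemma Hyp.step (H : Hyp K y σ f k) (w : List ι) : σ (y w) - y w ∈ W K y w.length := by
  cases w with
  | nil => rw [H.nil, map_one, sub_self]; exact (W K y _).zero_mem
  | cons a w =>
    have h1 := W_mono (K := K) (y := y) (Nat.le_succ w.length) (H.recu a w)
    have h2 : f a * y w ∈ W K y (w.length + 1) := mul_mem_W (H.fK a) (mem_W (Nat.lt_succ_self _))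
    have h3 := (W K y (w.length + 1)).add_mem h1 h2
    rwa [sub_add_cancel] at h3

lemma Hyp.W_stable (H : Hyp K y σ f k) (t : ℕ) {z : R} (hz : z ∈ W K y t) : σ z ∈ W K y t := by
  unfold W at hz
  induction hz using Submodule.span_induction with
  | mem x hx =>
    obtain ⟨w, hw, rfl⟩ := hx
    have hw' : w.length < t := hw
    have h1 := W_mono (K := K) (y := y) hw'.le (H.step w)
    have h2 := (W K y t).add_mem h1 (mem_W hw')
    rwa [sub_add_cancel] at h2
  | zero => rw [map_zero]; exact (W K y t).zero_mem
  | add x x' _ _ hx hx' => rw [map_add]; exact (W K y t).add_mem hx hx'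
  | smul c x _ hx =>
    rw [Subring.smul_def, smul_eq_mul, map_mul]
    exact mul_mem_W (H.stable _ c.2) hx

/-- words of length `t` are independent modulo shorter words -/
theorem Hyp.indep_mod (H : Hyp K y σ f k) (t : ℕ) : ∀ (T : Finset (List ι)) (c : List ι → R),
    (∀ w ∈ T, w.length = t) → (∀ w, c w ∈ K) → ∑ w ∈ T, c w * y w ∈ W K y t →
    ∀ w ∈ T, c w = 0 := by
  classical
  induction t with
  | zero =>
    intro T c hT hc hsum w hw
    have h1 : W K y 0 = ⊥ := by
      unfold W
      rw [Submodule.span_eq_bot]
      rintro x ⟨w, hw, -⟩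
      exact absurd hw (Nat.not_lt_zero _)
    rw [h1, Submodule.mem_bot] at hsum
    have h2 : ∀ v ∈ T, v = [] := fun v hv => List.length_eq_zero_iff.1 (hT v hv)
    have hw0 := h2 w hw
    subst hw0
    rw [Finset.sum_eq_single_of_mem [] hw (fun v hv hne => absurd (h2 v hv) hne), H.nil, mul_one]
      at hsum
    exact hsum
  | succ t ih =>
    intro T
    induction hn : T.card generalizing T with
    | zero =>
      intro c _ _ _ w hw
      rw [Finset.card_eq_zero] at hn
      rw [hn] at hw
      simp at hw
    | succ n ihn =>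
      intro c hT hc hsum
      by_contra hcon
      push Not at hcon
      obtain ⟨w0, hw0, hc0⟩ := hcon
      obtain ⟨ci, hciK, hci⟩ := H.inv _ (hc w0) hc0
      set e : List ι → R := fun w => ci * c w with he
      have heK : ∀ w, e w ∈ K := fun w => K.mul_mem hciK (hc w)
      have he0 : e w0 = 1 := by rw [he]; simp only; rw [mul_comm, hci]
      set z : R := ∑ w ∈ T, e w * y w with hz
      have hzW : z ∈ W K y (t + 1) := by
        have h1 : z = ci * ∑ w ∈ T, c w * y w := by
          rw [hz, Finset.mul_sum]
          exact Finset.sum_congr rfl fun w _ => by rw [he]; ring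
        rw [h1]
        exact mul_mem_W hciK hsum
      -- the coefficients are constant
      have hy1 : ∀ w ∈ T, σ (y w) - y w ∈ W K y (t + 1) := by
        intro w hw
        have := H.step w
        rwa [hT w hw] at this
      have hcst : ∀ w ∈ T, σ (e w) = e w := by
        have h1 : ∑ w ∈ T, (σ (e w) - e w) * y w ∈ W K y (t + 1) := by
          have h2 : ∑ w ∈ T, (σ (e w) - e w) * y w =
              σ z - z - ∑ w ∈ T, σ (e w) * (σ (y w) - y w) := by
            rw [hz, map_sum, ← Finset.sum_sub_distrib, ← Finset.sum_sub_distrib]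
            refine Finset.sum_congr rfl fun w _ => ?_
            rw [map_mul σ (e w) (y w)]
            ring
          rw [h2]
          refine (W K y _).sub_mem ((W K y _).sub_mem (H.W_stable _ hzW) hzW) ?_
          exact (W K y _).sum_mem fun w hw => mul_mem_W (H.stable _ (heK w)) (hy1 w hw)
        rw [← Finset.add_sum_erase T _ hw0, he0, map_one, sub_self, zero_mul, zero_add] at h1
        intro w hw
        by_cases hww : w = w0
        · rw [hww, he0, map_one]
        · have h2 := ihn (T.erase w0) (by rw [Finset.card_erase_of_mem hw0, hn]; rfl)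
            (fun w => σ (e w) - e w) (fun w hw => hT w (Finset.mem_of_mem_erase hw))
            (fun w => K.sub_mem (H.stable _ (heK w)) (heK w)) h1 w (Finset.mem_erase.2 ⟨hww, hw⟩)
          exact sub_eq_zero.1 h2
      have hq : ∀ w, ∃ q : ℚ, w ∈ T → e w = k q := by
        intro w
        by_cases hw : w ∈ T
        · obtain ⟨q, hq⟩ := H.const _ (heK w) (hcst w hw)
          exact ⟨q, fun _ => hq⟩
        · exact ⟨0, fun h => absurd h hw⟩
      choose q hq using hq
      -- the next layer
      obtain ⟨V, d, ω, hV, hdK, hω, hzd⟩ := W_succ hzW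
      have hsplit : ∀ w ∈ T, ∃ a v, w = a :: v ∧ v.length = t := by
        intro w hw
        have h1 := hT w hw
        cases w with
        | nil => simp at h1
        | cons a v => exact ⟨a, v, rfl, by simpa using h1⟩
      obtain ⟨a0, v0, hav, hv0⟩ := hsplit w0 hw0
      set g : List ι → R := fun w => match w with
        | [] => 0
        | a :: _ => e w * f a with hg
      have hgK : ∀ w, g w ∈ K := by
        intro w
        cases w with
        | nil => exact K.zero_mem
        | cons a v => exact K.mul_mem (heK _) (H.fK a)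
      have hA : σ z - z - ∑ w ∈ T, g w * y w.tail ∈ W K y t := by
        have h1 : σ z - z - ∑ w ∈ T, g w * y w.tail =
            ∑ w ∈ T, (e w * (σ (y w) - y w) - g w * y w.tail) := by
          rw [hz, map_sum, ← Finset.sum_sub_distrib, ← Finset.sum_sub_distrib]
          refine Finset.sum_congr rfl fun w hw => ?_
          rw [map_mul σ (e w) (y w), hcst w hw]
          ring
        rw [h1]
        refine (W K y t).sum_mem fun w hw => ?_
        obtain ⟨a, v, rfl, hv⟩ := hsplit w hw
        have h2 : e (a :: v) * (σ (y (a :: v)) - y (a :: v)) - g (a :: v) * y (a :: v).tail =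
            e (a :: v) * (σ (y (a :: v)) - y (a :: v) - f a * y v) := by
          rw [hg]
          simp only [List.tail_cons]
          ring
        rw [h2, ← hv]
        exact mul_mem_W (heK _) (H.recu a v)
      have hB : σ z - z - ∑ v ∈ V, (σ (d v) - d v) * y v ∈ W K y t := by
        have h1 : σ z - z - ∑ v ∈ V, (σ (d v) - d v) * y v =
            ∑ v ∈ V, σ (d v) * (σ (y v) - y v) + (σ ω - ω) := by
          rw [hzd, map_add, map_sum]
          have h2 : ∑ v ∈ V, σ (d v) * (σ (y v) - y v) = ∑ v ∈ V, σ (d v * y v) -
              ∑ v ∈ V, d v * y v - ∑ v ∈ V, (σ (d v) - d v) * y v := by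
            rw [← Finset.sum_sub_distrib, ← Finset.sum_sub_distrib]
            refine Finset.sum_congr rfl fun v _ => ?_
            rw [map_mul σ (d v) (y v)]
            ring
          rw [h2]
          ring
        rw [h1]
        refine (W K y t).add_mem ((W K y t).sum_mem fun v hv => ?_)
          ((W K y t).sub_mem (H.W_stable _ hω) hω)
        have h2 := H.step v
        rw [hV v hv] at h2
        exact mul_mem_W (H.stable _ (hdK v)) h2
      have hC := (W K y t).sub_mem hA hB
      have hD : σ z - z - ∑ w ∈ T, g w * y w.tail - (σ z - z - ∑ v ∈ V, (σ (d v) - d v) * y v) =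
          ∑ v ∈ V ∪ T.image List.tail, ((if v ∈ V then σ (d v) - d v else 0) -
            ∑ w ∈ T with w.tail = v, g w) * y v := by
        simp only [sub_mul, Finset.sum_sub_distrib]
        have e1 : ∑ v ∈ V ∪ T.image List.tail, (if v ∈ V then σ (d v) - d v else 0) * y v =
            ∑ v ∈ V, (σ (d v) - d v) * y v := by
          simp only [ite_mul, zero_mul]
          rw [Finset.sum_ite_mem, Finset.union_inter_cancel_left]
        have e2 : ∑ v ∈ V ∪ T.image List.tail, (∑ w ∈ T with w.tail = v, g w) * y v =
            ∑ w ∈ T, g w * y w.tail := by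
          rw [← Finset.sum_fiberwise_of_maps_to (s := T) (t := V ∪ T.image List.tail)
            (g := List.tail) (fun w hw => Finset.mem_union_right _ (Finset.mem_image_of_mem _ hw))]
          refine Finset.sum_congr rfl fun v _ => ?_
          rw [Finset.sum_mul]
          refine Finset.sum_congr rfl fun w hw => ?_
          rw [(Finset.mem_filter.1 hw).2]
        rw [e1, e2]
        simp only [sub_mul, Finset.sum_sub_distrib]
        ring
      rw [hD] at hC
      have hE := ih _ _ (by
        intro v hv
        rcases Finset.mem_union.1 hv with h | h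
        · exact hV v h
        · obtain ⟨w, hw, rfl⟩ := Finset.mem_image.1 h
          obtain ⟨a, v', rfl, hv'⟩ := hsplit w hw
          exact hv') (by
        intro v
        refine K.sub_mem ?_ (K.sum_mem fun w _ => hgK w)
        split_ifs
        · exact K.sub_mem (H.stable _ (hdK v)) (hdK v)
        · exact K.zero_mem) hC v0 (Finset.mem_union_right _
          (Finset.mem_image.2 ⟨w0, hw0, by rw [hav]; rfl⟩))
      -- contradiction with `tel`
      set r : R := if v0 ∈ V then d v0 else 0 with hr
      have hrK : r ∈ K := by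
        rw [hr]
        split_ifs
        · exact hdK v0
        · exact K.zero_mem
      have hr2 : σ r - r = ∑ w ∈ T with w.tail = v0, g w := by
        rw [← sub_eq_zero.1 hE, hr]
        split_ifs <;> simp
      have hinj : ∀ a : ι, (a :: v0).tail = v0 := fun a => rfl
      set A : Finset ι := (T.filter fun w => w.tail = v0).biUnion fun w => w.head?.toFinset with hAdef
      have hmemA : ∀ a, a ∈ A ↔ a :: v0 ∈ T := by
        intro a
        rw [hAdef, Finset.mem_biUnion]
        constructor
        · rintro ⟨w, hw, ha⟩
          obtain ⟨h1, h2⟩ := Finset.mem_filter.1 hw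
          obtain ⟨b, v, rfl, -⟩ := hsplit w h1
          simp only [List.head?_cons, Option.mem_toFinset, Option.mem_some_iff] at ha
          simp only [List.tail_cons] at h2
          rw [← ha, ← h2]
          exact h1
        · intro h
          exact ⟨a :: v0, Finset.mem_filter.2 ⟨h, rfl⟩, by simp⟩
      have hr3 : ∑ w ∈ T with w.tail = v0, g w = ∑ a ∈ A, k (q (a :: v0)) * f a := by
        symm
        refine Finset.sum_bij (fun a _ => a :: v0) ?_ ?_ ?_ ?_
        · intro a ha
          exact Finset.mem_filter.2 ⟨(hmemA a).1 ha, rfl⟩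
        · intro a _ b _ hab
          exact (List.cons.inj hab).1
        · intro w hw
          obtain ⟨h1, h2⟩ := Finset.mem_filter.1 hw
          obtain ⟨b, v, rfl, -⟩ := hsplit w h1
          simp only [List.tail_cons] at h2
          subst h2
          exact ⟨b, (hmemA b).2 h1, rfl⟩
        · intro a ha
          rw [hg]
          simp only
          rw [hq _ ((hmemA a).1 ha)]
      refine H.tel A (fun a => q (a :: v0)) ⟨a0, (hmemA a0).2 (by rw [← hav]; exact hw0), ?_⟩ r hrK
        (hr2.trans hr3)
      intro h0
      have h1 := hq w0 hw0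
      rw [he0, hav, h0, map_zero] at h1
      exact H.nontriv h1

/-- **Linear independence.** -/
theorem Hyp.indep (H : Hyp K y σ f k) (t : ℕ) : ∀ (T : Finset (List ι)) (c : List ι → R),
    (∀ w ∈ T, w.length < t) → (∀ w, c w ∈ K) → ∑ w ∈ T, c w * y w = 0 → ∀ w ∈ T, c w = 0 := by
  classical
  induction t with
  | zero => intro T c hT _ _ w hw; exact absurd (hT w hw) (Nat.not_lt_zero _)
  | succ t ih =>
    intro T c hT hc hsum
    rw [← Finset.sum_filter_add_sum_filter_not T (fun w => w.length = t)] at hsum
    have h1 : ∀ w ∈ T.filter (fun w => w.length = t), c w = 0 := by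
      refine H.indep_mod t _ c (fun w hw => (Finset.mem_filter.1 hw).2) hc ?_
      rw [eq_neg_of_add_eq_zero_left hsum]
      refine (W K y t).neg_mem ((W K y t).sum_mem fun w hw => mul_mem_W (hc w) (mem_W ?_))
      obtain ⟨h2, h3⟩ := Finset.mem_filter.1 hw
      have := hT w h2
      omega
    rw [Finset.sum_eq_zero fun w hw => by rw [h1 w hw, zero_mul], zero_add] at hsum
    have h2 := ih _ c (fun w hw => by
      obtain ⟨h2, h3⟩ := Finset.mem_filter.1 hw
      have := hT w h2
      omega) hc hsum
    intro w hw
    by_cases h3 : w.length = t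
    · exact h1 w (Finset.mem_filter.2 ⟨hw, h3⟩)
    · exact h2 w (Finset.mem_filter.2 ⟨hw, h3⟩)

end Pool.Agent.TH507.HS
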