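import Mathlib

/-!
# Rational functions do not telescope to sums of negative powers

The `p`-adic argument.
-/

set_option autoImplicit false

namespace Pool.Agent.TH507.HS

open Polynomial

/-- values of integer polynomials at natural numbers -/
def ev (P : ℤ[X]) (x : ℕ) : ℚ := ((P.eval (x : ℤ) : ℤ) : ℚ)

lemma ev_ne_zero {Q : ℤ[X]} (hQ : Q ≠ 0) : ∃ B : ℕ, ∀ x, B ≤ x → Q.eval (x : ℤ) ≠ 0 := by
  by_contra hcon
  push Not at hcon
  apply hQ
  apply Polynomial.eq_zero_of_infinite_isRoot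
  have h1 : Set.Infinite {x : ℕ | Q.eval (x : ℤ) = 0} := by
    rw [Set.infinite_iff_exists_gt]
    intro a
    obtain ⟨x, h2, h3⟩ := hcon (a + 1)
    exact ⟨x, h3, by omega⟩
  refine (h1.image (f := fun x : ℕ => (x : ℤ)) ?_).mono ?_
  · intro x _ x' _ h
    have h' : (x : ℤ) = x' := h
    exact_mod_cast h'
  · rintro _ ⟨x, hx, rfl⟩
    exact hx

section padic

variable (p : ℕ) [hp : Fact p.Prime]

lemma norm_int_one {z : ℤ} (hz : z ≠ 0) (h : z.natAbs < p) : padicNorm p (z : ℚ) = 1 := by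
  rw [padicNorm.int_eq_one_iff]
  intro hd
  have h1 : p ∣ z.natAbs := Int.natCast_dvd.1 hd
  have h2 := Nat.le_of_dvd (Int.natAbs_pos.2 hz) h1
  omega

lemma norm_rat_one {c : ℚ} (hc : c ≠ 0) (h : c.num.natAbs < p) (h' : c.den < p) :
    padicNorm p c = 1 := by
  have h1 : c = (c.num : ℚ) / ((c.den : ℤ) : ℚ) := by
    exact_mod_cast (Rat.num_div_den c).symm
  rw [h1, padicNorm.div, norm_int_one p (Rat.num_ne_zero.2 hc) h, norm_int_one p
    (by exact_mod_cast c.den_ne_zero) (by simpa using h'), div_one]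

lemma norm_pow' (x : ℚ) (a : ℕ) : padicNorm p (x ^ a) = padicNorm p x ^ a := by
  induction a with
  | zero => simp
  | succ a ih => rw [pow_succ, padicNorm.mul, ih, pow_succ]

lemma norm_inv_pow {i : ℕ} (hi : ¬ p ∣ i) (a : ℕ) : padicNorm p ((1 / (i : ℚ)) ^ a) = 1 := by
  have h1 : padicNorm p (i : ℚ) = 1 := (padicNorm.nat_eq_one_iff i).2 hi
  rw [norm_pow', padicNorm.div, h1, padicNorm.one]
  simp

lemma norm_p_inv (a : ℕ) : padicNorm p ((1 / (p : ℚ)) ^ a) = (p : ℚ) ^ a := by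
  rw [norm_pow', padicNorm.div, padicNorm.padicNorm_p_of_prime, padicNorm.one]
  simp

/-- the sums of powers are not `p`-integral -/
lemma sum_big (A : Finset ℕ+) (hA : A.Nonempty) (c : ℕ+ → ℚ) (hc : ∀ a ∈ A, padicNorm p (c a) = 1)
    (I : Finset ℕ) (hpI : p ∈ I) (hI : ∀ i ∈ I, i ≠ p → ¬ p ∣ i) :
    1 < padicNorm p (∑ a ∈ A, c a * ∑ i ∈ I, (1 / (i : ℚ)) ^ (a : ℕ)) := by
  classical
  set b : ℕ+ := A.max' hA with hb
  have hbA : b ∈ A := A.max'_mem hA
  have hp1 : (1 : ℚ) < p := by exact_mod_cast hp.out.one_lt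
  have hb1 : 1 ≤ (b : ℕ) := b.pos
  by_contra hcon
  push Not at hcon
  have hx : ∑ a ∈ A, c a * ∑ i ∈ I, (1 / (i : ℚ)) ^ (a : ℕ) =
      c b * (1 / (p : ℚ)) ^ (b : ℕ) + (∑ a ∈ A.erase b, c a * (1 / (p : ℚ)) ^ (a : ℕ) +
        ∑ a ∈ A, c a * ∑ i ∈ I.erase p, (1 / (i : ℚ)) ^ (a : ℕ)) := by
    rw [← add_assoc, Finset.add_sum_erase A (fun a => c a * (1 / (p : ℚ)) ^ (a : ℕ)) hbA,
      ← Finset.sum_add_distrib]
    refine Finset.sum_congr rfl fun a _ => ?_
    rw [← mul_add, Finset.add_sum_erase I (fun i => (1 / (i : ℚ)) ^ (a : ℕ)) hpI]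
  set x := ∑ a ∈ A, c a * ∑ i ∈ I, (1 / (i : ℚ)) ^ (a : ℕ)
  set y := ∑ a ∈ A.erase b, c a * (1 / (p : ℚ)) ^ (a : ℕ) +
        ∑ a ∈ A, c a * ∑ i ∈ I.erase p, (1 / (i : ℚ)) ^ (a : ℕ)
  have hone : (1 : ℚ) ≤ (p : ℚ) ^ ((b : ℕ) - 1) := one_le_pow₀ hp1.le
  have hy : padicNorm p y ≤ (p : ℚ) ^ ((b : ℕ) - 1) := by
    refine padicNorm.nonarchimedean.trans (max_le ?_ ?_)
    · refine padicNorm.sum_le' (fun a ha => ?_) (by linarith)
      obtain ⟨h1, h2⟩ := Finset.mem_erase.1 ha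
      rw [padicNorm.mul, hc a h2, one_mul, norm_p_inv]
      refine pow_le_pow_right₀ hp1.le ?_
      have h3 : a ≤ b := A.le_max' a h2
      have h4 : a < b := lt_of_le_of_ne h3 h1
      have h5 : (a : ℕ) < b := h4
      omega
    · refine padicNorm.sum_le' (fun a ha => ?_) (by linarith)
      rw [padicNorm.mul, hc a ha, one_mul]
      refine padicNorm.sum_le' (fun i hi => ?_) (by linarith)
      obtain ⟨h1, h2⟩ := Finset.mem_erase.1 hi
      rw [norm_inv_pow p (hI i h2 h1)]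
      exact hone
  have h1 : padicNorm p (c b * (1 / (p : ℚ)) ^ (b : ℕ)) = (p : ℚ) ^ (b : ℕ) := by
    rw [padicNorm.mul, hc b hbA, one_mul, norm_p_inv]
  have h2 : c b * (1 / (p : ℚ)) ^ (b : ℕ) = x - y := by rw [hx]; ring
  rw [h2] at h1
  have h3 : padicNorm p (x - y) ≤ (p : ℚ) ^ ((b : ℕ) - 1) :=
    padicNorm.sub.trans (max_le (hcon.trans hone) hy)
  rw [h1] at h3
  have h4 : (p : ℚ) ^ ((b : ℕ) - 1) < (p : ℚ) ^ (b : ℕ) := pow_lt_pow_right₀ hp1 (by omega)
  linarith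

end padic

/-- no rational function telescopes to a sum of negative powers -/
lemma no_tel (N : ℕ) (hN : 1 ≤ N) (A : Finset ℕ+) (c : ℕ+ → ℚ) (hc : ∃ a ∈ A, c a ≠ 0)
    (P Q : ℤ[X]) (hQ : Q ≠ 0) (m0 : ℕ)
    (hrel : ∀ m, m0 ≤ m → ev P (1 + N * (m + 1)) / ev Q (1 + N * (m + 1)) -
      ev P (1 + N * m) / ev Q (1 + N * m) =
        ∑ a ∈ A, c a * ∑ j ∈ Finset.range N, (1 / ((1 + N * m + j : ℕ) : ℚ)) ^ (a : ℕ)) : False := by
  classical
  set A' := A.filter fun a => c a ≠ 0 with hA'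
  have hA'n : A'.Nonempty := by
    obtain ⟨a, h1, h2⟩ := hc
    exact ⟨a, Finset.mem_filter.2 ⟨h1, h2⟩⟩
  obtain ⟨S0, hS0⟩ := ev_ne_zero hQ
  set m1 := m0 + S0 with hm1
  have htel : ∀ r : ℕ, ev P (1 + N * (m1 + r)) / ev Q (1 + N * (m1 + r)) -
      ev P (1 + N * m1) / ev Q (1 + N * m1) =
        ∑ a ∈ A', c a * ∑ i ∈ Finset.Ico (1 + N * m1) (1 + N * (m1 + r)), (1 / (i : ℚ)) ^ (a : ℕ) := by
    intro r
    induction r with
    | zero => simp
    | succ r ih =>
      have h1 := hrel (m1 + r) (by omega)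
      have h2 : ∑ a ∈ A, c a * ∑ j ∈ Finset.range N,
          (1 / ((1 + N * (m1 + r) + j : ℕ) : ℚ)) ^ (a : ℕ) = ∑ a ∈ A', c a *
            ∑ j ∈ Finset.range N, (1 / ((1 + N * (m1 + r) + j : ℕ) : ℚ)) ^ (a : ℕ) := by
        rw [hA', Finset.sum_filter]
        refine Finset.sum_congr rfl fun a _ => ?_
        split_ifs with h
        · rfl
        · rw [not_not] at h
          rw [h, zero_mul]
      rw [h2] at h1
      have h3 : ∀ a : ℕ+, ∑ i ∈ Finset.Ico (1 + N * m1) (1 + N * (m1 + (r + 1))),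
          (1 / (i : ℚ)) ^ (a : ℕ) = ∑ i ∈ Finset.Ico (1 + N * m1) (1 + N * (m1 + r)),
          (1 / (i : ℚ)) ^ (a : ℕ) + ∑ j ∈ Finset.range N,
            (1 / ((1 + N * (m1 + r) + j : ℕ) : ℚ)) ^ (a : ℕ) := by
        intro a
        rw [← Finset.sum_Ico_consecutive _ (show 1 + N * m1 ≤ 1 + N * (m1 + r) by
          have : N * m1 ≤ N * (m1 + r) := Nat.mul_le_mul_left _ (by omega)
          omega) (show 1 + N * (m1 + r) ≤ 1 + N * (m1 + (r + 1)) by
          have : N * (m1 + r) ≤ N * (m1 + (r + 1)) := Nat.mul_le_mul_left _ (by omega)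
          omega), Finset.sum_Ico_eq_sum_range _ (1 + N * (m1 + r))]
        congr 2
        have : N * (m1 + (r + 1)) = N * (m1 + r) + N := by ring
        rw [this]
        congr 1
        omega
      rw [show m1 + r + 1 = m1 + (r + 1) by ring] at h1
      rw [Finset.sum_congr rfl fun a _ => by rw [h3 a, mul_add], Finset.sum_add_distrib, ← ih, ← h1]
      ring
  -- the prime
  obtain ⟨p, hpbig, hp⟩ := Nat.exists_infinite_primes (1 + N * m1 + (S0 + N) +
    (Q.eval ((1 + N * m1 : ℕ) : ℤ)).natAbs +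
    ∑ s ∈ Finset.range (S0 + N + 1), (Q.eval (s : ℤ)).natAbs +
    ∑ a ∈ A', ((c a).num.natAbs + (c a).den) + 1)
  have : Fact p.Prime := ⟨hp⟩
  set M := (p + S0 + N - 1) / N with hM
  have hM1 : N * M ≤ p + S0 + N - 1 := Nat.mul_div_le _ _
  have hM2 : p + S0 + N - 1 < N * M + N := by
    have := Nat.lt_mul_div_succ (p + S0 + N - 1) (show 0 < N by omega)
    rw [mul_add, mul_one] at this
    exact this
  have hMm : m1 ≤ M := by
    by_contra h
    push Not at h
    have : N * M ≤ N * m1 := Nat.mul_le_mul_left _ h.le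
    omega
  obtain ⟨r, hr⟩ := Nat.exists_eq_add_of_le hMm
  have h1 := htel r
  rw [← hr] at h1
  set k := 1 + N * M with hk
  set s := k - p with hs
  have hks : k = s + p := by omega
  have hs1 : S0 ≤ s := by omega
  have hs2 : s < S0 + N + 1 := by omega
  have hk2 : k < 2 * p := by omega
  -- the left-hand side is integral
  have hnQ1 : padicNorm p (ev Q (1 + N * m1)) = 1 := by
    refine norm_int_one p (hS0 _ ?_) (by omega)
    have : 1 * m1 ≤ N * m1 := Nat.mul_le_mul_right _ hN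
    omega
  have hQs : (Q.eval (s : ℤ)).natAbs < p := by
    have := Finset.single_le_sum (f := fun s : ℕ => (Q.eval (s : ℤ)).natAbs)
      (fun _ _ => Nat.zero_le _) (Finset.mem_range.2 hs2)
    omega
  have hnQ2 : padicNorm p (ev Q k) = 1 := by
    have h2 : padicNorm p ((Q.eval (s : ℤ) : ℤ) : ℚ) = 1 := norm_int_one p (hS0 _ hs1) hQs
    rw [padicNorm.int_eq_one_iff] at h2
    rw [ev, padicNorm.int_eq_one_iff]
    intro h3
    apply h2
    have h4 := Polynomial.sub_dvd_eval_sub (k : ℤ) (s : ℤ) Q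
    have h5 : ((k : ℤ) - (s : ℤ)) = p := by omega
    rw [h5] at h4
    have h6 := dvd_sub h3 h4
    rwa [sub_sub_cancel] at h6
  have hint : ∀ P : ℤ[X], ∀ x : ℕ, padicNorm p (ev P x) ≤ 1 := fun P x => padicNorm.of_int _
  have hL : padicNorm p (ev P k / ev Q k - ev P (1 + N * m1) / ev Q (1 + N * m1)) ≤ 1 := by
    refine padicNorm.sub.trans (max_le ?_ ?_)
    · rw [padicNorm.div, hnQ2, div_one]
      exact hint _ _
    · rw [padicNorm.div, hnQ1, div_one]
      exact hint _ _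
  rw [h1] at hL
  -- the right-hand side is not
  have hR := sum_big p A' hA'n c (fun a ha => by
    have h2 := Finset.single_le_sum (f := fun a : ℕ+ => (c a).num.natAbs + (c a).den)
      (fun _ _ => Nat.zero_le _) ha
    exact norm_rat_one p (Finset.mem_filter.1 ha).2 (by omega) (by omega))
    (Finset.Ico (1 + N * m1) k) (Finset.mem_Ico.2 ⟨by omega, by omega⟩) (by
      intro i hi hne hd
      rw [Finset.mem_Ico] at hi
      obtain ⟨q, rfl⟩ := hd
      rcases q with _ | _ | q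
      · omega
      · omega
      · have : p * 2 ≤ p * (q + 1 + 1) := Nat.mul_le_mul_left _ (by omega)
        omega)
  exact absurd hL (not_le.2 hR)

end Pool.Agent.TH507.HS
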