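import Mathlib
import Pool.Agent.TH507.ZS.HSa
import Pool.Agent.TH507.ZS.HSp

/-!
# Multiple harmonic sums are linearly independent over the rational functions on progressions
-/

set_option autoImplicit false

namespace Pool.Agent.TH507.HS

open Polynomial Filter Topology

/-- multiple harmonic sums: `hs [a_1, ..., a_r] k` is the sum of `∏ 1 / n_i ^ (a_i)` over
`k > n_1 > ... > n_r ≥ 1` -/
def hs : List ℕ+ → ℕ → ℚ
  | [], _ => 1
  | a :: l, k => ∑ j ∈ Finset.Ico 1 k, hs l j / (j : ℚ) ^ (a : ℕ)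

lemma hs_nil (k : ℕ) : hs [] k = 1 := by rw [hs]

lemma hs_cons (a : ℕ+) (l : List ℕ+) (k : ℕ) :
    hs (a :: l) k = ∑ j ∈ Finset.Ico 1 k, hs l j / (j : ℚ) ^ (a : ℕ) := by rw [hs]

lemma hs_succ (a : ℕ+) (l : List ℕ+) {k : ℕ} (hk : 1 ≤ k) :
    hs (a :: l) (k + 1) = hs (a :: l) k + hs l k / (k : ℚ) ^ (a : ℕ) := by
  rw [hs_cons, hs_cons, Finset.sum_Ico_succ_top hk]

/-- germs at infinity -/
abbrev AA := Germ (atTop : Filter ℕ) ℚ

/-- the germ of a sequence -/
def gr (f : ℕ → ℚ) : AA := (f : Germ (atTop : Filter ℕ) ℚ)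

lemma gr_eq {f g : ℕ → ℚ} : gr f = gr g ↔ ∀ᶠ m in atTop, f m = g m := Germ.coe_eq
lemma gr_add (f g : ℕ → ℚ) : gr f + gr g = gr (fun m => f m + g m) := rfl
lemma gr_sub (f g : ℕ → ℚ) : gr f - gr g = gr (fun m => f m - g m) := rfl
lemma gr_mul (f g : ℕ → ℚ) : gr f * gr g = gr (fun m => f m * g m) := rfl
lemma gr_neg (f : ℕ → ℚ) : - gr f = gr (fun m => - f m) := rfl
lemma gr_zero : gr (fun _ => 0) = 0 := rfl
lemma gr_one : gr (fun _ => 1) = 1 := rfl

lemma gr_surj (g : AA) : ∃ f, gr f = g := by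
  induction g using Germ.inductionOn with
  | _ f => exact ⟨f, rfl⟩

lemma gr_pow (f : ℕ → ℚ) (a : ℕ) : gr f ^ a = gr (fun m => f m ^ a) := by
  induction a with
  | zero => rw [pow_zero, ← gr_one]; congr 1; funext m; rw [pow_zero]
  | succ a ih =>
    rw [pow_succ, ih, gr_mul]
    congr 1
    funext m
    rw [pow_succ]

lemma gr_sum {ι : Type*} (A : Finset ι) (f : ι → ℕ → ℚ) :
    gr (fun m => ∑ i ∈ A, f i m) = ∑ i ∈ A, gr (f i) := by
  classical
  induction A using Finset.induction_on with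
  | empty => simp [gr_zero]
  | insert x A hx ih =>
    rw [Finset.sum_insert hx, ← ih, gr_add]
    congr 1
    funext m
    rw [Finset.sum_insert hx]

/-- the shift -/
def sig : AA →+* AA where
  toFun g := g.compTendsto (fun m => m + 1) (tendsto_add_atTop_nat 1)
  map_one' := rfl
  map_zero' := rfl
  map_mul' x y := by
    obtain ⟨f, rfl⟩ := gr_surj x
    obtain ⟨g, rfl⟩ := gr_surj y
    rfl
  map_add' x y := by
    obtain ⟨f, rfl⟩ := gr_surj x
    obtain ⟨g, rfl⟩ := gr_surj y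
    rfl

lemma sig_gr (f : ℕ → ℚ) : sig (gr f) = gr (fun m => f (m + 1)) := rfl

/-- constants -/
def kq : ℚ →+* AA where
  toFun q := gr fun _ => q
  map_one' := rfl
  map_zero' := rfl
  map_mul' _ _ := rfl
  map_add' _ _ := rfl

lemma kq_apply (q : ℚ) : kq q = gr fun _ => q := rfl

lemma ev_one (x : ℕ) : ev 1 x = 1 := by simp [ev]
lemma ev_zero (x : ℕ) : ev 0 x = 0 := by simp [ev]
lemma ev_add (P Q : ℤ[X]) (x : ℕ) : ev (P + Q) x = ev P x + ev Q x := by simp [ev]
lemma ev_mul (P Q : ℤ[X]) (x : ℕ) : ev (P * Q) x = ev P x * ev Q x := by simp [ev]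
lemma ev_neg (P : ℤ[X]) (x : ℕ) : ev (-P) x = - ev P x := by simp [ev]

section

variable (N : ℕ) (hN : 1 ≤ N)

include hN in
lemma ev_ne {Q : ℤ[X]} (hQ : Q ≠ 0) : ∀ᶠ m in atTop, ev Q (1 + N * m) ≠ 0 := by
  obtain ⟨B, hB⟩ := ev_ne_zero hQ
  filter_upwards [eventually_ge_atTop B] with m hm
  have h1 : 1 * m ≤ N * m := Nat.mul_le_mul_right _ hN
  have h2 := hB (1 + N * m) (by omega)
  rw [ev]
  exact_mod_cast h2

/-- the germs of rational functions of `1 + N m` -/
def KN (hN : 1 ≤ N) : Subring AA where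
  carrier := {g | ∃ P Q : ℤ[X], Q ≠ 0 ∧ g = gr fun m => ev P (1 + N * m) / ev Q (1 + N * m)}
  zero_mem' := ⟨0, 1, one_ne_zero, by
    rw [← gr_zero]
    congr 1
    funext m
    rw [ev_zero, zero_div]⟩
  one_mem' := ⟨1, 1, one_ne_zero, by
    rw [← gr_one]
    congr 1
    funext m
    rw [ev_one, div_one]⟩
  add_mem' := by
    rintro _ _ ⟨P, Q, hQ, rfl⟩ ⟨P', Q', hQ', rfl⟩
    refine ⟨P * Q' + Q * P', Q * Q', mul_ne_zero hQ hQ', ?_⟩
    rw [gr_add, gr_eq]
    filter_upwards [ev_ne N hN hQ, ev_ne N hN hQ'] with m h1 h2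
    rw [ev_add, ev_mul, ev_mul, ev_mul, div_add_div _ _ h1 h2]
  mul_mem' := by
    rintro _ _ ⟨P, Q, hQ, rfl⟩ ⟨P', Q', hQ', rfl⟩
    refine ⟨P * P', Q * Q', mul_ne_zero hQ hQ', ?_⟩
    rw [gr_mul]
    congr 1
    funext m
    rw [ev_mul, ev_mul, div_mul_div_comm]
  neg_mem' := by
    rintro _ ⟨P, Q, hQ, rfl⟩
    refine ⟨-P, Q, hQ, ?_⟩
    rw [gr_neg]
    congr 1
    funext m
    rw [ev_neg, neg_div]

/-- the germ of `1 / (1 + N m + j)` -/
def qj (j : ℕ) : AA := gr fun m => 1 / ((1 + N * m + j : ℕ) : ℚ)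

lemma qj_mem (j : ℕ) : qj N j ∈ KN N hN := by
  refine ⟨1, X + C (j : ℤ), ?_, ?_⟩
  · exact X_add_C_ne_zero _
  · rw [qj]
    congr 1
    funext m
    rw [ev_one]
    congr 1
    simp [ev]

/-- the words at `1 + N m + j` -/
def yj (j : ℕ) (w : List ℕ+) : AA := gr fun m => hs w (1 + N * m + j)

/-- the words at `1 + N m` -/
def yw (w : List ℕ+) : AA := gr fun m => hs w (1 + N * m)

lemma yj_zero (w : List ℕ+) : yj N 0 w = yw N w := rfl

lemma yj_nil (j : ℕ) : yj N j [] = 1 := by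
  rw [← gr_one, yj]
  congr 1

lemma yj_succ (j : ℕ) (a : ℕ+) (l : List ℕ+) :
    yj N (j + 1) (a :: l) = yj N j (a :: l) + qj N j ^ (a : ℕ) * yj N j l := by
  rw [yj, yj, yj, qj, gr_pow, gr_mul, gr_add]
  congr 1
  funext m
  rw [← add_assoc, hs_succ a l (by omega)]
  rw [one_div, inv_pow, div_eq_mul_inv, mul_comm (hs l _)]

lemma yj_sub (j : ℕ) (w : List ℕ+) : yj N j w - yw N w ∈ W (KN N hN) (yw N) w.length := by
  induction j generalizing w with
  | zero => rw [yj_zero, sub_self]; exact (W _ _ _).zero_mem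
  | succ j ih =>
    cases w with
    | nil =>
      rw [yj_nil, ← yj_zero, yj_nil, sub_self]
      exact (W _ _ _).zero_mem
    | cons a l =>
      rw [yj_succ, add_sub_right_comm]
      refine (W _ _ _).add_mem (ih (a :: l)) ?_
      refine mul_mem_W ((KN N hN).pow_mem (qj_mem N hN j) _) ?_
      have h1 := W_mono (K := KN N hN) (y := yw N) (Nat.le_succ l.length) (ih l)
      have h2 : yw N l ∈ W (KN N hN) (yw N) (l.length + 1) := mem_W (Nat.lt_succ_self _)
      have h3 := (W _ _ _).add_mem h1 h2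
      rwa [sub_add_cancel] at h3

lemma yj_tel (j : ℕ) (a : ℕ+) (l : List ℕ+) :
    yj N j (a :: l) = yw N (a :: l) + ∑ i ∈ Finset.range j, qj N i ^ (a : ℕ) * yj N i l := by
  induction j with
  | zero => rw [yj_zero]; simp
  | succ j ih => rw [yj_succ, ih, Finset.sum_range_succ, add_assoc]

/-- the letters -/
def fa (a : ℕ+) : AA := ∑ j ∈ Finset.range N, qj N j ^ (a : ℕ)

lemma sig_yw (w : List ℕ+) : sig (yw N w) = yj N N w := by
  rw [yw, sig_gr, yj]
  congr 1
  funext m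
  congr 1
  ring

theorem hyp : Hyp (KN N hN) (yw N) sig (fa N) kq where
  inv := by
    rintro _ ⟨P, Q, hQ, rfl⟩ hne
    have hP : P ≠ 0 := by
      rintro rfl
      apply hne
      rw [← gr_zero]
      congr 1
      funext m
      rw [ev_zero, zero_div]
    refine ⟨gr fun m => ev Q (1 + N * m) / ev P (1 + N * m), ⟨Q, P, hP, rfl⟩, ?_⟩
    rw [gr_mul, ← gr_one, gr_eq]
    filter_upwards [ev_ne N hN hQ, ev_ne N hN hP] with m h1 h2
    field_simp
  nontriv := by
    rw [← gr_one, ← gr_zero, Ne, gr_eq]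
    intro h
    obtain ⟨m, hm⟩ := h.exists
    exact one_ne_zero hm
  stable := by
    rintro _ ⟨P, Q, hQ, rfl⟩
    have hc : ∀ (P : ℤ[X]) (m : ℕ), ev (P.comp (X + C (N : ℤ))) (1 + N * m) =
        ev P (1 + N * (m + 1)) := by
      intro P m
      rw [ev, ev, eval_comp]
      congr 2
      simp
      ring
    refine ⟨P.comp (X + C (N : ℤ)), Q.comp (X + C (N : ℤ)), ?_, ?_⟩
    · intro h
      apply hQ
      have h1 : (Q.comp (X + C (N : ℤ))).comp (X - C (N : ℤ)) = Q := by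
        rw [comp_assoc]
        simp
      rw [← h1, h, zero_comp]
    · rw [sig_gr]
      congr 1
      funext m
      rw [hc, hc]
  fK := fun a => (KN N hN).sum_mem fun j _ => (KN N hN).pow_mem (qj_mem N hN j) _
  const := by
    intro x _ hx
    obtain ⟨F, rfl⟩ := gr_surj x
    rw [sig_gr, gr_eq, eventually_atTop] at hx
    obtain ⟨m0, hm0⟩ := hx
    refine ⟨F m0, ?_⟩
    rw [kq_apply, gr_eq]
    filter_upwards [eventually_ge_atTop m0] with m hm
    induction m, hm using Nat.le_induction with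
    | base => rfl
    | succ m hm ih => rw [hm0 m hm, ih]
  nil := by rw [← yj_zero, yj_nil]
  recu := by
    intro a w
    rw [sig_yw, yj_tel, fa, Finset.sum_mul]
    have h1 : yw N (a :: w) + ∑ i ∈ Finset.range N, qj N i ^ (a : ℕ) * yj N i w - yw N (a :: w) -
        ∑ j ∈ Finset.range N, qj N j ^ (a : ℕ) * yw N w =
        ∑ i ∈ Finset.range N, qj N i ^ (a : ℕ) * (yj N i w - yw N w) := by
      simp only [mul_sub, Finset.sum_sub_distrib]
      ring
    rw [h1]
    exact (W _ _ _).sum_mem fun i _ =>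
      mul_mem_W ((KN N hN).pow_mem (qj_mem N hN i) _) (yj_sub N hN i w)
  tel := by
    rintro A c hc _ ⟨P, Q, hQ, rfl⟩ hrel
    have h1 : ∑ a ∈ A, kq (c a) * fa N a = gr fun m => ∑ a ∈ A, c a *
        ∑ j ∈ Finset.range N, (1 / ((1 + N * m + j : ℕ) : ℚ)) ^ (a : ℕ) := by
      rw [gr_sum]
      refine Finset.sum_congr rfl fun a _ => ?_
      have h2 : fa N a = gr fun m => ∑ j ∈ Finset.range N,
          (1 / ((1 + N * m + j : ℕ) : ℚ)) ^ (a : ℕ) := by
        rw [gr_sum, fa]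
        exact Finset.sum_congr rfl fun j _ => gr_pow _ _
      rw [h2, kq_apply, gr_mul]
    rw [h1, sig_gr, gr_sub, gr_eq, eventually_atTop] at hrel
    obtain ⟨m0, hm0⟩ := hrel
    exact no_tel N hN A c hc P Q hQ m0 hm0

end

end Pool.Agent.TH507.HS
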