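import Mathlib
import Pool.Agent.TH507.ZS.HSp

/-!
# Rational functions do not telescope to periodic combinations of negative powers
-/

set_option autoImplicit false

namespace Pool.Agent.TH507.HS

open Polynomial

section padic

variable (p : ℕ) [hp : Fact p.Prime]

lemma norm_rat_le {c : ℚ} (h' : c.den < p) : padicNorm p c ≤ 1 := by
  have h1 : c = (c.num : ℚ) / ((c.den : ℤ) : ℚ) := by
    exact_mod_cast (Rat.num_div_den c).symm
  have h2 : padicNorm p ((c.den : ℤ) : ℚ) = 1 :=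
    norm_int_one p (by exact_mod_cast c.den_ne_zero) (by simpa using h')
  rw [h1, padicNorm.div, h2, div_one]
  exact padicNorm.of_int _

/-- the sums of powers with periodic coefficients are not `p`-integral -/
lemma sum_big2 (A : Finset ℕ+) (v : ℕ+ → ℕ → ℚ) (b : ℕ+) (hb : b ∈ A) (hA : ∀ a ∈ A, a ≤ b)
    (I : Finset ℕ) (hI1 : ∀ i ∈ I, 1 ≤ i) (T : ℕ) (hT : 1 ≤ T) (hTp : T < p) (hTI : T * p ∈ I)
    (hI : ∀ i ∈ I, i < (T + 1) * p) (hv : ∀ a ∈ A, ∀ i ∈ I, padicNorm p (v a i) ≤ 1)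
    (hv0 : ∀ t, 1 ≤ t → t < T → v b (t * p) = 0) (hvT : padicNorm p (v b (T * p)) = 1) :
    1 < padicNorm p (∑ a ∈ A, ∑ i ∈ I, v a i * (1 / (i : ℚ)) ^ (a : ℕ)) := by
  classical
  have hp1 : (1 : ℚ) < p := by exact_mod_cast hp.out.one_lt
  have hb1 : 1 ≤ (b : ℕ) := b.pos
  have hone : (1 : ℚ) ≤ (p : ℚ) ^ ((b : ℕ) - 1) := one_le_pow₀ hp1.le
  have hnt : ∀ t : ℕ, 1 ≤ t → t < p → ∀ a : ℕ,
      padicNorm p ((1 / ((t * p : ℕ) : ℚ)) ^ a) = (p : ℚ) ^ a := by
    intro t h1 h2 a
    have h3 : (1 / ((t * p : ℕ) : ℚ)) ^ a = (1 / (t : ℚ)) ^ a * (1 / (p : ℚ)) ^ a := by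
      rw [← mul_pow]
      congr 1
      push_cast
      rw [one_div, one_div, one_div, mul_inv]
    rw [h3, padicNorm.mul, norm_p_inv, norm_inv_pow p (fun hd => by
      have := Nat.le_of_dvd (by omega) hd
      omega), one_mul]
  by_contra hcon
  push Not at hcon
  rw [← Finset.sum_product'] at hcon
  have hmem : (b, T * p) ∈ A ×ˢ I := Finset.mem_product.2 ⟨hb, hTI⟩
  rw [← Finset.add_sum_erase _ _ hmem] at hcon
  simp only at hcon
  set y := ∑ z ∈ (A ×ˢ I).erase (b, T * p), v z.1 z.2 * (1 / (z.2 : ℚ)) ^ (z.1 : ℕ) with hy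
  have hyn : padicNorm p y ≤ (p : ℚ) ^ ((b : ℕ) - 1) := by
    refine padicNorm.sum_le' (fun z hz => ?_) (by linarith)
    obtain ⟨h1, h2⟩ := Finset.mem_erase.1 hz
    obtain ⟨a, i⟩ := z
    obtain ⟨h3, h4⟩ := Finset.mem_product.1 h2
    simp only at h3 h4 ⊢
    rw [padicNorm.mul]
    have h5 := hv a h3 i h4
    by_cases hd : p ∣ i
    · obtain ⟨t, ht⟩ := hd
      have ht' : i = t * p := by rw [ht, mul_comm]
      have h6 := hI i h4
      have h7 := hI1 i h4
      have h8 : 1 ≤ t := by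
        rcases Nat.eq_zero_or_pos t with h | h
        · rw [ht', h, zero_mul] at h7
          omega
        · exact h
      have h9 : t < T + 1 := by
        rw [ht'] at h6
        exact lt_of_mul_lt_mul_right h6 (Nat.zero_le _)
      by_cases hab : a = b
      · subst hab
        have h10 : t ≠ T := by
          rintro rfl
          exact h1 (by rw [ht'])
        rw [ht', hv0 t h8 (by omega)]
        simp only [padicNorm.zero, zero_mul]
        linarith
      · have h11 : a ≤ b := hA a h3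
        have h12 : a < b := lt_of_le_of_ne h11 hab
        have h13 : (a : ℕ) < b := h12
        rw [ht', hnt t h8 (by omega)]
        rw [ht'] at h5
        calc padicNorm p (v a (t * p)) * (p : ℚ) ^ (a : ℕ) ≤ 1 * (p : ℚ) ^ (a : ℕ) :=
              mul_le_mul_of_nonneg_right h5 (by positivity)
          _ ≤ (p : ℚ) ^ ((b : ℕ) - 1) := by
            rw [one_mul]
            exact pow_le_pow_right₀ hp1.le (by omega)
    · rw [norm_inv_pow p hd, mul_one]
      exact h5.trans hone
  have h1 : padicNorm p (v b (T * p) * (1 / ((T * p : ℕ) : ℚ)) ^ (b : ℕ)) = (p : ℚ) ^ (b : ℕ) := by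
    rw [padicNorm.mul, hvT, one_mul, hnt T hT hTp]
  have h2 : v b (T * p) * (1 / ((T * p : ℕ) : ℚ)) ^ (b : ℕ) =
      (v b (T * p) * (1 / ((T * p : ℕ) : ℚ)) ^ (b : ℕ) + y) - y := by ring
  rw [h2] at h1
  have h3 : padicNorm p ((v b (T * p) * (1 / ((T * p : ℕ) : ℚ)) ^ (b : ℕ) + y) - y) ≤
      (p : ℚ) ^ ((b : ℕ) - 1) := padicNorm.sub.trans (max_le (hcon.trans hone) hyn)
  rw [h1] at h3
  have h4 : (p : ℚ) ^ ((b : ℕ) - 1) < (p : ℚ) ^ (b : ℕ) := pow_lt_pow_right₀ hp1 (by omega)
  linarith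

end padic

/-- no rational function telescopes to a sum of negative powers with periodic coefficients -/
lemma no_tel2 (q N : ℕ) (hq : 1 ≤ q) (hN : 1 ≤ N) (A : Finset ℕ+) (v : ℕ+ → ℕ → ℚ)
    (hper : ∀ a n, v a (n + q) = v a n) (hv : ∃ a ∈ A, ∃ n, v a n ≠ 0)
    (P Q : ℤ[X]) (hQ : Q ≠ 0) (m0 : ℕ)
    (hrel : ∀ m, m0 ≤ m → ev P (1 + N * (m + 1)) / ev Q (1 + N * (m + 1)) -
      ev P (1 + N * m) / ev Q (1 + N * m) =
        ∑ a ∈ A, ∑ j ∈ Finset.range N, v a (1 + N * m + j) *
          (1 / ((1 + N * m + j : ℕ) : ℚ)) ^ (a : ℕ)) : False := by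
  classical
  have hperm : ∀ a n t, v a (n + q * t) = v a n := by
    intro a n t
    induction t with
    | zero => simp
    | succ t ih => rw [mul_add, mul_one, ← add_assoc, hper, ih]
  have hmod : ∀ a n n', n ≡ n' [MOD q] → v a n = v a n' := by
    intro a n n' h
    rcases le_total n n' with hle | hle
    · obtain ⟨t, ht⟩ := (Nat.modEq_iff_dvd' hle).1 h
      have : n' = n + q * t := by omega
      rw [this, hperm]
    · obtain ⟨t, ht⟩ := (Nat.modEq_iff_dvd' hle).1 h.symm
      have : n = n' + q * t := by omega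
      rw [this, hperm]
  set A' := A.filter fun a => ∃ n, v a n ≠ 0 with hA'
  have hA'n : A'.Nonempty := by
    obtain ⟨a, h1, h2⟩ := hv
    exact ⟨a, Finset.mem_filter.2 ⟨h1, h2⟩⟩
  set b : ℕ+ := A'.max' hA'n with hb
  have hbA : b ∈ A' := A'.max'_mem hA'n
  obtain ⟨nb, hnb⟩ := (Finset.mem_filter.1 hbA).2
  obtain ⟨S0, hS0⟩ := ev_ne_zero hQ
  set m1 := m0 + S0 with hm1
  have htel : ∀ r : ℕ, ev P (1 + N * (m1 + r)) / ev Q (1 + N * (m1 + r)) -
      ev P (1 + N * m1) / ev Q (1 + N * m1) =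
        ∑ a ∈ A', ∑ i ∈ Finset.Ico (1 + N * m1) (1 + N * (m1 + r)),
          v a i * (1 / (i : ℚ)) ^ (a : ℕ) := by
    intro r
    induction r with
    | zero => simp
    | succ r ih =>
      have h1 := hrel (m1 + r) (by omega)
      have h2 : ∑ a ∈ A, ∑ j ∈ Finset.range N, v a (1 + N * (m1 + r) + j) *
          (1 / ((1 + N * (m1 + r) + j : ℕ) : ℚ)) ^ (a : ℕ) = ∑ a ∈ A',
            ∑ j ∈ Finset.range N, v a (1 + N * (m1 + r) + j) *
              (1 / ((1 + N * (m1 + r) + j : ℕ) : ℚ)) ^ (a : ℕ) := by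
        rw [hA', Finset.sum_filter]
        refine Finset.sum_congr rfl fun a _ => ?_
        split_ifs with h
        · rfl
        · push Not at h
          exact Finset.sum_eq_zero fun j _ => by rw [h, zero_mul]
      rw [h2] at h1
      have h3 : ∀ a : ℕ+, ∑ i ∈ Finset.Ico (1 + N * m1) (1 + N * (m1 + (r + 1))),
          v a i * (1 / (i : ℚ)) ^ (a : ℕ) = ∑ i ∈ Finset.Ico (1 + N * m1) (1 + N * (m1 + r)),
          v a i * (1 / (i : ℚ)) ^ (a : ℕ) + ∑ j ∈ Finset.range N, v a (1 + N * (m1 + r) + j) *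
            (1 / ((1 + N * (m1 + r) + j : ℕ) : ℚ)) ^ (a : ℕ) := by
        intro a
        rw [← Finset.sum_Ico_consecutive _ (show 1 + N * m1 ≤ 1 + N * (m1 + r) by
          have : N * m1 ≤ N * (m1 + r) := Nat.mul_le_mul_left _ (by omega)
          omega) (show 1 + N * (m1 + r) ≤ 1 + N * (m1 + (r + 1)) by
          have : N * (m1 + r) ≤ N * (m1 + (r + 1)) := Nat.mul_le_mul_left _ (by omega)
          omega), Finset.sum_Ico_eq_sum_range _ (1 + N * (m1 + r))]
        congr 2
        have : N * (m1 + (r + 1)) = N * (m1 + r) + N := by ring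
        rw [this]
        congr 1
        omega
      rw [show m1 + r + 1 = m1 + (r + 1) by ring] at h1
      rw [Finset.sum_congr rfl fun a _ => h3 a, Finset.sum_add_distrib, ← ih, ← h1]
      ring
  -- the prime
  obtain ⟨p, hpbig, hp⟩ := Nat.exists_infinite_primes (1 + N * m1 + (S0 + N) + q +
    (Q.eval ((1 + N * m1 : ℕ) : ℤ)).natAbs +
    ∑ s ∈ Finset.range (S0 + N + 1), (Q.eval (s : ℤ)).natAbs +
    ∑ a ∈ A', ∑ n ∈ Finset.range q, ((v a n).num.natAbs + (v a n).den) + 1)
  have : Fact p.Prime := ⟨hp⟩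
  have hvmod : ∀ a n, v a n = v a (n % q) := fun a n => hmod a _ _ (Nat.mod_modEq n q).symm
  have hvb : ∀ a ∈ A', ∀ n, (v a n).num.natAbs < p ∧ (v a n).den < p := by
    intro a ha n
    rw [hvmod a n]
    have h1 := Finset.single_le_sum (f := fun a : ℕ+ => ∑ n ∈ Finset.range q,
      ((v a n).num.natAbs + (v a n).den)) (fun _ _ => Nat.zero_le _) ha
    have h2 := Finset.single_le_sum (f := fun n : ℕ => (v a n).num.natAbs + (v a n).den)
      (fun _ _ => Nat.zero_le _) (Finset.mem_range.2 (Nat.mod_lt n (show 0 < q by omega)))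
    omega
  -- the multiple `T p`
  have hcop : Nat.Coprime p q := by
    rw [hp.coprime_iff_not_dvd]
    intro hd
    have := Nat.le_of_dvd (by omega) hd
    omega
  have hexT : ∃ t, 1 ≤ t ∧ t ≤ q ∧ v b (t * p) ≠ 0 := by
    obtain ⟨t0, ht0⟩ := Nat.exists_mul_mod_eq_of_coprime nb hcop (by omega)
    obtain ⟨htl, ht1⟩ := ht0
    refine ⟨if t0 = 0 then q else t0, ?_, ?_, ?_⟩
    · split_ifs <;> omega
    · split_ifs <;> omega
    · split_ifs with h
      · rw [hmod b (q * p) nb]
        · exact hnb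
        · rw [h, mul_zero, Nat.zero_mod] at ht1
          show q * p % q = nb % q
          rw [Nat.mul_mod_right, ← ht1]
      · rw [hmod b (t0 * p) nb]
        · exact hnb
        · show t0 * p % q = nb % q
          rw [mul_comm]
          exact ht1
  set T := Nat.find hexT with hTdef
  obtain ⟨hT1, hTq, hTne⟩ := Nat.find_spec hexT
  have hTmin : ∀ t, 1 ≤ t → t < T → v b (t * p) = 0 := by
    intro t h1 h2
    have h3 := Nat.find_min hexT h2
    push Not at h3
    exact h3 h1 (by omega)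
  set M := (T * p + S0 + N - 1) / N with hM
  have hTp1 : 1 * p ≤ T * p := Nat.mul_le_mul_right _ hT1
  have hM1 : N * M ≤ T * p + S0 + N - 1 := Nat.mul_div_le _ _
  have hM2 : T * p + S0 + N - 1 < N * M + N := by
    have := Nat.lt_mul_div_succ (T * p + S0 + N - 1) (show 0 < N by omega)
    rw [mul_add, mul_one] at this
    exact this
  have hMm : m1 ≤ M := by
    by_contra h
    push Not at h
    have : N * M ≤ N * m1 := Nat.mul_le_mul_left _ h.le
    omega
  obtain ⟨r, hr⟩ := Nat.exists_eq_add_of_le hMm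
  have h1 := htel r
  rw [← hr] at h1
  set k := 1 + N * M with hk
  set s := k - T * p with hs
  have hks : k = s + T * p := by omega
  have hs1 : S0 ≤ s := by omega
  have hs2 : s < S0 + N + 1 := by omega
  have hk2 : k < (T + 1) * p := by
    rw [add_mul, one_mul]
    omega
  -- the left-hand side is integral
  have hnQ1 : padicNorm p (ev Q (1 + N * m1)) = 1 := by
    refine norm_int_one p (hS0 _ ?_) (by omega)
    have : 1 * m1 ≤ N * m1 := Nat.mul_le_mul_right _ hN
    omega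
  have hQs : (Q.eval (s : ℤ)).natAbs < p := by
    have := Finset.single_le_sum (f := fun s : ℕ => (Q.eval (s : ℤ)).natAbs)
      (fun _ _ => Nat.zero_le _) (Finset.mem_range.2 hs2)
    omega
  have hnQ2 : padicNorm p (ev Q k) = 1 := by
    have h2 : padicNorm p ((Q.eval (s : ℤ) : ℤ) : ℚ) = 1 := norm_int_one p (hS0 _ hs1) hQs
    rw [padicNorm.int_eq_one_iff] at h2
    rw [ev, padicNorm.int_eq_one_iff]
    intro h3
    apply h2
    have h4 := Polynomial.sub_dvd_eval_sub (k : ℤ) (s : ℤ) Q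
    have h5 : ((k : ℤ) - (s : ℤ)) = T * p := by
      rw [hks]
      push_cast
      ring
    rw [h5] at h4
    have h6 := dvd_sub h3 ((Dvd.intro_left _ rfl : (p : ℤ) ∣ T * p).trans h4)
    rwa [sub_sub_cancel] at h6
  have hint : ∀ P : ℤ[X], ∀ x : ℕ, padicNorm p (ev P x) ≤ 1 := fun P x => padicNorm.of_int _
  have hL : padicNorm p (ev P k / ev Q k - ev P (1 + N * m1) / ev Q (1 + N * m1)) ≤ 1 := by
    refine padicNorm.sub.trans (max_le ?_ ?_)
    · rw [padicNorm.div, hnQ2, div_one]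
      exact hint _ _
    · rw [padicNorm.div, hnQ1, div_one]
      exact hint _ _
  rw [h1] at hL
  -- the right-hand side is not
  have hR := sum_big2 p A' v b hbA (fun a ha => A'.le_max' a ha)
    (Finset.Ico (1 + N * m1) k) (fun i hi => by
      have := (Finset.mem_Ico.1 hi).1
      omega) T hT1 (by omega) (Finset.mem_Ico.2 ⟨by omega, by omega⟩) (fun i hi => by
      have := (Finset.mem_Ico.1 hi).2
      omega) (fun a ha i _ => norm_rat_le p (hvb a ha i).2) hTmin
    (norm_rat_one p hTne (hvb b hbA _).1 (hvb b hbA _).2)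
  exact absurd hL (not_le.2 hR)

end Pool.Agent.TH507.HS
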