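import Mathlib
import Pool.Agent.TH507.ZS.HSb
import Pool.Agent.TH507.ZS.HSq

/-!
# Alternating multiple harmonic sums are linearly independent on progressions
-/

set_option autoImplicit false

namespace Pool.Agent.TH507.HS

open Polynomial Filter Topology

/-- the sign as a rational number -/
def sg (ε : ℤˣ) : ℚ := ((ε : ℤ) : ℚ)

lemma sg_sq (ε : ℤˣ) : sg ε ^ 2 = 1 := by
  rcases Int.units_eq_one_or ε with rfl | rfl <;> simp [sg]

lemma sg_even (ε : ℤˣ) {N : ℕ} (hN : 2 ∣ N) : sg ε ^ N = 1 := by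
  obtain ⟨t, rfl⟩ := hN
  rw [pow_mul, sg_sq, one_pow]

/-- alternating multiple harmonic sums: `hc [(a_1, ε_1), ..., (a_r, ε_r)] k` is the sum of
`∏ ε_i ^ (n_i) / n_i ^ (a_i)` over `k > n_1 > ... > n_r ≥ 1` -/
def hc : List (ℕ+ × ℤˣ) → ℕ → ℚ
  | [], _ => 1
  | x :: l, k => ∑ j ∈ Finset.Ico 1 k, sg x.2 ^ j * hc l j / (j : ℚ) ^ (x.1 : ℕ)

lemma hc_nil (k : ℕ) : hc [] k = 1 := by rw [hc]

lemma hc_cons (x : ℕ+ × ℤˣ) (l : List (ℕ+ × ℤˣ)) (k : ℕ) :
    hc (x :: l) k = ∑ j ∈ Finset.Ico 1 k, sg x.2 ^ j * hc l j / (j : ℚ) ^ (x.1 : ℕ) := by rw [hc]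

lemma hc_succ (x : ℕ+ × ℤˣ) (l : List (ℕ+ × ℤˣ)) {k : ℕ} (hk : 1 ≤ k) :
    hc (x :: l) (k + 1) = hc (x :: l) k + sg x.2 ^ k * hc l k / (k : ℚ) ^ (x.1 : ℕ) := by
  rw [hc_cons, hc_cons, Finset.sum_Ico_succ_top hk]

section

variable (N : ℕ) (hN : 1 ≤ N) (h2 : 2 ∣ N)

/-- the words at `1 + N m + j` -/
def zj (j : ℕ) (w : List (ℕ+ × ℤˣ)) : AA := gr fun m => hc w (1 + N * m + j)

/-- the words at `1 + N m` -/
def zw (w : List (ℕ+ × ℤˣ)) : AA := gr fun m => hc w (1 + N * m)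

lemma zj_zero (w : List (ℕ+ × ℤˣ)) : zj N 0 w = zw N w := rfl

lemma zj_nil (j : ℕ) : zj N j [] = 1 := by
  rw [← gr_one, zj]
  congr 1

/-- the letters -/
def lt (j : ℕ) (x : ℕ+ × ℤˣ) : AA := kq (sg x.2 ^ (1 + j)) * qj N j ^ (x.1 : ℕ)

lemma lt_mem (hN : 1 ≤ N) (hk : ∀ q, kq q ∈ KN N hN) (j : ℕ) (x : ℕ+ × ℤˣ) : lt N j x ∈ KN N hN :=
  (KN N hN).mul_mem (hk _) ((KN N hN).pow_mem (qj_mem N hN j) _)

include h2 in
lemma zj_succ (j : ℕ) (x : ℕ+ × ℤˣ) (l : List (ℕ+ × ℤˣ)) :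
    zj N (j + 1) (x :: l) = zj N j (x :: l) + lt N j x * zj N j l := by
  rw [zj, zj, zj, lt, qj, gr_pow, kq_apply, gr_mul, gr_mul, gr_add]
  congr 1
  funext m
  rw [← add_assoc, hc_succ x l (by omega)]
  have h3 : sg x.2 ^ (1 + N * m + j) = sg x.2 ^ (1 + j) := by
    rw [show 1 + N * m + j = (1 + j) + N * m by ring, pow_add, pow_mul, sg_even x.2 h2, one_pow,
      mul_one]
  rw [h3, one_div, inv_pow]
  ring

include h2 in
lemma zj_sub (hk : ∀ q, kq q ∈ KN N hN) (j : ℕ) (w : List (ℕ+ × ℤˣ)) :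
    zj N j w - zw N w ∈ W (KN N hN) (zw N) w.length := by
  induction j generalizing w with
  | zero => rw [zj_zero, sub_self]; exact (W _ _ _).zero_mem
  | succ j ih =>
    cases w with
    | nil =>
      rw [zj_nil, ← zj_zero, zj_nil, sub_self]
      exact (W _ _ _).zero_mem
    | cons a l =>
      rw [zj_succ N h2, add_sub_right_comm]
      refine (W _ _ _).add_mem (ih (a :: l)) ?_
      refine mul_mem_W (lt_mem N hN hk j a) ?_
      have h1 := W_mono (K := KN N hN) (y := zw N) (Nat.le_succ l.length) (ih l)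
      have h2 : zw N l ∈ W (KN N hN) (zw N) (l.length + 1) := mem_W (Nat.lt_succ_self _)
      have h3 := (W _ _ _).add_mem h1 h2
      rwa [sub_add_cancel] at h3

include h2 in
lemma zj_tel (j : ℕ) (x : ℕ+ × ℤˣ) (l : List (ℕ+ × ℤˣ)) :
    zj N j (x :: l) = zw N (x :: l) + ∑ i ∈ Finset.range j, lt N i x * zj N i l := by
  induction j with
  | zero => rw [zj_zero]; simp
  | succ j ih => rw [zj_succ N h2, ih, Finset.sum_range_succ, add_assoc]

/-- the sums of the letters -/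
def fc (x : ℕ+ × ℤˣ) : AA := ∑ j ∈ Finset.range N, lt N j x

lemma sig_zw (w : List (ℕ+ × ℤˣ)) : sig (zw N w) = zj N N w := by
  rw [zw, sig_gr, zj]
  congr 1
  funext m
  congr 1
  ring

lemma kq_mem' (q : ℚ) : kq q ∈ KN N hN := by
  refine ⟨Polynomial.C q.num, Polynomial.C (q.den : ℤ), ?_, ?_⟩
  · rw [Ne, Polynomial.C_eq_zero]
    exact_mod_cast q.den_ne_zero
  · rw [kq_apply]
    congr 1
    funext m
    simp only [ev, Polynomial.eval_C]
    exact_mod_cast (Rat.num_div_den q).symm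

include h2 in
lemma tel_c (A : Finset (ℕ+ × ℤˣ)) (c : ℕ+ × ℤˣ → ℚ) (hc : ∃ a ∈ A, c a ≠ 0) (r : AA)
    (hr : r ∈ KN N hN) : sig r - r ≠ ∑ a ∈ A, kq (c a) * fc N a := by
  classical
  intro hrel
  obtain ⟨P, Q, hQ, rfl⟩ := hr
  set c' : ℕ+ × ℤˣ → ℚ := fun x => if x ∈ A then c x else 0 with hc'
  set v : ℕ+ → ℕ → ℚ := fun a n => ∑ ε : ℤˣ, c' (a, ε) * sg ε ^ n with hv
  set A0 : Finset ℕ+ := A.image Prod.fst with hA0
  have hrow : ∀ m : ℕ, ∑ x ∈ A, c x * ∑ j ∈ Finset.range N,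
      sg x.2 ^ (1 + j) * (1 / ((1 + N * m + j : ℕ) : ℚ)) ^ (x.1 : ℕ) =
      ∑ a ∈ A0, ∑ j ∈ Finset.range N, v a (1 + N * m + j) *
        (1 / ((1 + N * m + j : ℕ) : ℚ)) ^ (a : ℕ) := by
    intro m
    have h3 : ∀ ε : ℤˣ, ∀ j, sg ε ^ (1 + N * m + j) = sg ε ^ (1 + j) := by
      intro ε j
      rw [show 1 + N * m + j = (1 + j) + N * m by ring, pow_add, pow_mul, sg_even ε h2, one_pow,
        mul_one]
    have h4 : A = (A0 ×ˢ (Finset.univ : Finset ℤˣ)).filter (fun x => x ∈ A) := by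
      ext x
      simp only [Finset.mem_filter, Finset.mem_product, Finset.mem_univ, and_true]
      constructor
      · intro hx
        exact ⟨Finset.mem_image_of_mem _ hx, hx⟩
      · exact fun h => h.2
    have h5 : ∑ x ∈ A, c x * ∑ j ∈ Finset.range N,
        sg x.2 ^ (1 + j) * (1 / ((1 + N * m + j : ℕ) : ℚ)) ^ (x.1 : ℕ) =
        ∑ x ∈ A0 ×ˢ (Finset.univ : Finset ℤˣ), c' x * ∑ j ∈ Finset.range N,
        sg x.2 ^ (1 + j) * (1 / ((1 + N * m + j : ℕ) : ℚ)) ^ (x.1 : ℕ) := by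
      conv_lhs => rw [h4]
      rw [Finset.sum_filter]
      refine Finset.sum_congr rfl fun x _ => ?_
      rw [hc']
      simp only
      split_ifs with h
      · rfl
      · rw [zero_mul]
    rw [h5, Finset.sum_product]
    refine Finset.sum_congr rfl fun a _ => ?_
    rw [hv]
    simp only [Finset.sum_mul, Finset.mul_sum]
    rw [Finset.sum_comm]
    refine Finset.sum_congr rfl fun j _ => Finset.sum_congr rfl fun ε _ => ?_
    rw [h3]
    ring
  have h1 : ∑ a ∈ A, kq (c a) * fc N a = gr fun m => ∑ a ∈ A0, ∑ j ∈ Finset.range N,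
      v a (1 + N * m + j) * (1 / ((1 + N * m + j : ℕ) : ℚ)) ^ (a : ℕ) := by
    have h6 : (fun m : ℕ => ∑ a ∈ A0, ∑ j ∈ Finset.range N,
      v a (1 + N * m + j) * (1 / ((1 + N * m + j : ℕ) : ℚ)) ^ (a : ℕ)) =
      fun m : ℕ => ∑ x ∈ A, c x * ∑ j ∈ Finset.range N,
      sg x.2 ^ (1 + j) * (1 / ((1 + N * m + j : ℕ) : ℚ)) ^ (x.1 : ℕ) := by
      funext m
      rw [hrow]
    rw [h6, gr_sum]
    refine Finset.sum_congr rfl fun x _ => ?_
    have h7 : fc N x = gr fun m => ∑ j ∈ Finset.range N,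
        sg x.2 ^ (1 + j) * (1 / ((1 + N * m + j : ℕ) : ℚ)) ^ (x.1 : ℕ) := by
      rw [gr_sum, fc]
      refine Finset.sum_congr rfl fun j _ => ?_
      rw [lt, qj, gr_pow, kq_apply, gr_mul]
    rw [h7, kq_apply, gr_mul]
  rw [h1, sig_gr, gr_sub, gr_eq, eventually_atTop] at hrel
  obtain ⟨m0, hm0⟩ := hrel
  refine no_tel2 2 N (by norm_num) hN A0 v ?_ ?_ P Q hQ m0 hm0
  · intro a n
    rw [hv]
    simp only
    refine Finset.sum_congr rfl fun ε _ => ?_
    rw [pow_add, sg_sq, mul_one]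
  · obtain ⟨x, hx, hcx⟩ := hc
    refine ⟨x.1, Finset.mem_image_of_mem _ hx, ?_⟩
    by_contra hcon
    push Not at hcon
    have e0 := hcon 0
    have e1 := hcon 1
    have hu : (Finset.univ : Finset ℤˣ) = {1, -1} := by decide
    rw [hv] at e0 e1
    simp only [hu] at e0 e1
    rw [Finset.sum_pair (by decide)] at e0 e1
    simp only [sg, pow_zero, pow_one, mul_one, Units.val_one, Units.val_neg, Int.cast_one,
      Int.cast_neg, mul_neg] at e0 e1
    have e2 : c' (x.1, 1) = 0 := by linarith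
    have e3 : c' (x.1, -1) = 0 := by linarith
    have e4 : c' x = 0 := by
      rcases Int.units_eq_one_or x.2 with h | h
      · rw [← e2, ← h]
      · rw [← e3, ← h]
    rw [hc'] at e4
    simp only [hx, if_true] at e4
    exact hcx e4

include h2 in
theorem hypc : Hyp (KN N hN) (zw N) sig (fc N) kq where
  inv := (hyp N hN).inv
  nontriv := (hyp N hN).nontriv
  stable := (hyp N hN).stable
  fK := fun x => (KN N hN).sum_mem fun j _ => lt_mem N hN (kq_mem' N hN) j x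
  const := (hyp N hN).const
  nil := by rw [← zj_zero, zj_nil]
  recu := by
    intro a w
    rw [sig_zw, zj_tel N h2, fc, Finset.sum_mul]
    have h1 : zw N (a :: w) + ∑ i ∈ Finset.range N, lt N i a * zj N i w - zw N (a :: w) -
        ∑ j ∈ Finset.range N, lt N j a * zw N w =
        ∑ i ∈ Finset.range N, lt N i a * (zj N i w - zw N w) := by
      simp only [mul_sub, Finset.sum_sub_distrib]
      ring
    rw [h1]
    exact (W _ _ _).sum_mem fun i _ =>
      mul_mem_W (lt_mem N hN (kq_mem' N hN) i a) (zj_sub N hN h2 (kq_mem' N hN) i w)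
  tel := fun A c hc r hr => tel_c N hN h2 A c hc r hr

end

end Pool.Agent.TH507.HS
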