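import Mathlib
import Pool.Agent.TH507.ZS.Fin
import Pool.Agent.TH507.ZS.HSb

/-!
# Multiple zeta values with one large argument
-/

set_option autoImplicit false

namespace Pool.Agent.TH507.ZS

open Filter Topology Pool.Agent.TH507.HS

lemma hs_bound (l : List ℕ+) : ∀ k : ℕ, 1 ≤ k → |(hs l k : ℝ)| ≤ (k : ℝ) ^ l.length := by
  induction l with
  | nil => intro k _; rw [hs_nil]; simp
  | cons a l ih =>
    intro k hk
    rw [hs_cons]
    push_cast
    refine (Finset.abs_sum_le_sum_abs _ _).trans ?_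
    have h1 : ∀ j ∈ Finset.Ico 1 k, |(hs l j : ℝ) / (j : ℝ) ^ (a : ℕ)| ≤ (k : ℝ) ^ l.length := by
      intro j hj
      rw [Finset.mem_Ico] at hj
      have h2 : (1 : ℝ) ≤ j := by exact_mod_cast hj.1
      rw [abs_div, abs_of_pos (by positivity : (0 : ℝ) < (j : ℝ) ^ (a : ℕ))]
      refine (div_le_self (abs_nonneg _) (one_le_pow₀ h2)).trans ((ih j hj.1).trans ?_)
      have h3 : (j : ℝ) ≤ k := by exact_mod_cast hj.2.le
      exact pow_le_pow_left₀ (by linarith) h3 _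
    calc ∑ j ∈ Finset.Ico 1 k, |(hs l j : ℝ) / (j : ℝ) ^ (a : ℕ)| ≤
        ∑ _j ∈ Finset.Ico 1 k, (k : ℝ) ^ l.length := Finset.sum_le_sum h1
      _ = ((k - 1 : ℕ) : ℝ) * (k : ℝ) ^ l.length := by
        rw [Finset.sum_const, Nat.card_Ico, nsmul_eq_mul]
      _ ≤ (k : ℝ) * (k : ℝ) ^ l.length := by
        have h4 : ((k - 1 : ℕ) : ℝ) ≤ k := by exact_mod_cast Nat.sub_le _ _
        gcongr
      _ = (k : ℝ) ^ (a :: l).length := by rw [List.length_cons, pow_succ]; ring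

/-- polynomials in `1 / (1 + N m)` -/
lemma poly_zero {h : ℕ} (d : Fin (h + 1) → ℚ) (N : ℕ) (hN : 1 ≤ N)
    (hev : ∀ᶠ m : ℕ in atTop, ∑ i, d i * (1 / ((1 + N * m : ℕ) : ℚ)) ^ (i : ℕ) = 0) : d = 0 := by
  rw [eventually_atTop] at hev
  obtain ⟨m0, hm0⟩ := hev
  set P : Polynomial ℚ := ∑ i, Polynomial.C (d i) * Polynomial.X ^ (i : ℕ) with hP
  have hroot : ∀ m : ℕ, m0 ≤ m → P.IsRoot (1 / ((1 + N * m : ℕ) : ℚ)) := by
    intro m hm
    rw [Polynomial.IsRoot, hP, Polynomial.eval_finsetSum]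
    simp only [Polynomial.eval_mul, Polynomial.eval_C, Polynomial.eval_pow, Polynomial.eval_X]
    exact hm0 m hm
  have hinf : Set.Infinite {x : ℚ | P.IsRoot x} := by
    refine ((Set.Ici_infinite m0).image (f := fun m : ℕ => 1 / ((1 + N * m : ℕ) : ℚ)) ?_).mono ?_
    · intro m _ m' _ h
      simp only [one_div, inv_inj, Nat.cast_inj] at h
      have h2 : N * m = N * m' := by omega
      exact Nat.eq_of_mul_eq_mul_left (by omega) h2
    · rintro x ⟨m, hm, rfl⟩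
      exact hroot m hm
  have hP0 : P = 0 := Polynomial.eq_zero_of_infinite_isRoot P hinf
  funext i
  have h1 := congrArg (fun Q => Polynomial.coeff Q (i : ℕ)) hP0
  rw [hP] at h1
  simp only [Polynomial.finsetSum_coeff, Polynomial.coeff_C_mul, Polynomial.coeff_X_pow,
    Polynomial.coeff_zero] at h1
  rw [Finset.sum_eq_single i] at h1
  · simpa using h1
  · intro j _ hj
    rw [if_neg, mul_zero]
    intro h2
    exact hj (Fin.ext h2.symm)
  · intro h2
    exact absurd (Finset.mem_univ _) h2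

lemma kq_mem (N : ℕ) (hN : 1 ≤ N) (q : ℚ) : kq q ∈ KN N hN := by
  refine ⟨Polynomial.C q.num, Polynomial.C (q.den : ℤ), ?_, ?_⟩
  · rw [Ne, Polynomial.C_eq_zero]
    exact_mod_cast q.den_ne_zero
  · rw [kq_apply]
    congr 1
    funext m
    simp only [ev, Polynomial.eval_C]
    exact_mod_cast (Rat.num_div_den q).symm

/-- independence of the functions `k ^ (-i) * hs l k` on the integers coprime to `N` -/
lemma hs_ind (Λ : Finset (List ℕ+)) (h N X : ℕ) (hN : 1 ≤ N) (c : Fin (h + 1) × Λ → ℚ)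
    (hc : ∀ k, X ≤ k → k.Coprime N →
      ∑ x : Fin (h + 1) × Λ, c x * (hs x.2.1 k / (k : ℚ) ^ (x.1 : ℕ)) = 0) : c = 0 := by
  classical
  set e : List ℕ+ → AA := fun w => if hw : w ∈ Λ then
    ∑ i : Fin (h + 1), kq (c (i, ⟨w, hw⟩)) * qj N 0 ^ (i : ℕ) else 0 with he
  have heK : ∀ w, e w ∈ KN N hN := by
    intro w
    rw [he]
    simp only
    split_ifs with hw
    · exact (KN N hN).sum_mem fun i _ =>
        (KN N hN).mul_mem (kq_mem N hN _) ((KN N hN).pow_mem (qj_mem N hN 0) _)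
    · exact (KN N hN).zero_mem
  have he2 : ∀ w : Λ, e w.1 = gr fun m => ∑ i : Fin (h + 1), c (i, w) *
      (1 / ((1 + N * m : ℕ) : ℚ)) ^ (i : ℕ) := by
    intro w
    rw [gr_sum, he]
    simp only [w.2, dite_true]
    refine Finset.sum_congr rfl fun i _ => ?_
    rw [qj, gr_pow, kq_apply, gr_mul]
    rfl
  have hsum : ∑ w ∈ Λ, e w * yw N w = 0 := by
    rw [← Finset.sum_coe_sort]
    have h1 : ∀ w : Λ, e w.1 * yw N w.1 = gr fun m => ∑ i : Fin (h + 1), c (i, w) *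
        (hs w.1 (1 + N * m) / ((1 + N * m : ℕ) : ℚ) ^ (i : ℕ)) := by
      intro w
      rw [he2, yw, gr_mul]
      congr 1
      funext m
      rw [Finset.sum_mul]
      refine Finset.sum_congr rfl fun i _ => ?_
      rw [one_div, inv_pow]
      ring
    rw [Finset.sum_congr rfl fun w _ => h1 w, ← gr_sum, ← gr_zero, gr_eq]
    filter_upwards [eventually_ge_atTop X] with m hm
    have h2 : 1 * m ≤ N * m := Nat.mul_le_mul_right _ hN
    have h3 := hc (1 + N * m) (by omega) (by simp)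
    rw [Fintype.sum_prod_type] at h3
    rw [Finset.sum_comm]
    exact h3
  have hlen : ∃ t, ∀ w ∈ Λ, w.length < t := by
    refine ⟨∑ w ∈ Λ, w.length + 1, fun w hw => ?_⟩
    have := Finset.single_le_sum (f := fun w : List ℕ+ => w.length) (fun _ _ => Nat.zero_le _) hw
    omega
  obtain ⟨t, ht⟩ := hlen
  have h1 := (hyp N hN).indep t Λ e ht heK hsum
  funext x
  obtain ⟨i, w⟩ := x
  have h2 := h1 w.1 w.2
  rw [he2, ← gr_zero, gr_eq] at h2
  have h3 := poly_zero (fun i => c (i, w)) N hN h2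
  exact congrFun h3 i

/-- **Linear forms in multiple zeta values with one large argument.** -/
theorem mzv_main (Λ : Finset (List ℕ+)) (h : ℕ) (S : Finset ℕ) (C : ℝ) :
    ∃ B : ℝ, 1 < B ∧ ∃ δ : ℝ, 0 < δ ∧ ∃ n0 : ℕ, ∀ n : ℕ, n0 ≤ n → ∀ (a : ℤ)
      (u : Fin (h + 1) × Λ → ℕ) (m : Fin (h + 1) × Λ → ℤ), (∀ j, SFac S (u j)) →
      (∀ j, (u j : ℝ) ≤ C ^ n) → (∀ j, |(m j : ℝ)| ≤ Real.exp (δ * n)) → m ≠ 0 →
      (B ^ n)⁻¹ < |(a : ℝ) + ∑ j, (u j : ℝ) * m j * dser (hs j.2.1) (n + j.1)| := by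
  set A : ℕ := ∑ w ∈ Λ, w.length + 1 with hA
  obtain ⟨B, hB, δ, hδ, n0, hmain⟩ := main (J := Fin (h + 1) × Λ)
    (fun x k => hs x.2.1 k / (k : ℚ) ^ (x.1 : ℕ)) A (by
      intro x k hk
      have h1 : (1 : ℝ) ≤ k := by exact_mod_cast hk
      push_cast
      rw [abs_div, abs_of_pos (by positivity : (0 : ℝ) < (k : ℝ) ^ (x.1 : ℕ))]
      refine (div_le_self (abs_nonneg _) (one_le_pow₀ h1)).trans ((hs_bound _ k hk).trans ?_)
      have h2 := Finset.single_le_sum (f := fun w : List ℕ+ => w.length)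
        (fun _ _ => Nat.zero_le _) x.2.2
      have h3 : (1 : ℝ) ≤ A := by
        have : 1 ≤ A := by omega
        exact_mod_cast this
      calc (k : ℝ) ^ x.2.1.length ≤ (k : ℝ) ^ A := pow_le_pow_right₀ h1 (by omega)
        _ ≤ A * (k : ℝ) ^ A := le_mul_of_one_le_left (by positivity) h3)
    (fun N X hN c hc => hs_ind Λ h N X hN c hc) S C
  refine ⟨B, hB, δ, hδ, n0, fun n hn a u m hu hu2 hm hm0 => ?_⟩
  have h1 := hmain n hn a u m hu hu2 hm hm0
  have h2 : ∀ j : Fin (h + 1) × Λ, dser (fun k => hs j.2.1 k / (k : ℚ) ^ (j.1 : ℕ)) n =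
      dser (hs j.2.1) (n + j.1) := by
    intro j
    rw [dser, dser]
    refine tsum_congr fun k => ?_
    push_cast
    rw [pow_add, div_div, mul_comm (((k : ℝ) + 1) ^ (j.1 : ℕ))]
  simp only [h2] at h1
  exact h1

end Pool.Agent.TH507.ZS
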