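import Mathlib
import Pool.Agent.TH507.ZS.MZ
import Pool.Agent.TH507.ZS.HSc

/-!
# Coloured multiple zeta values with one large argument
-/

set_option autoImplicit false

namespace Pool.Agent.TH507.ZS

open Filter Topology Pool.Agent.TH507.HS

lemma sg_abs (ε : ℤˣ) (j : ℕ) : |((sg ε ^ j : ℚ) : ℝ)| = 1 := by
  rcases Int.units_eq_one_or ε with rfl | rfl <;> simp [sg]

lemma hc_bound (l : List (ℕ+ × ℤˣ)) : ∀ k : ℕ, 1 ≤ k → |(hc l k : ℝ)| ≤ (k : ℝ) ^ l.length := by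
  induction l with
  | nil => intro k _; rw [hc_nil]; simp
  | cons a l ih =>
    intro k hk
    rw [hc_cons]
    rw [Rat.cast_sum]
    refine (Finset.abs_sum_le_sum_abs _ _).trans ?_
    have h1 : ∀ j ∈ Finset.Ico 1 k,
        |((sg a.2 ^ j * hc l j / (j : ℚ) ^ (a.1 : ℕ) : ℚ) : ℝ)| ≤ (k : ℝ) ^ l.length := by
      intro j hj
      rw [Finset.mem_Ico] at hj
      have h2 : (1 : ℝ) ≤ j := by exact_mod_cast hj.1
      rw [Rat.cast_div, Rat.cast_mul, abs_div, abs_mul, sg_abs, one_mul]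
      push_cast
      rw [abs_of_pos (by positivity : (0 : ℝ) < (j : ℝ) ^ (a.1 : ℕ))]
      refine (div_le_self (abs_nonneg _) (one_le_pow₀ h2)).trans ((ih j hj.1).trans ?_)
      have h3 : (j : ℝ) ≤ k := by exact_mod_cast hj.2.le
      exact pow_le_pow_left₀ (by linarith) h3 _
    calc ∑ j ∈ Finset.Ico 1 k, |((sg a.2 ^ j * hc l j / (j : ℚ) ^ (a.1 : ℕ) : ℚ) : ℝ)| ≤
        ∑ _j ∈ Finset.Ico 1 k, (k : ℝ) ^ l.length := Finset.sum_le_sum h1
      _ = ((k - 1 : ℕ) : ℝ) * (k : ℝ) ^ l.length := by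
        rw [Finset.sum_const, Nat.card_Ico, nsmul_eq_mul]
      _ ≤ (k : ℝ) * (k : ℝ) ^ l.length := by
        have h4 : ((k - 1 : ℕ) : ℝ) ≤ k := by exact_mod_cast Nat.sub_le _ _
        gcongr
      _ = (k : ℝ) ^ (a :: l).length := by rw [List.length_cons, pow_succ]; ring

/-- independence of the functions `k ^ (-i) * hc l k` on progressions -/
lemma hc_ind (Λ : Finset (List (ℕ+ × ℤˣ))) (h N : ℕ) (hN : 1 ≤ N) (h2 : 2 ∣ N)
    (c : Fin (h + 1) × Λ → ℚ)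
    (hev : ∀ᶠ m : ℕ in atTop, ∑ x : Fin (h + 1) × Λ,
      c x * (hc x.2.1 (1 + N * m) / ((1 + N * m : ℕ) : ℚ) ^ (x.1 : ℕ)) = 0) : c = 0 := by
  classical
  set e : List (ℕ+ × ℤˣ) → AA := fun w => if hw : w ∈ Λ then
    ∑ i : Fin (h + 1), kq (c (i, ⟨w, hw⟩)) * qj N 0 ^ (i : ℕ) else 0 with he
  have heK : ∀ w, e w ∈ KN N hN := by
    intro w
    rw [he]
    simp only
    split_ifs with hw
    · exact (KN N hN).sum_mem fun i _ =>
        (KN N hN).mul_mem (kq_mem N hN _) ((KN N hN).pow_mem (qj_mem N hN 0) _)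
    · exact (KN N hN).zero_mem
  have he2 : ∀ w : Λ, e w.1 = gr fun m => ∑ i : Fin (h + 1), c (i, w) *
      (1 / ((1 + N * m : ℕ) : ℚ)) ^ (i : ℕ) := by
    intro w
    rw [gr_sum, he]
    simp only [w.2, dite_true]
    refine Finset.sum_congr rfl fun i _ => ?_
    rw [qj, gr_pow, kq_apply, gr_mul]
    rfl
  have hsum : ∑ w ∈ Λ, e w * zw N w = 0 := by
    rw [← Finset.sum_coe_sort]
    have h1 : ∀ w : Λ, e w.1 * zw N w.1 = gr fun m => ∑ i : Fin (h + 1), c (i, w) *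
        (hc w.1 (1 + N * m) / ((1 + N * m : ℕ) : ℚ) ^ (i : ℕ)) := by
      intro w
      rw [he2, zw, gr_mul]
      congr 1
      funext m
      rw [Finset.sum_mul]
      refine Finset.sum_congr rfl fun i _ => ?_
      rw [one_div, inv_pow]
      ring
    rw [Finset.sum_congr rfl fun w _ => h1 w, ← gr_sum, ← gr_zero, gr_eq]
    filter_upwards [hev] with m hm
    rw [Fintype.sum_prod_type] at hm
    rw [Finset.sum_comm]
    exact hm
  have hlen : ∃ t, ∀ w ∈ Λ, w.length < t := by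
    refine ⟨∑ w ∈ Λ, w.length + 1, fun w hw => ?_⟩
    have := Finset.single_le_sum (f := fun w : List (ℕ+ × ℤˣ) => w.length)
      (fun _ _ => Nat.zero_le _) hw
    omega
  obtain ⟨t, ht⟩ := hlen
  have h1 := (hypc N hN h2).indep t Λ e ht heK hsum
  funext x
  obtain ⟨i, w⟩ := x
  have h2 := h1 w.1 w.2
  rw [he2, ← gr_zero, gr_eq] at h2
  have h3 := poly_zero (fun i => c (i, w)) N hN h2
  exact congrFun h3 i

/-- **Linear forms in coloured multiple zeta values with one large argument.** -/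
theorem col_main (ψ : ℕ → ℚ) (hψ : ∀ k, |(ψ k : ℝ)| ≤ 1) (q : ℕ) (hq : 1 ≤ q)
    (hψ0 : ∀ m, ψ (1 + q * m) ≠ 0) (Λ : Finset (List (ℕ+ × ℤˣ))) (h : ℕ) (S : Finset ℕ) (C : ℝ) :
    ∃ B : ℝ, 1 < B ∧ ∃ δ : ℝ, 0 < δ ∧ ∃ n0 : ℕ, ∀ n : ℕ, n0 ≤ n → ∀ (a : ℤ)
      (u : Fin (h + 1) × Λ → ℕ) (m : Fin (h + 1) × Λ → ℤ), (∀ j, SFac S (u j)) →
      (∀ j, (u j : ℝ) ≤ C ^ n) → (∀ j, |(m j : ℝ)| ≤ Real.exp (δ * n)) → m ≠ 0 →
      (B ^ n)⁻¹ < |(a : ℝ) + ∑ j, (u j : ℝ) * m j *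
        dser (fun k => ψ k * hc j.2.1 k) (n + j.1)| := by
  set A : ℕ := ∑ w ∈ Λ, w.length + 1 with hA
  obtain ⟨B, hB, δ, hδ, n0, hmain⟩ := main (J := Fin (h + 1) × Λ)
    (fun x k => ψ k * hc x.2.1 k / (k : ℚ) ^ (x.1 : ℕ)) A (by
      intro x k hk
      have h1 : (1 : ℝ) ≤ k := by exact_mod_cast hk
      push_cast
      rw [abs_div, abs_of_pos (by positivity : (0 : ℝ) < (k : ℝ) ^ (x.1 : ℕ)), abs_mul]
      refine (div_le_self (by positivity) (one_le_pow₀ h1)).trans ?_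
      have h2 := Finset.single_le_sum (f := fun w : List (ℕ+ × ℤˣ) => w.length)
        (fun _ _ => Nat.zero_le _) x.2.2
      have h3 : (1 : ℝ) ≤ A := by
        have : 1 ≤ A := by omega
        exact_mod_cast this
      calc |(ψ k : ℝ)| * |(hc x.2.1 k : ℝ)| ≤ 1 * (k : ℝ) ^ x.2.1.length :=
            mul_le_mul (hψ k) (hc_bound _ k hk) (abs_nonneg _) zero_le_one
        _ = (k : ℝ) ^ x.2.1.length := one_mul _
        _ ≤ (k : ℝ) ^ A := pow_le_pow_right₀ h1 (by omega)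
        _ ≤ A * (k : ℝ) ^ A := le_mul_of_one_le_left (by positivity) h3)
    (fun N X hN c hc0 => by
      have hN' : 1 ≤ 2 * q * N := Nat.mul_pos (Nat.mul_pos (by norm_num) hq) hN
      refine hc_ind Λ h (2 * q * N) hN' ⟨q * N, by ring⟩ c ?_
      filter_upwards [eventually_ge_atTop X] with m hm
      have h2 : 1 * m ≤ 2 * q * N * m := Nat.mul_le_mul_right _ hN'
      have h3 := hc0 (1 + 2 * q * N * m) (by omega) (by
        have : 1 + 2 * q * N * m = 1 + (2 * q * m) * N := by ring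
        rw [this]
        simp)
      have h4 := hψ0 (2 * N * m)
      have h5 : 1 + q * (2 * N * m) = 1 + 2 * q * N * m := by ring
      rw [h5] at h4
      apply mul_left_cancel₀ h4
      rw [mul_zero, ← h3, Finset.mul_sum]
      refine Finset.sum_congr rfl fun x _ => ?_
      ring) S C
  refine ⟨B, hB, δ, hδ, n0, fun n hn a u m hu hu2 hm hm0 => ?_⟩
  have h1 := hmain n hn a u m hu hu2 hm hm0
  have h2 : ∀ j : Fin (h + 1) × Λ, dser (fun k => ψ k * hc j.2.1 k / (k : ℚ) ^ (j.1 : ℕ)) n =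
      dser (fun k => ψ k * hc j.2.1 k) (n + j.1) := by
    intro j
    rw [dser, dser]
    refine tsum_congr fun k => ?_
    push_cast
    rw [pow_add, div_div, mul_comm (((k : ℝ) + 1) ^ (j.1 : ℕ))]
  simp only [h2] at h1
  exact h1

/-- real parts of sixth roots of unity -/
lemma re_root {w : ℂ} (hw : w ^ 6 = 1) : ∃ r : ℚ, r ≠ 0 ∧ |(r : ℝ)| ≤ 1 ∧ w.re = r := by
  have h1 : (w - 1) * (w + 1) * (w ^ 2 + w + 1) * (w ^ 2 - w + 1) = 0 := by
    have : (w - 1) * (w + 1) * (w ^ 2 + w + 1) * (w ^ 2 - w + 1) = w ^ 6 - 1 := by ring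
    rw [this, hw, sub_self]
  rcases mul_eq_zero.1 h1 with h1 | h1
  · rcases mul_eq_zero.1 h1 with h1 | h1
    · rcases mul_eq_zero.1 h1 with h1 | h1
      · refine ⟨1, one_ne_zero, by norm_num, ?_⟩
        rw [sub_eq_zero.1 h1]
        simp
      · refine ⟨-1, by norm_num, by norm_num, ?_⟩
        rw [eq_neg_of_add_eq_zero_left h1]
        simp
    · refine ⟨-1 / 2, by norm_num, by norm_num [abs_div], ?_⟩
      have hre := congrArg Complex.re h1
      have him := congrArg Complex.im h1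
      simp only [sq, Complex.add_re, Complex.mul_re, Complex.one_re, Complex.zero_re] at hre
      simp only [sq, Complex.add_im, Complex.mul_im, Complex.one_im, Complex.zero_im] at him
      have h2 : w.im * (2 * w.re + 1) = 0 := by linarith
      rcases mul_eq_zero.1 h2 with h3 | h3
      · rw [h3] at hre
        nlinarith [sq_nonneg (2 * w.re + 1)]
      · push_cast
        linarith
  · refine ⟨1 / 2, by norm_num, by norm_num [abs_div], ?_⟩
    have hre := congrArg Complex.re h1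
    have him := congrArg Complex.im h1
    simp only [sq, Complex.add_re, Complex.sub_re, Complex.mul_re, Complex.one_re,
      Complex.zero_re] at hre
    simp only [sq, Complex.add_im, Complex.sub_im, Complex.mul_im, Complex.one_im,
      Complex.zero_im] at him
    have h2 : w.im * (2 * w.re - 1) = 0 := by linarith
    rcases mul_eq_zero.1 h2 with h3 | h3
    · rw [h3] at hre
      nlinarith [sq_nonneg (2 * w.re - 1)]
    · push_cast
      linarith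

/-- the coloured value with outer colour `z` -/
noncomputable def lic (z : ℂ) (s : ℕ) (l : List (ℕ+ × ℤˣ)) : ℂ :=
  ∑' k : ℕ, z ^ (k + 1) * ((hc l (k + 1) : ℚ) : ℂ) / ((k + 1 : ℕ) : ℂ) ^ s

theorem col_main6 (z : ℂ) (hz : z ^ 6 = 1) (Λ : Finset (List (ℕ+ × ℤˣ))) (h : ℕ) (S : Finset ℕ)
    (C : ℝ) :
    ∃ B : ℝ, 1 < B ∧ ∃ δ : ℝ, 0 < δ ∧ ∃ n0 : ℕ, ∀ n : ℕ, n0 ≤ n → ∀ (a : ℤ)
      (u : Fin (h + 1) × Λ → ℕ) (m : Fin (h + 1) × Λ → ℤ), (∀ j, SFac S (u j)) →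
      (∀ j, (u j : ℝ) ≤ C ^ n) → (∀ j, |(m j : ℝ)| ≤ Real.exp (δ * n)) → m ≠ 0 →
      (B ^ n)⁻¹ < |((a : ℂ) + ∑ j, (u j : ℂ) * (m j : ℂ) * lic z (n + j.1) j.2.1).re| := by
  have hr : ∀ k : ℕ, ∃ r : ℚ, r ≠ 0 ∧ |(r : ℝ)| ≤ 1 ∧ (z ^ k).re = r := fun k => re_root (by
    rw [← pow_mul, mul_comm, pow_mul, hz, one_pow])
  choose ψ hψ0 hψ1 hψ using hr
  obtain ⟨B, hB, δ, hδ, n0, hmain⟩ := col_main ψ hψ1 1 le_rfl (fun m => hψ0 _) Λ h S C
  set A : ℕ := ∑ w ∈ Λ, w.length + 1 with hA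
  refine ⟨B, hB, δ, hδ, n0 + A + 2, fun n hn a u m hu hu2 hm hm0 => ?_⟩
  have h1 := hmain n (by omega) a u m hu hu2 hm hm0
  have hznorm : ‖z‖ = 1 := by
    have h2 : ‖z‖ ^ 6 = 1 := by rw [← norm_pow, hz, norm_one]
    exact (pow_eq_one_iff_of_nonneg (norm_nonneg _) (by norm_num)).1 h2
  have h2 : ∀ j : Fin (h + 1) × Λ, (lic z (n + j.1) j.2.1).re =
      dser (fun k => ψ k * hc j.2.1 k) (n + j.1) := by
    intro j
    have hb : ∀ k : ℕ, 1 ≤ k → |(hc j.2.1 k : ℝ)| ≤ A * (k : ℝ) ^ A := by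
      intro k hk
      have e1 : (1 : ℝ) ≤ k := by exact_mod_cast hk
      have e2 := Finset.single_le_sum (f := fun w : List (ℕ+ × ℤˣ) => w.length)
        (fun _ _ => Nat.zero_le _) j.2.2
      have e3 : (1 : ℝ) ≤ A := by
        have : 1 ≤ A := by omega
        exact_mod_cast this
      calc |(hc j.2.1 k : ℝ)| ≤ (k : ℝ) ^ j.2.1.length := hc_bound _ k hk
        _ ≤ (k : ℝ) ^ A := pow_le_pow_right₀ e1 (by omega)
        _ ≤ A * (k : ℝ) ^ A := le_mul_of_one_le_left (by positivity) e3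
    have hs := dser_summable hb (show A + 2 ≤ n + j.1 by omega)
    have hsc : Summable fun k : ℕ => z ^ (k + 1) * ((hc j.2.1 (k + 1) : ℚ) : ℂ) /
        ((k + 1 : ℕ) : ℂ) ^ (n + (j.1 : ℕ)) := by
      refine Summable.of_norm_bounded hs.abs ?_
      intro k
      rw [norm_div, norm_mul, norm_pow, hznorm, one_pow, one_mul, norm_pow, Complex.norm_natCast,
        abs_div, abs_of_pos (by positivity : (0 : ℝ) < ((k + 1 : ℕ) : ℝ) ^ (n + (j.1 : ℕ)))]
      have e4 : ‖((hc j.2.1 (k + 1) : ℚ) : ℂ)‖ = |(hc j.2.1 (k + 1) : ℝ)| := by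
        rw [← Complex.ofReal_ratCast, Complex.norm_real, Real.norm_eq_abs]
      rw [e4]
    rw [lic, Complex.re_tsum hsc, dser]
    refine tsum_congr fun k => ?_
    have e5 : z ^ (k + 1) * ((hc j.2.1 (k + 1) : ℚ) : ℂ) / ((k + 1 : ℕ) : ℂ) ^ (n + (j.1 : ℕ)) =
        (((hc j.2.1 (k + 1) : ℝ) / ((k + 1 : ℕ) : ℝ) ^ (n + (j.1 : ℕ)) : ℝ) : ℂ) * z ^ (k + 1) := by
      push_cast
      ring
    rw [e5, Complex.re_ofReal_mul, hψ]
    push_cast
    ring
  have h3 : ((a : ℂ) + ∑ j, (u j : ℂ) * (m j : ℂ) * lic z (n + j.1) j.2.1).re =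
      (a : ℝ) + ∑ j, (u j : ℝ) * m j * dser (fun k => ψ k * hc j.2.1 k) (n + j.1) := by
    rw [Complex.add_re, Complex.intCast_re, Complex.re_sum]
    congr 1
    refine Finset.sum_congr rfl fun j _ => ?_
    have e6 : (u j : ℂ) * (m j : ℂ) = (((u j : ℝ) * (m j : ℝ) : ℝ) : ℂ) := by push_cast; rfl
    rw [e6, Complex.re_ofReal_mul, h2]
  rw [← h3] at h1
  exact h1

end Pool.Agent.TH507.ZS
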