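import Mathlib
import Pool.Agent.TH507.ZS.Poly

/-!
# Polynomials in consecutive values of a multiplicative Dirichlet series
-/

set_option autoImplicit false

namespace Pool.Agent.TH507.ZS

open Filter Topology ArithmeticFunction

/-- the coefficients of the monomial with exponents `e` -/
noncomputable def mono (φ : ArithmeticFunction ℚ) {h : ℕ} (e : Fin (h + 1) → ℕ) :
    ArithmeticFunction ℚ := ∏ i : Fin (h + 1), sh φ (i : ℕ) ^ (e i)

lemma mono_rep {φ : ArithmeticFunction ℚ} (h1 : φ.IsMultiplicative) (h2 : PB φ) {h : ℕ}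
    (e : Fin (h + 1) → ℕ) :
    Rep (mono φ e) (fun n => ∏ i : Fin (h + 1), dser φ (n + i) ^ (e i))
      (fun p => ∑ i : Fin (h + 1), (e i : ℚ) * (φ p / (p : ℚ) ^ (i : ℕ))) :=
  Rep.prod' Finset.univ (fun i : Fin (h + 1) => sh φ (i : ℕ) ^ (e i)) _ _
    fun i _ => (sh_rep h1 h2 (i : ℕ)).pow' (e i)

/-- **Polynomials in consecutive values.** -/
theorem poly_main (φ : ArithmeticFunction ℚ) (h1 : φ.IsMultiplicative) (h2 : PB φ) (v : ℚ)
    (hv : v ≠ 0) (hp : ∀ p : ℕ, p.Prime → φ p = v) (h d : ℕ) (S : Finset ℕ) (C : ℝ) :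
    ∃ B : ℝ, 1 < B ∧ ∃ δ : ℝ, 0 < δ ∧ ∃ n0 : ℕ, ∀ n : ℕ, n0 ≤ n →
      ∀ (a : ℤ) (u : {e : Fin (h + 1) → Fin (d + 1) // e ≠ 0} → ℕ)
      (m : {e : Fin (h + 1) → Fin (d + 1) // e ≠ 0} → ℤ), (∀ e, SFac S (u e)) →
      (∀ e, (u e : ℝ) ≤ C ^ n) → (∀ e, |(m e : ℝ)| ≤ Real.exp (δ * n)) → m ≠ 0 →
      (B ^ n)⁻¹ < |(a : ℝ) + ∑ e, (u e : ℝ) * m e *
        ∏ i : Fin (h + 1), dser φ (n + i) ^ ((e.1 i : Fin (d + 1)) : ℕ)| := by
  classical
  set g : {e : Fin (h + 1) → Fin (d + 1) // e ≠ 0} → ArithmeticFunction ℚ :=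
    fun e => mono φ fun i => ((e.1 i : Fin (d + 1)) : ℕ) with hg
  have hrep : ∀ e, Rep (g e) (fun n => ∏ i : Fin (h + 1), dser φ (n + i) ^ ((e.1 i : Fin (d + 1)) : ℕ))
      (fun p => ∑ i : Fin (h + 1), (((e.1 i : Fin (d + 1)) : ℕ) : ℚ) * (φ p / (p : ℚ) ^ (i : ℕ))) :=
    fun e => mono_rep h1 h2 _
  have hval : ∀ e (p : ℕ), p.Prime →
      g e p = v * ∑ i : Fin (h + 1), (((e.1 i : Fin (d + 1)) : ℕ) : ℚ) / (p : ℚ) ^ (i : ℕ) := by
    intro e p hpp
    rw [(hrep e).prime p hpp, Finset.mul_sum]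
    refine Finset.sum_congr rfl fun i _ => ?_
    rw [hp p hpp]
    ring
  -- common bound
  choose A hA using fun e => (hrep e).pb
  set A0 : ℕ := ∑ e, A e with hA0
  have hbd : ∀ e k, 1 ≤ k → |(g e k : ℝ)| ≤ A0 * (k : ℝ) ^ A0 := fun e k hk =>
    PB.mono_exp (Finset.single_le_sum (fun _ _ => Nat.zero_le _) (Finset.mem_univ e)) (hA e) k hk
  choose n1 hn1 using fun e => (hrep e).ser
  set n2 : ℕ := ∑ e, n1 e with hn2
  have hn2' : ∀ e, n1 e ≤ n2 := fun e =>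
    Finset.single_le_sum (f := n1) (fun _ _ => Nat.zero_le _) (Finset.mem_univ e)
  -- independence
  have hsep : ∀ e e' : {e : Fin (h + 1) → Fin (d + 1) // e ≠ 0}, e ≠ e' → ∀ Y : ℕ,
      ∃ p : ℕ, p.Prime ∧ Y ≤ p ∧ g e p ≠ g e' p := by
    intro e e' hne Y
    obtain ⟨p, hpp, hY, hs⟩ := exists_prime_ne (fun i => (((e.1 i : Fin (d + 1)) : ℕ) : ℚ) -
      (((e'.1 i : Fin (d + 1)) : ℕ) : ℚ)) (by
        intro h0
        apply hne
        apply Subtype.ext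
        funext i
        have h3 := congrFun h0 i
        simp only [Pi.zero_apply, sub_eq_zero, Nat.cast_inj] at h3
        exact Fin.ext h3) Y
    refine ⟨p, hpp, hY, fun heq => hs ?_⟩
    rw [hval e p hpp, hval e' p hpp] at heq
    have h3 := mul_left_cancel₀ hv heq
    simp only [sub_div, Finset.sum_sub_distrib]
    rw [h3, sub_self]
  have hnz : ∀ e : {e : Fin (h + 1) → Fin (d + 1) // e ≠ 0}, ∀ Y : ℕ,
      ∃ p : ℕ, p.Prime ∧ Y ≤ p ∧ g e p ≠ 0 := by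
    intro e Y
    obtain ⟨p, hpp, hY, hs⟩ := exists_prime_ne (fun i => (((e.1 i : Fin (d + 1)) : ℕ) : ℚ)) (by
        intro h0
        apply e.2
        funext i
        have h3 := congrFun h0 i
        simp only [Pi.zero_apply, Nat.cast_eq_zero] at h3
        exact Fin.ext h3) Y
    refine ⟨p, hpp, hY, fun heq => hs ?_⟩
    rw [hval e p hpp] at heq
    exact (mul_eq_zero.1 heq).resolve_left hv
  obtain ⟨B, hB, δ, hδ, n0, hmain⟩ := main (fun e k => g e k) A0 hbd (by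
    intro N X hN c hc
    funext e
    exact mult_ind g (fun e => (hrep e).mul) hsep hnz _ Finset.univ rfl N X hN c
      (fun k h3 h4 => hc k h3 h4) e (Finset.mem_univ e)) S C
  refine ⟨B, hB, δ, hδ, n0 + n2, fun n hn a u m hu hu2 hm hm0 => ?_⟩
  have h3 := hmain n (by omega) a u m hu hu2 hm hm0
  have h4 : ∀ e, dser (fun k => g e k) n =
      ∏ i : Fin (h + 1), dser φ (n + i) ^ ((e.1 i : Fin (d + 1)) : ℕ) := fun e =>
    hn1 e n (by have := hn2' e; omega)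
  simp only [h4] at h3
  exact h3

end Pool.Agent.TH507.ZS
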