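import Mathlib
import Pool.Agent.TH507.ZS.Mono

/-!
# The Riemann zeta function and `ζ(2s) / ζ(s) ^ 2`
-/

set_option autoImplicit false

namespace Pool.Agent.TH507.ZS

open Filter Topology ArithmeticFunction
open scoped ArithmeticFunction.zeta ArithmeticFunction.Moebius

/-- `ζ` with rational values -/
def zQ : ArithmeticFunction ℚ := ((ζ : ArithmeticFunction ℕ) : ArithmeticFunction ℚ)

/-- `μ` with rational values -/
def mQ : ArithmeticFunction ℚ := ((μ : ArithmeticFunction ℤ) : ArithmeticFunction ℚ)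

lemma zQ_apply {k : ℕ} (hk : k ≠ 0) : zQ k = 1 := by
  simp [zQ, hk]

lemma zQ_mul_mQ : zQ * mQ = 1 := coe_zeta_mul_coe_moebius

lemma PB_of_le_one {f : ℕ → ℚ} (h : ∀ k, |(f k : ℝ)| ≤ 1) : PB f := ⟨1, fun k hk => by
  have h1 : (1 : ℝ) ≤ k := by exact_mod_cast hk
  have := h k
  push_cast
  linarith [pow_one (k : ℝ)]⟩

lemma zQ_pb : PB zQ := PB_of_le_one fun k => by
  rcases eq_or_ne k 0 with rfl | hk
  · simp
  · rw [zQ_apply hk]
    simp

lemma mQ_pb : PB mQ := PB_of_le_one fun k => by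
  have h : |(μ k : ℤ)| ≤ 1 := abs_moebius_le_one
  have h1 : ((mQ k : ℚ) : ℝ) = ((μ k : ℤ) : ℝ) := by simp [mQ]
  rw [h1]
  exact_mod_cast h

lemma zQ_mult : zQ.IsMultiplicative := isMultiplicative_zeta.natCast

lemma mQ_mult : mQ.IsMultiplicative := isMultiplicative_moebius.intCast

/-- the indicator function of the squares -/
def sqQ : ArithmeticFunction ℚ := ⟨fun k => if k ≠ 0 ∧ IsSquare k then 1 else 0, by simp⟩

lemma sqQ_apply (k : ℕ) : sqQ k = if k ≠ 0 ∧ IsSquare k then 1 else 0 := rfl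

lemma sqQ_pb : PB sqQ := PB_of_le_one fun k => by
  rw [sqQ_apply]
  split_ifs <;> simp

lemma sqQ_mult : sqQ.IsMultiplicative := by
  rw [IsMultiplicative.iff_ne_zero]
  refine ⟨by simp [sqQ_apply], fun {m n} hm hn hmn => ?_⟩
  rw [sqQ_apply, sqQ_apply, sqQ_apply]
  have h1 : IsSquare (m * n) ↔ IsSquare m ∧ IsSquare n := by
    constructor
    · rintro ⟨c, hc⟩
      have h2 : m * n = c ^ 2 := by rw [hc, sq]
      have h3 : n * m = c ^ 2 := by rw [mul_comm, h2]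
      obtain ⟨d, hd⟩ := exists_eq_pow_of_mul_eq_pow (Nat.isUnit_iff.2 hmn) h2
      obtain ⟨e, he⟩ := exists_eq_pow_of_mul_eq_pow (Nat.isUnit_iff.2 hmn.symm) h3
      exact ⟨⟨d, by rw [hd, sq]⟩, ⟨e, by rw [he, sq]⟩⟩
    · rintro ⟨h2, h3⟩
      exact h2.mul h3
  by_cases hsm : IsSquare m
  · by_cases hsn : IsSquare n
    · simp [hm, hn, hsm, hsn, h1]
    · simp [hsn, h1]
  · simp [hsm, h1]

/-- the coefficients of `ζ(2s) / ζ(s) ^ 2` -/
def tQ : ArithmeticFunction ℚ := sqQ * (mQ * mQ)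

lemma tQ_mult : tQ.IsMultiplicative := sqQ_mult.mul (mQ_mult.mul mQ_mult)

lemma tQ_pb : PB tQ := sqQ_pb.mul (mQ_pb.mul mQ_pb)

lemma tQ_prime {p : ℕ} (hp : p.Prime) : tQ p = -2 := by
  rw [tQ, prime_mul sqQ_mult.1 (mQ_mult.mul mQ_mult).1 hp, prime_mul mQ_mult.1 mQ_mult.1 hp]
  have h1 : sqQ p = 0 := by
    rw [sqQ_apply, if_neg]
    rintro ⟨-, h⟩
    exact hp.prime.not_isSquare h
  have h2 : mQ p = -1 := by
    simp [mQ, moebius_apply_prime hp]
  rw [h1, h2]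
  norm_num

lemma dser_sq (n : ℕ) : dser sqQ n = dser zQ (2 * n) := by
  rw [dser, dser]
  have hinj : Function.Injective fun j : ℕ => (j + 1) ^ 2 - 1 := by
    intro i j hij
    simp only at hij
    have h1 : (i + 1) ^ 2 = (j + 1) ^ 2 := by
      have h2 : 1 ≤ (i + 1) ^ 2 := Nat.one_le_pow _ _ (by omega)
      have h3 : 1 ≤ (j + 1) ^ 2 := Nat.one_le_pow _ _ (by omega)
      omega
    have h2 := Nat.pow_left_injective (by norm_num : 2 ≠ 0) h1
    omega
  rw [← hinj.tsum_eq]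
  · refine tsum_congr fun j => ?_
    have h1 : (j + 1) ^ 2 - 1 + 1 = (j + 1) ^ 2 := by
      have : 1 ≤ (j + 1) ^ 2 := Nat.one_le_pow _ _ (by omega)
      omega
    rw [h1, sqQ_apply, if_pos ⟨by positivity, ⟨j + 1, sq _⟩⟩, zQ_apply (by omega)]
    push_cast
    rw [pow_mul]
  · intro k hk
    rw [Function.mem_support] at hk
    by_cases h : k + 1 ≠ 0 ∧ IsSquare (k + 1)
    · obtain ⟨-, c, hc⟩ := h
      have hc0 : c ≠ 0 := by
        rintro rfl
        omega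
      refine ⟨c - 1, ?_⟩
      simp only
      rw [show c - 1 + 1 = c by omega, sq, ← hc]
      rfl
    · exfalso
      apply hk
      rw [sqQ_apply, if_neg h]
      simp

/-- the series of `tQ` -/
lemma dser_t : ∃ n1 : ℕ, ∀ n, n1 ≤ n → dser tQ n = dser zQ (2 * n) / dser zQ n ^ 2 := by
  obtain ⟨a, ha⟩ := dser_mul sqQ_pb (mQ_pb.mul mQ_pb)
  obtain ⟨b, hb⟩ := dser_mul mQ_pb mQ_pb
  obtain ⟨c, hc⟩ := dser_mul zQ_pb mQ_pb
  refine ⟨a + b + c, fun n hn => ?_⟩
  have h1 := hc n (by omega)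
  rw [zQ_mul_mQ, dser_one] at h1
  have h2 : dser zQ n ≠ 0 := by
    intro h
    rw [h, zero_mul] at h1
    exact one_ne_zero h1
  have h3 : dser mQ n = 1 / dser zQ n := by
    field_simp
    linarith
  rw [tQ, ha n (by omega), hb n (by omega), h3, dser_sq]
  field_simp

lemma dser_z {n : ℕ} (hn : 3 ≤ n) : ((dser zQ n : ℝ) : ℂ) = riemannZeta n := by
  have h1 := dser_eq (f := zQ) (A := 1) (fun k hk => by
    have h1 : (1 : ℝ) ≤ k := by exact_mod_cast hk
    rw [zQ_apply (by omega)]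
    simpa using h1) (show 1 + 2 ≤ n from hn)
  rw [← h1.LSeries_eq, ← LSeries_zeta_eq_riemannZeta (by simp; omega : 1 < ((n : ℂ)).re)]
  rfl

end Pool.Agent.TH507.ZS
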